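import Pool.Agent.Lib.MP_e850aa_co.Final2

set_option autoImplicit false
set_option linter.unusedSectionVars false

namespace Pool.Agent.Lib.MP_e850aa_co

open Finset Module

/-- Subgroup arrangements obeying the determination pattern of `val`. -/
def AbLike {Q Ω A : Type} (val : Q → Ω → A) {W : Type} [AddCommGroup W]
    (U : Q → AddSubgroup W) : Prop :=
  (∀ X e, Det val X e → ∀ w, (∀ a ∈ X, w ∈ U a) → w ∈ U e) ∧
  (∀ X e, ¬ Det val X e → ∀ t, ∃ z h, (∀ a ∈ X, z ∈ U a) ∧ h ∈ U e ∧ z + h = t) ∧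
  (∀ X e, ¬ Det val X e → ∃ t, (∀ a ∈ X, t ∈ U a) ∧ t ∉ U e)

section Sub

variable {Q Ω A : Type} [DecidableEq Q] {P : Q → Prop} [DecidablePred P] {val : Q → Ω → A}

lemma abLike_extend (hP : ∀ a, ¬ P a → ∀ ω ω', val a ω' = val a ω)
    {W : Type} [AddCommGroup W] (U : {a // P a} → AddSubgroup W)
    (h : AbLike (fun a : {a // P a} => val a) U) :
    AbLike val (fun a => if ha : P a then U ⟨a, ha⟩ else ⊤) := by
  have hinf : ∀ (X : Finset Q) (w : W), (∀ a ∈ X, w ∈ (if ha : P a then U ⟨a, ha⟩ else ⊤))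
      ↔ ∀ a ∈ X.subtype P, w ∈ U a := by
    intro X w
    constructor
    · intro hw a ha
      have := hw a.1 (Finset.mem_subtype.1 ha)
      rwa [dif_pos a.2] at this
    · intro hw a ha
      by_cases ha' : P a
      · rw [dif_pos ha']
        exact hw ⟨a, ha'⟩ (Finset.mem_subtype.2 ha)
      · rw [dif_neg ha']
        trivial
  have hPe : ∀ X e, ¬ Det val X e → P e := by
    intro X e he
    by_contra he'
    exact he fun ω ω' _ => hP e he' ω ω'
  refine ⟨fun X e he w hw => ?_, fun X e he t => ?_, fun X e he => ?_⟩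
  · beta_reduce
    by_cases he' : P e
    · rw [dif_pos he']
      exact h.1 _ _ ((det_subtype hP X ⟨e, he'⟩).2 he) w ((hinf X w).1 hw)
    · rw [dif_neg he']
      trivial
  · have he' := hPe X e he
    obtain ⟨z, y, h1, h2, h3⟩ := h.2.1 (X.subtype P) ⟨e, he'⟩
      (fun h' => he ((det_subtype hP X ⟨e, he'⟩).1 h')) t
    refine ⟨z, y, (hinf X z).2 h1, ?_, h3⟩
    beta_reduce
    rwa [dif_pos he']
  · have he' := hPe X e he
    obtain ⟨t, h1, h2⟩ := h.2.2 (X.subtype P) ⟨e, he'⟩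
      (fun h' => he ((det_subtype hP X ⟨e, he'⟩).1 h'))
    refine ⟨t, (hinf X t).2 h1, ?_⟩
    beta_reduce
    rwa [dif_pos he']

end Sub

/-- Integer frame vectors. -/
def avz {α : Type} [DecidableEq α] : Option α → α → ℤ
  | none, _ => 1
  | some i, k => if k = i then 1 else 0

lemma sum_sg_avz {α : Type} [DecidableEq α] [Fintype α] (k : α) :
    ∑ i : Option α, (Option.elim i (-1) fun _ => (1 : ℤ)) * avz i k = 0 := by
  simp [Fintype.sum_option, avz]

section Chase

variable {C : Type} [DecidableEq C] [Fintype C] {F : Type} [Field F] [CharP F 2]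
variable {κ : ℕ} {L : Vx C → Ix C → F} {Bc : ZMod κ → Vx C → (Ix C → F) → F}

lemma avz_supp (i : Option (Fin 3)) (j : Option C) (q : Ix C) :
    avz i q.1 * avz j q.2 = if q ∈ supp i j then 1 else 0 := by
  rcases i with _ | i <;> rcases j with _ | j <;> simp [avz, supp, eq_comm, ite_and]
  split_ifs <;> rfl

theorem not_abLike [Nonempty C] (hL : ∀ u, L u ∈ (Yv u : Submodule F (Ix C → F)))
    (hB : ∀ c, Piece (Bc c)) (W : Type) [AddCommGroup W]
    (U : Qx C → AddSubgroup W) : ¬ AbLike (valx L Bc) U := by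
  rintro ⟨D1, D2, D3⟩
  obtain ⟨q0, hq0⟩ := nv_exists_one (F := F) (none : Option (Fin 3)) (none : Option C)
  obtain ⟨t0, ht0, ht0'⟩ := D3 _ _ (not_det_gs (L := L) (Bc := Bc)
    (fun g => (vec g : Ix C → F) ⬝ᵥ nv none none = 0) {q0} (nv none none) (fun _ h => h)
    (by rw [vec_single_dot, hq0]; exact one_ne_zero))
  rw [forall_gs] at ht0
  have hs : ∀ q : Ix C, ∃ s h, (∀ a ∈ gs (fun g => ∃ q', q' ≠ q ∧ g = {q'}), s ∈ U a) ∧
      h ∈ U (Sum.inl {q}) ∧ s + h = t0 := by
    intro q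
    refine D2 _ _ (not_det_gs _ {q} (Pi.single q 1) ?_ ?_) t0
    · rintro g' ⟨q', hq', rfl⟩
      rw [vec_single_dot, Pi.single_eq_of_ne hq']
    · rw [vec_single_dot]
      simp
  choose s h hs1 hs2 hs3 using hs
  have hsg : ∀ q g, q ∉ g → s q ∈ U (Sum.inl g) := by
    intro q g hq
    refine D1 _ _ (det_gs _ g fun x hx => ?_) _ (hs1 q)
    rw [vec_dot]
    refine Finset.sum_eq_zero fun q' hq' => ?_
    rw [← vec_single_dot q' x]
    exact hx {q'} ⟨q', by rintro rfl; exact hq hq', rfl⟩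
  have hZ : ∀ g, t0 - ∑ q, s q ∈ U (Sum.inl g) := by
    intro g
    refine D1 _ _ (det_gs (fun g => ∃ q, g = {q}) g fun x hx => ?_) _ (forall_gs.2 ?_)
    · rw [vec_dot]
      refine Finset.sum_eq_zero fun q' _ => ?_
      rw [← vec_single_dot q' x]
      exact hx {q'} ⟨q', rfl⟩
    · rintro _ ⟨q, rfl⟩
      rw [← Finset.add_sum_erase _ _ (Finset.mem_univ q), ← hs3 q, add_sub_add_left_eq_sub]
      refine sub_mem (hs2 q) (sum_mem fun q' hq' => hsg q' _ ?_)
      rw [Finset.mem_singleton]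
      exact Finset.ne_of_mem_erase hq'
  have hT : ∀ g, (vec g : Ix C → F) ⬝ᵥ nv none none = 0 → ∑ q, s q ∈ U (Sum.inl g) := by
    intro g hg
    have := sub_mem (ht0 g hg) (hZ g)
    rwa [sub_sub_cancel] at this
  have hT' : ∑ q, s q ∉ U (Sum.inl {q0}) := by
    intro hcon
    have := add_mem (hZ {q0}) hcon
    rw [sub_add_cancel] at this
    exact ht0' this
  have block : ∀ D g : Finset (Ix C), (vec g : Ix C → F) ⬝ᵥ vec D = 0 →
      ∑ q ∈ D, s q ∈ U (Sum.inl g) := by
    intro D g hg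
    refine D1 _ _ (det_gs (fun g' => g' = g ∩ D ∨ g' = g \ D) g fun x hx => ?_) _
      (forall_gs.2 ?_)
    · have e1 := hx _ (Or.inl rfl)
      have e2 := hx _ (Or.inr rfl)
      rw [vec_dot] at e1 e2 ⊢
      rw [← Finset.sum_inter_add_sum_sdiff g D, e1, e2, add_zero]
    · rintro _ (rfl | rfl)
      · have e1 : ∑ q, s q ∈ U (Sum.inl (g ∩ D)) := by
          apply hT
          rw [vec_dot] at hg ⊢
          simpa [vec, nv] using hg
        have e2 : ∑ q ∈ Dᶜ, s q ∈ U (Sum.inl (g ∩ D)) :=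
          sum_mem fun q hq => hsg q _ fun hq' =>
            (Finset.mem_compl.1 hq) (Finset.mem_inter.1 hq').2
        have := sub_mem e1 e2
        rwa [← Finset.sum_add_sum_compl D, add_sub_cancel_right] at this
      · exact sum_mem fun q hq => hsg q _ fun hq' => (Finset.mem_sdiff.1 hq').2 hq
  let sg : {α : Type} → Option α → ℤ := fun i => Option.elim i (-1) fun _ => (1 : ℤ)
  let tt : Option (Fin 3) → Option C → W := fun i j =>
    ∑ q : Ix C, ((sg i * avz i q.1) * (sg j * avz j q.2)) • s q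
  have htt : ∀ i j g, (vec g : Ix C → F) ⬝ᵥ nv i j = 0 → tt i j ∈ U (Sum.inl g) := by
    intro i j g hg
    rw [nv_eq_vec] at hg
    have e1 : tt i j = (sg i * sg j) • ∑ q ∈ supp i j, s q := by
      have e2 : ∑ q ∈ supp i j, s q = ∑ q, (avz i q.1 * avz j q.2) • s q := by
        simp [avz_supp]
      rw [e2, Finset.smul_sum]
      refine Finset.sum_congr rfl fun q _ => ?_
      rw [smul_smul]
      congr 1
      ring
    rw [e1]
    exact zsmul_mem (block _ g hg) _
  have hrow : ∀ i, ∑ j, tt i j = 0 := by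
    intro i
    rw [Finset.sum_comm]
    refine Finset.sum_eq_zero fun q _ => ?_
    rw [← Finset.sum_smul, ← Finset.mul_sum, sum_sg_avz, mul_zero, zero_smul]
  have hcol : ∀ j, ∑ i, tt i j = 0 := by
    intro j
    rw [Finset.sum_comm]
    refine Finset.sum_eq_zero fun q _ => ?_
    rw [← Finset.sum_smul, ← Finset.sum_mul, sum_sg_avz, zero_mul, zero_smul]
  have hzh : ∀ i j, ∃ z h, (∀ a ∈ gs (fun _ => True), z ∈ U a) ∧ h ∈ U (Sum.inr (Sum.inl i)) ∧
      z + h = tt i j := fun i j => D2 _ _ (not_det_vx _ _) _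
  choose z y hz hy hzy using hzh
  have hz' : ∀ i j g, z i j ∈ U (Sum.inl g) := fun i j g => forall_gs.1 (hz i j) g trivial
  have hyg : ∀ i j g, (vec g : Ix C → F) ⬝ᵥ nv i j = 0 → y i j ∈ U (Sum.inl g) := by
    intro i j g hg
    have := sub_mem (htt i j g hg) (hz' i j g)
    rwa [← hzy, add_sub_cancel_left] at this
  have hyc : ∀ i j, ¬ (i = none ∧ j = none) → y i j ∈ U (Sum.inr (Sum.inr j)) := by
    intro i j hij
    refine D1 _ _ (det_cell hL hB i j hij) _ ?_
    rw [Finset.forall_mem_insert]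
    exact ⟨hy i j, forall_gs.2 (hyg i j)⟩
  have r1 : ∀ i, ∑ j, y i j ∈ U (Sum.inr (Sum.inr none)) := by
    intro i
    refine D1 _ _ (det_all (Sum.inl i) _) _ ?_
    rw [Finset.forall_mem_insert]
    refine ⟨sum_mem fun j _ => hy i j, forall_gs.2 fun g _ => ?_⟩
    have e1 : ∑ j, y i j = -∑ j, z i j := by
      rw [eq_neg_iff_add_eq_zero, add_comm, ← Finset.sum_add_distrib]
      simp only [hzy, hrow]
    rw [e1]
    exact neg_mem (sum_mem fun j _ => hz' i j g)
  have r2 : ∀ l : C, ∑ i, y i (some l) ∈ U (Sum.inr (Sum.inr none)) := by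
    intro l
    refine D1 _ _ (det_all (Sum.inr (some l)) _) _ ?_
    rw [Finset.forall_mem_insert]
    refine ⟨sum_mem fun i _ => hyc i _ (by simp), forall_gs.2 fun g _ => ?_⟩
    have e1 : ∑ i, y i (some l) = -∑ i, z i (some l) := by
      rw [eq_neg_iff_add_eq_zero, add_comm, ← Finset.sum_add_distrib]
      simp only [hzy, hcol]
    rw [e1]
    exact neg_mem (sum_mem fun i _ => hz' i _ g)
  have r3 : y none none ∈ U (Sum.inr (Sum.inr none)) := by
    have e1 : ∑ i, ∑ j, y i j ∈ U (Sum.inr (Sum.inr none)) := sum_mem fun i _ => r1 i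
    rw [Finset.sum_comm, Fintype.sum_option, Fintype.sum_option] at e1
    have e2 : ∑ l : C, ∑ i, y i (some l) ∈ U (Sum.inr (Sum.inr none)) :=
      sum_mem fun l _ => r2 l
    have e3 : ∑ k : Fin 3, y (some k) none ∈ U (Sum.inr (Sum.inr none)) :=
      sum_mem fun k _ => hyc _ _ (by simp)
    have := sub_mem (sub_mem e1 e2) e3
    rwa [add_sub_cancel_right, add_sub_cancel_right] at this
  have r4 : y none none ∈ U (Sum.inl {q0}) := by
    refine D1 _ _ (det_star hL hB {q0}) _ ?_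
    rw [Finset.forall_mem_insert, Finset.forall_mem_insert]
    exact ⟨hy _ _, r3, forall_gs.2 (hyg none none)⟩
  apply hT'
  have := add_mem (hz' none none {q0}) r4
  rw [hzy] at this
  simpa [tt, sg, avz] using this

end Chase

end Pool.Agent.Lib.MP_e850aa_co
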