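import Mathlib

set_option autoImplicit false

namespace Pool.Agent.Lib.MP_e850aa_co

open Finset

section Abs

variable {Q Ω A : Type} [DecidableEq Q] [Fintype Ω] [Fintype A]

/-- Two sample points agree on all shares indexed by `X`. -/
def Agree (val : Q → Ω → A) (X : Finset Q) (ω ω' : Ω) : Prop := ∀ i ∈ X, val i ω' = val i ω

/-- The shares in `X` determine the share `e`. -/
def Det (val : Q → Ω → A) (X : Finset Q) (e : Q) : Prop :=
  ∀ ω ω', Agree val X ω ω' → val e ω' = val e ω

open Classical in
/-- The fibre of `ω` for the shares in `X`. -/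
noncomputable def fib (val : Q → Ω → A) (X : Finset Q) (ω : Ω) : Finset Ω :=
  Finset.univ.filter (fun ω' => Agree val X ω ω')

omit [DecidableEq Q] [Fintype A] in
lemma mem_fib {val : Q → Ω → A} {X : Finset Q} {ω ω' : Ω} :
    ω' ∈ fib val X ω ↔ Agree val X ω ω' := by
  simp [fib]

omit [DecidableEq Q] [Fintype A] in
lemma fib_anti {val : Q → Ω → A} {X Y : Finset Q} (h : X ⊆ Y) (ω : Ω) :
    fib val Y ω ⊆ fib val X ω := by
  intro ω' h'
  rw [mem_fib] at h' ⊢
  exact fun i hi => h' i (h hi)

omit [DecidableEq Q] [Fintype A] in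
lemma fib_card_pos (val : Q → Ω → A) (X : Finset Q) (ω : Ω) : 0 < (fib val X ω).card :=
  Finset.card_pos.2 ⟨ω, mem_fib.2 (fun _ _ => rfl)⟩

lemma fib_card_base (val : Q → Ω → A) (B I : Finset Q) (hIB : I ⊆ B)
    (hcard : Fintype.card Ω = Fintype.card A ^ B.card)
    (hinj : ∀ ω ω', Agree val B ω ω' → ω' = ω) (ω : Ω) :
    (fib val I ω).card * Fintype.card A ^ I.card = Fintype.card Ω := by
  classical
  let Φ : Ω → (B → A) := fun ω b => val b ω
  have hΦinj : Function.Injective Φ := by
    intro ω₁ ω₂ h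
    exact (hinj ω₂ ω₁ (fun i hi => congrFun h ⟨i, hi⟩))
  have hΦ : Function.Bijective Φ := by
    rw [Fintype.bijective_iff_injective_and_card]
    refine ⟨hΦinj, ?_⟩
    rw [hcard, Fintype.card_fun, Fintype.card_coe]
  let T : B → Finset A := fun b => if b.1 ∈ I then {val b ω} else Finset.univ
  have h1 : (fib val I ω).card = (Fintype.piFinset T).card := by
    apply Finset.card_bij (fun ω' _ => Φ ω')
    · intro ω' h'
      rw [mem_fib] at h'
      rw [Fintype.mem_piFinset]
      intro b
      by_cases hb : b.1 ∈ I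
      · simp only [T, hb, if_true, Finset.mem_singleton]
        exact h' _ hb
      · simp [T, hb]
    · intro a _ b _ h
      exact hΦinj h
    · intro f hf
      obtain ⟨ω', rfl⟩ := hΦ.2 f
      refine ⟨ω', ?_, rfl⟩
      rw [mem_fib]
      intro i hi
      rw [Fintype.mem_piFinset] at hf
      have := hf ⟨i, hIB hi⟩
      simpa [T, hi] using this
  have h2 : (Fintype.piFinset T).card = Fintype.card A ^ (B \ I).card := by
    rw [Fintype.card_piFinset]
    have : ∀ b : B, (T b).card = if b.1 ∈ I then 1 else Fintype.card A := by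
      intro b
      by_cases hb : b.1 ∈ I <;> simp [T, hb]
    simp only [this]
    rw [Finset.prod_coe_sort B (fun b => if b ∈ I then 1 else Fintype.card A)]
    rw [Finset.prod_ite, Finset.prod_const_one, one_mul, Finset.prod_const, Finset.sdiff_eq_filter]
  rw [h1, h2, hcard, ← pow_add, Finset.card_sdiff_add_card_eq_card hIB]

/-- The axioms of a family of independent sets whose maximal members are coordinate systems. -/
structure Sys (val : Q → Ω → A) (Ind : Finset Q → Prop) (r : ℕ) : Prop where
  card : Fintype.card Ω = Fintype.card A ^ r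
  ext : ∀ I, Ind I → I.card < r → ∃ e, e ∉ I ∧ Ind (insert e I)
  le : ∀ I, Ind I → I.card ≤ r
  inj : ∀ I, Ind I → I.card = r → ∀ ω ω', Agree val I ω ω' → ω' = ω

lemma Sys.exists_base {val : Q → Ω → A} {Ind : Finset Q → Prop} {r : ℕ} (h : Sys val Ind r) :
    ∀ (k : ℕ) (I : Finset Q), Ind I → I.card + k = r → ∃ B, I ⊆ B ∧ Ind B ∧ B.card = r := by
  intro k
  induction k with
  | zero => intro I hI hk; exact ⟨I, subset_rfl, hI, by simpa using hk⟩
  | succ k ih =>
    intro I hI hk
    obtain ⟨e, he, hI'⟩ := h.ext I hI (by omega)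
    obtain ⟨B, hB, hB', hBr⟩ := ih (insert e I) hI' (by rw [Finset.card_insert_of_notMem he]; omega)
    exact ⟨B, (Finset.subset_insert e I).trans hB, hB', hBr⟩

lemma Sys.fib_card {val : Q → Ω → A} {Ind : Finset Q → Prop} {r : ℕ} (h : Sys val Ind r)
    {I : Finset Q} (hI : Ind I) (ω : Ω) :
    (fib val I ω).card * Fintype.card A ^ I.card = Fintype.card Ω := by
  obtain ⟨B, hB, hB', hBr⟩ := h.exists_base (r - I.card) I hI (by have := h.le I hI; omega)
  exact fib_card_base val B I hB (by rw [hBr]; exact h.card) (h.inj B hB' hBr) ω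

lemma exists_matroid [Nonempty Ω] {val : Q → Ω → A} {Ind : Finset Q → Prop} {r : ℕ}
    (h : Sys val Ind r) (hd : 1 < Fintype.card A) (h0 : Ind ∅)
    (hsub : ∀ ⦃I J⦄, Ind J → I ⊆ J → Ind I)
    (hdet : ∀ I e, Ind I → e ∉ I → ¬ Ind (insert e I) → Det val I e) :
    ∃ M : Matroid Q, M.E = Set.univ ∧ ∀ (X : Finset Q) (ω : Ω),
      (fib val X ω).card * Fintype.card A ^ (M.eRk (X : Set Q)).toNat = Fintype.card Ω := by
  have haug : ∀ ⦃I J⦄, Ind I → Ind J → I.card < J.card →
      ∃ e ∈ J, e ∉ I ∧ Ind (insert e I) := by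
    intro I J hI hJ hlt
    by_contra hcon
    push Not at hcon
    obtain ⟨ω⟩ := ‹Nonempty Ω›
    have hs : fib val I ω ⊆ fib val J ω := by
      intro ω' h'
      rw [mem_fib] at h' ⊢
      intro e he
      by_cases heI : e ∈ I
      · exact h' e heI
      · exact hdet I e hI heI (hcon e he heI) ω ω' h'
    have h1 := h.fib_card hI ω
    have h2 := h.fib_card hJ ω
    have h3 := Finset.card_le_card hs
    have h4 := fib_card_pos val I ω
    have h5 : Fintype.card A ^ I.card < Fintype.card A ^ J.card := Nat.pow_lt_pow_right hd hlt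
    have h6 : (fib val I ω).card * Fintype.card A ^ I.card
        < (fib val I ω).card * Fintype.card A ^ J.card := Nat.mul_lt_mul_of_pos_left h5 h4
    have h7 : (fib val I ω).card * Fintype.card A ^ J.card
        ≤ (fib val J ω).card * Fintype.card A ^ J.card := Nat.mul_le_mul_right _ h3
    omega
  let M : Matroid Q := (IndepMatroid.ofFinset Set.univ Ind h0 hsub haug
    (fun _ _ => Set.subset_univ _)).matroid
  have hM : ∀ I : Finset Q, M.Indep (I : Set Q) ↔ Ind I := by
    intro I
    simp [M]
  have hE : M.E = Set.univ := rfl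
  refine ⟨M, hE, fun X ω => ?_⟩
  obtain ⟨I, hI⟩ := M.exists_isBasis (X : Set Q) (by rw [hE]; exact Set.subset_univ _)
  have hfin : I.Finite := X.finite_toSet.subset hI.subset
  lift I to Finset Q using hfin
  have hInd : Ind I := (hM I).1 hI.indep
  have hIX : I ⊆ X := by exact_mod_cast hI.subset
  have hfib : fib val X ω = fib val I ω := by
    refine Finset.Subset.antisymm (fib_anti hIX ω) ?_
    intro ω' h'
    rw [mem_fib] at h' ⊢
    intro e he
    by_cases heI : e ∈ I
    · exact h' e heI
    · refine hdet I e hInd heI ?_ ω ω' h'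
      intro hins
      have hdep := hI.insert_dep (e := e) ⟨by exact_mod_cast he, by exact_mod_cast heI⟩
      apply hdep.not_indep
      rw [← Finset.coe_insert]
      exact (hM _).2 hins
  rw [hfib, hI.eRk_eq_encard, Set.encard_coe_eq_coe_finsetCard, ENat.toNat_natCast]
  exact h.fib_card hInd ω

end Abs

end Pool.Agent.Lib.MP_e850aa_co
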