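import Pool.Agent.Lib.MP_e850aa_co.Abstract

set_option autoImplicit false

namespace Pool.Agent.Lib.MP_e850aa_co

open Finset

section Fin

variable {Q Ω A : Type} [DecidableEq Q] [Fintype Ω] [Fintype A]

lemma rk_eq_of_det [Nonempty Ω] {val : Q → Ω → A} {ρ : Finset Q → ℕ} (hd : 1 < Fintype.card A)
    (hρ : ∀ (X : Finset Q) (ω : Ω), (fib val X ω).card * Fintype.card A ^ ρ X = Fintype.card Ω)
    {X : Finset Q} {e : Q} (h : Det val X e) : ρ (insert e X) = ρ X := by
  obtain ⟨ω⟩ := ‹Nonempty Ω›
  have hfib : fib val (insert e X) ω = fib val X ω := by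
    refine Finset.Subset.antisymm (fib_anti (Finset.subset_insert e X) ω) ?_
    intro ω' h'
    rw [mem_fib] at h' ⊢
    intro i hi
    rcases Finset.mem_insert.1 hi with rfl | hi
    · exact h ω ω' h'
    · exact h' i hi
  have h1 := hρ X ω
  have h2 := hρ (insert e X) ω
  rw [hfib, ← h1] at h2
  have h3 := Nat.eq_of_mul_eq_mul_left (fib_card_pos val X ω) h2
  exact Nat.pow_right_injective hd h3

lemma rk_lt_of_not_det {val : Q → Ω → A} {ρ : Finset Q → ℕ} (hd : 1 < Fintype.card A)
    (hρ : ∀ (X : Finset Q) (ω : Ω), (fib val X ω).card * Fintype.card A ^ ρ X = Fintype.card Ω)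
    {X : Finset Q} {e : Q} (h : ¬ Det val X e) : ρ X < ρ (insert e X) := by
  unfold Det at h
  push Not at h
  obtain ⟨ω, ω', h1, h2⟩ := h
  have hss : fib val (insert e X) ω ⊂ fib val X ω := by
    refine ⟨fib_anti (Finset.subset_insert e X) ω, fun hs => ?_⟩
    have := mem_fib.1 (hs (mem_fib.2 h1))
    exact h2 (this e (Finset.mem_insert_self e X))
  have h3 := Finset.card_lt_card hss
  have h4 := hρ X ω
  have h5 := hρ (insert e X) ω
  by_contra hcon
  push Not at hcon
  have h6 : Fintype.card A ^ ρ (insert e X) ≤ Fintype.card A ^ ρ X :=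
    Nat.pow_le_pow_right (by omega) hcon
  have h7 : 0 < Fintype.card A ^ ρ X := by positivity
  have h8 : (fib val (insert e X) ω).card * Fintype.card A ^ ρ (insert e X)
      ≤ (fib val (insert e X) ω).card * Fintype.card A ^ ρ X := Nat.mul_le_mul_left _ h6
  have h9 : (fib val (insert e X) ω).card * Fintype.card A ^ ρ X
      < (fib val X ω).card * Fintype.card A ^ ρ X := Nat.mul_lt_mul_of_pos_right h3 h7
  omega

/-- Subspace arrangements obeying the determination pattern of `val`. -/
def LinLike (val : Q → Ω → A) {K W : Type} [Field K] [AddCommGroup W] [Module K W]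
    (U : Q → Submodule K W) : Prop :=
  (∀ X e, Det val X e → (⨅ i ∈ X, U i) ≤ U e) ∧
  (∀ X e, ¬ Det val X e → (⨅ i ∈ X, U i) ⊔ U e = ⊤ ∧ ¬ (⨅ i ∈ X, U i) ≤ U e)

lemma linLike_of_rank [Nonempty Ω] {val : Q → Ω → A} {ρ : Finset Q → ℕ}
    (hd : 1 < Fintype.card A)
    (hρ : ∀ (X : Finset Q) (ω : Ω), (fib val X ω).card * Fintype.card A ^ ρ X = Fintype.card Ω)
    (h1 : ∀ e, ρ {e} ≤ 1)
    {K : Type} [Field K] {n k : ℕ} (hk : 0 < k) (U : Q → Submodule K (Fin n → K))
    (hU : ∀ X : Finset Q, n - Module.finrank K (↥(⨅ i ∈ X, U i)) = ρ X * k) : LinLike val U := by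
  have hle : ∀ S : Submodule K (Fin n → K), Module.finrank K S ≤ n := by
    intro S
    have := Submodule.finrank_le S
    simpa using this
  have hins : ∀ (X : Finset Q) (e : Q), (⨅ i ∈ insert e X, U i) = U e ⊓ ⨅ i ∈ X, U i := by
    intro X e
    exact Finset.iInf_insert e X U
  constructor
  · intro X e h
    have h2 := rk_eq_of_det hd hρ h
    have h3 := hU (insert e X)
    have h4 := hU X
    rw [h2, hins] at h3
    have h5 := hle (U e ⊓ ⨅ i ∈ X, U i)
    have h6 := hle (⨅ i ∈ X, U i)
    have h7 : U e ⊓ (⨅ i ∈ X, U i) = ⨅ i ∈ X, U i :=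
      Submodule.eq_of_le_of_finrank_eq inf_le_right (by omega)
    rw [← h7]
    exact inf_le_left
  · intro X e h
    have h2 := rk_lt_of_not_det hd hρ h
    have h3 := hU (insert e X)
    have h4 := hU X
    have h8 := hU {e}
    rw [hins] at h3
    have h9 : (⨅ i ∈ ({e} : Finset Q), U i) = U e := by simp
    rw [h9] at h8
    have h5 := hle (U e ⊓ ⨅ i ∈ X, U i)
    have h6 := hle (⨅ i ∈ X, U i)
    have h6' := hle (U e)
    have h10 : (ρ X + 1) * k ≤ ρ (insert e X) * k := Nat.mul_le_mul_right k h2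
    have h11 : ρ {e} * k ≤ 1 * k := Nat.mul_le_mul_right k (h1 e)
    have h12 := Submodule.finrank_sup_add_finrank_inf_eq (U e) (⨅ i ∈ X, U i)
    have h13 := hle (U e ⊔ ⨅ i ∈ X, U i)
    rw [add_mul] at h10
    constructor
    · rw [sup_comm]
      apply Submodule.eq_top_of_finrank_eq
      have : Module.finrank K (Fin n → K) = n := by simp
      omega
    · intro hcon
      rw [inf_eq_right.2 hcon] at h3
      omega

theorem final [Fintype Q] [Nonempty Ω] {val : Q → Ω → A} {Ind : Finset Q → Prop} {r : ℕ}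
    (h : Sys val Ind r) (hd : 1 < Fintype.card A) (h0 : Ind ∅)
    (hsub : ∀ ⦃I J⦄, Ind J → I ⊆ J → Ind I)
    (hdet : ∀ I e, Ind I → e ∉ I → ¬ Ind (insert e I) → Det val I e)
    (D j : Q) (hne : j ≠ D) (hD : ¬ Det val ∅ D) (hj : ¬ Det val ∅ j)
    (hlin : ∀ (K W : Type) [Field K] [AddCommGroup W] [Module K W] (U : Q → Submodule K W),
      ¬ LinLike val U) :
    ∃ (M : Matroid Q),
      M.E = Set.univ ∧
      (∃ (D : Q) (m : ℕ) (p : Fin m → ℝ) (π : Q → Fin m → ℕ),
        (∀ x, 0 ≤ p x) ∧ (∑ x, p x = 1) ∧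
        0 < -∑ x : Fin m, p x * Real.log
              (∑ y ∈ Finset.univ.filter (fun y => ∀ i ∈ ({D} : Finset Q), π i y = π i x), p y) ∧
        (∃ j : Q, j ≠ D ∧
          -∑ x : Fin m, p x * Real.log
              (∑ y ∈ Finset.univ.filter (fun y => ∀ i ∈ ({j} : Finset Q), π i y = π i x), p y)
          = -∑ x : Fin m, p x * Real.log
              (∑ y ∈ Finset.univ.filter (fun y => ∀ i ∈ ({D} : Finset Q), π i y = π i x), p y)) ∧
        ∀ X : Finset Q,
          -∑ x : Fin m, p x * Real.log
              (∑ y ∈ Finset.univ.filter (fun y => ∀ i ∈ X, π i y = π i x), p y)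
          = ((M.eRk (↑X : Set Q)).toNat : ℝ) *
            (-∑ x : Fin m, p x * Real.log
              (∑ y ∈ Finset.univ.filter (fun y => ∀ i ∈ ({D} : Finset Q), π i y = π i x), p y))) ∧
      ¬ (∃ (D : Q) (K : Type) (_ : Field K) (_ : Fintype K) (n : ℕ)
          (U : Q → Submodule K (Fin n → K)),
          Module.finrank K (U D) < n ∧
          (∃ j : Q, j ≠ D ∧ Module.finrank K (U j) = Module.finrank K (U D)) ∧
          ∀ X : Finset Q,
            n - Module.finrank K (↥(⨅ i ∈ X, U i))
              = (M.eRk (↑X : Set Q)).toNat * (n - Module.finrank K (U D))) := by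
  classical
  obtain ⟨M, hE, hρ⟩ := exists_matroid h hd h0 hsub hdet
  have h1 : ∀ e : Q, (M.eRk ((({e} : Finset Q)) : Set Q)).toNat ≤ 1 := by
    intro e
    have := M.eRk_le_encard ((({e} : Finset Q)) : Set Q)
    rw [Set.encard_coe_eq_coe_finsetCard, Finset.card_singleton] at this
    exact ENat.toNat_le_of_le_natCast this
  have hone : ∀ e : Q, ¬ Det val ∅ e → (M.eRk ((({e} : Finset Q)) : Set Q)).toNat = 1 := by
    intro e he
    have h2 := rk_lt_of_not_det (ρ := fun X : Finset Q => (M.eRk (X : Set Q)).toNat) hd hρ he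
    have h3 := h1 e
    simp only [insert_empty_eq] at h2
    omega
  refine ⟨M, hE, ?_, ?_⟩
  · let m := Fintype.card Ω
    have hm : 0 < m := Fintype.card_pos
    let ε : Fin m ≃ Ω := (Fintype.equivFin Ω).symm
    let π : Q → Fin m → ℕ := fun i x => (Fintype.equivFin A (val i (ε x)) : ℕ)
    have hH : ∀ X : Finset Q, -∑ x : Fin m, (1 / (m : ℝ)) * Real.log
        (∑ y ∈ Finset.univ.filter (fun y => ∀ i ∈ X, π i y = π i x), (1 / (m : ℝ)))
        = ((M.eRk (↑X : Set Q)).toNat : ℝ) * Real.log (Fintype.card A) := by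
      intro X
      have hc : ∀ x : Fin m, (Finset.univ.filter (fun y => ∀ i ∈ X, π i y = π i x)).card
          = (fib val X (ε x)).card := by
        intro x
        apply Finset.card_bij (fun y _ => ε y)
        · intro y hy
          rw [mem_fib]
          intro i hi
          have := (Finset.mem_filter.1 hy).2 i hi
          exact (Fintype.equivFin A).injective (Fin.ext this)
        · intro a _ b _ hab
          exact ε.injective hab
        · intro ω hω
          refine ⟨ε.symm ω, ?_, by simp⟩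
          rw [Finset.mem_filter]
          refine ⟨Finset.mem_univ _, fun i hi => ?_⟩
          have := mem_fib.1 hω i hi
          simp only [π, Equiv.apply_symm_apply, this]
      have hl : ∀ x : Fin m, Real.log
          (∑ y ∈ Finset.univ.filter (fun y => ∀ i ∈ X, π i y = π i x), (1 / (m : ℝ)))
          = -(((M.eRk (↑X : Set Q)).toNat : ℝ) * Real.log (Fintype.card A)) := by
        intro x
        rw [Finset.sum_const, hc, nsmul_eq_mul, ← Real.log_pow, ← Real.log_inv]
        congr 1
        have h2 : ((fib val X (ε x)).card : ℝ) * (Fintype.card A : ℝ) ^ (M.eRk (↑X : Set Q)).toNat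
            = (m : ℝ) := by exact_mod_cast hρ X (ε x)
        have h3 : (0 : ℝ) < m := by exact_mod_cast hm
        have h4 : (0 : ℝ) < (Fintype.card A : ℝ) ^ (M.eRk (↑X : Set Q)).toNat := by
          have : (0 : ℝ) < Fintype.card A := by exact_mod_cast (by omega : 0 < Fintype.card A)
          positivity
        field_simp
        linarith
      simp only [hl]
      rw [Finset.sum_const, Finset.card_univ, Fintype.card_fin, nsmul_eq_mul]
      have h3 : (0 : ℝ) < m := by exact_mod_cast hm
      field_simp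
    have hlog : 0 < Real.log (Fintype.card A) := Real.log_pos (by exact_mod_cast hd)
    refine ⟨D, m, fun _ => 1 / (m : ℝ), π, fun _ => by positivity, ?_, ?_, ⟨j, hne, ?_⟩, ?_⟩
    · rw [Finset.sum_const, Finset.card_univ, Fintype.card_fin, nsmul_eq_mul]
      have h3 : (0 : ℝ) < m := by exact_mod_cast hm
      field_simp
    · rw [hH, hone D hD]
      simpa using hlog
    · rw [hH, hH, hone D hD, hone j hj]
    · intro X
      rw [hH, hH, hone D hD]
      simp
  · rintro ⟨D', K, _, _, n, U, hlt, -, hU⟩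
    exact hlin K (Fin n → K) U (linLike_of_rank
      (ρ := fun X : Finset Q => (M.eRk (X : Set Q)).toNat) hd hρ h1 (by omega) U hU)

end Fin

end Pool.Agent.Lib.MP_e850aa_co
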