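import Mathlib

set_option autoImplicit false

namespace Pool.Agent.Lib.MP_e850aa_co

open Finset

section Port

variable {Q : Type} [DecidableEq Q]

/-- Polymatroid axioms with increments at most one. -/
structure Poly (h : Finset Q → ℝ) : Prop where
  inc0 : ∀ X e, h X ≤ h (insert e X)
  inc1 : ∀ X e, h (insert e X) ≤ h X + 1
  dim : ∀ X Y e, X ⊆ Y → e ∉ Y → h (insert e Y) - h Y ≤ h (insert e X) - h X

lemma Poly.dim' {h : Finset Q → ℝ} (hh : Poly h) {X Y : Finset Q} (e : Q) (hXY : X ⊆ Y) :
    h (insert e Y) - h Y ≤ h (insert e X) - h X := by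
  by_cases he : e ∈ Y
  · rw [Finset.insert_eq_of_mem he]
    have := hh.inc0 X e
    linarith
  · exact hh.dim X Y e hXY he

lemma Poly.det_mono {h : Finset Q → ℝ} (hh : Poly h) {X Y : Finset Q} {e : Q} (hXY : X ⊆ Y)
    (he : h (insert e X) = h X) : h (insert e Y) = h Y := by
  have h1 := hh.dim' e hXY
  have h2 := hh.inc0 Y e
  linarith

lemma Poly.span {h : Finset Q → ℝ} (hh : Poly h) (Z F : Finset Q)
    (hF : ∀ f ∈ F, h (insert f Z) = h Z) : h (F ∪ Z) = h Z := by
  induction F using Finset.induction_on with
  | empty => simp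
  | insert a F _ ih =>
    rw [Finset.insert_union, hh.det_mono Finset.subset_union_right
      (hF a (Finset.mem_insert_self _ _))]
    exact ih fun f hf => hF f (Finset.mem_insert_of_mem hf)

lemma Poly.skew {h : Finset Q → ℝ} (hh : Poly h) (C A : Finset Q)
    (hA : ∀ a ∈ A, h (insert a (C ∪ A.erase a)) = h (C ∪ A.erase a) + 1)
    (Y : Finset Q) (hY : Y ⊆ C) : h (Y ∪ A) = h Y + A.card := by
  suffices H : ∀ T, T ⊆ A → h (Y ∪ T) = h Y + T.card from H A subset_rfl
  intro T
  induction T using Finset.induction_on with
  | empty => simp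
  | insert a T ha ih =>
    intro hT
    have haA : a ∈ A := hT (Finset.mem_insert_self _ _)
    have hTA : T ⊆ A := (Finset.subset_insert _ _).trans hT
    have hsub : Y ∪ T ⊆ C ∪ A.erase a := by
      refine Finset.union_subset_union hY fun x hx => ?_
      exact Finset.mem_erase.2 ⟨by rintro rfl; exact ha hx, hTA hx⟩
    have h1 := hh.dim' a hsub
    have h2 := hh.inc1 (Y ∪ T) a
    rw [Finset.union_insert, Finset.card_insert_of_notMem ha]
    have h3 := ih hTA
    have h4 := hA a haA
    push_cast
    linarith

lemma Poly.step {h : Finset Q → ℝ} (hh : Poly h) {D i : Q} {A : Finset Q}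
    (h1 : h (insert D A) = h A + 1) (h2 : h (insert D (insert i A)) = h (insert i A)) :
    h (insert i A) = h A + 1 ∧ h (insert i (insert D A)) = h (insert D A) := by
  have h3 := hh.inc1 A i
  have h4 := hh.inc0 (insert D A) i
  rw [Finset.insert_comm] at h2
  constructor <;> linarith

theorem port_det {r h : Finset Q → ℝ} (hr : Poly r) (hh : Poly h)
    (hint : ∀ X e, r (insert e X) = r X ∨ r (insert e X) = r X + 1) (D : Q)
    (port : ∀ A, D ∉ A → h (insert D A) - h A = r (insert D A) - r A)
    (conn : ∀ e, e ≠ D → ∃ A, D ∉ A ∧ r (insert D A) ≠ r A ∧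
      r (insert D (insert e A)) = r (insert e A))
    (e : Q) (X : Finset Q) : r (insert e X) = r X → h (insert e X) = h X := by
  have stepr : ∀ (i : Q) (A : Finset Q), r (insert D A) ≠ r A →
      r (insert D (insert i A)) = r (insert i A) →
      r (insert i A) = r A + 1 ∧ r (insert i (insert D A)) = r (insert D A) :=
    fun i A h1 h2 => hr.step ((hint A D).resolve_left h1) h2
  have steph : ∀ (i : Q) (A : Finset Q), D ∉ A → i ≠ D → r (insert D A) ≠ r A →
      r (insert D (insert i A)) = r (insert i A) →
      h (insert i A) = h A + 1 ∧ h (insert i (insert D A)) = h (insert D A) := by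
    intro i A hD hi h1 h2
    have e1 := port A hD
    have e2 := port (insert i A) (by simp [hD, hi.symm])
    have e3 := (hint A D).resolve_left h1
    exact hh.step (by linarith) (by linarith)
  induction X using Finset.strongInduction with
  | H X ih =>
  intro hX
  by_cases hmin : ∃ J, J ⊂ X ∧ r (insert e J) = r J
  · obtain ⟨J, hJ, hJ'⟩ := hmin
    exact hh.det_mono hJ.subset (ih J hJ hJ')
  have hmin' : ∀ J, J ⊂ X → r (insert e J) = r J + 1 := fun J hJ =>
    (hint J e).resolve_left fun h' => hmin ⟨J, hJ, h'⟩
  by_cases heX : e ∈ X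
  · rw [Finset.insert_eq_of_mem heX]
  by_cases heD : e = D
  · subst heD
    have := port X heX
    linarith
  by_cases hDX : D ∈ X
  · have e0 : insert D (X.erase D) = X := Finset.insert_erase hDX
    have e1 := hmin' (X.erase D) (Finset.erase_ssubset hDX)
    have e2 := hr.inc0 (insert e (X.erase D)) D
    have e3 : insert D (insert e (X.erase D)) = insert e X := by rw [Finset.insert_comm, e0]
    have e4 := hr.inc1 (X.erase D) D
    rw [e3] at e2
    rw [e0] at e4
    have := (steph e (X.erase D) (Finset.notMem_erase _ _) heD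
      (by rw [e0]; intro h'; linarith) (by rw [e3]; linarith)).2
    rwa [e0] at this
  obtain ⟨A0, hA0, hA1, hA2⟩ := conn e heD
  obtain ⟨A, hA, hAmin⟩ : ∃ A, A ≤ A0 ∧
      Minimal (fun A => r (insert D (insert e X ∪ A)) = r (insert e X ∪ A)) A := by
    apply exists_minimal_le_of_wellFoundedLT
    refine hr.det_mono ?_ hA2
    intro x hx
    rcases Finset.mem_insert.1 hx with rfl | hx
    · simp
    · exact Finset.mem_union_right _ hx
  have hDA : D ∉ A := fun h' => hA0 (hA h')
  have hDC : D ∉ insert e X := by simp [hDX, Ne.symm heD]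
  have hnot : ∀ a ∈ A, r (insert D (insert e X ∪ A.erase a)) ≠ r (insert e X ∪ A.erase a) := by
    intro a ha h'
    have := hAmin.2 h' (Finset.erase_subset a A)
    exact Finset.notMem_erase a A (this ha)
  have hins : ∀ a ∈ A, insert a (insert e X ∪ A.erase a) = insert e X ∪ A := by
    intro a ha
    rw [← Finset.union_insert, Finset.insert_erase ha]
  have skr := hr.skew (insert e X) A fun a ha =>
    (stepr a _ (hnot a ha) (by rw [hins a ha]; exact hAmin.1)).1
  have skh := hh.skew (insert e X) A fun a ha =>
    (steph a _ (by simp [hDX, Ne.symm heD, hDA]) (by rintro rfl; exact hDA ha) (hnot a ha)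
      (by rw [hins a ha]; exact hAmin.1)).1
  obtain ⟨J, -, hJ⟩ : ∃ J, (∅ : Finset X) ≤ J ∧ Maximal (fun J : Finset X =>
      r (insert D (J.map (Function.Embedding.subtype _) ∪ A))
        ≠ r (J.map (Function.Embedding.subtype _) ∪ A)) J := by
    apply exists_maximal_ge_of_wellFoundedGT
    simp only [Finset.map_empty, Finset.empty_union]
    intro h'
    exact hA1 (hr.det_mono hA h')
  set J' : Finset Q := J.map (Function.Embedding.subtype _) with hJ'
  have hJX : J' ⊆ X := by
    intro x hx
    obtain ⟨y, -, rfl⟩ := Finset.mem_map.1 hx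
    exact y.2
  have hXA : r (insert e (X ∪ A)) = r (X ∪ A) := hr.det_mono Finset.subset_union_left hX
  have hXA' : r (insert D (X ∪ A)) = r (X ∪ A) := by
    have e1 : r (insert D (insert e X ∪ A)) = r (insert e X ∪ A) := hAmin.1
    have e2 := hr.inc0 (insert D (X ∪ A)) e
    have e3 := hr.inc0 (X ∪ A) D
    rw [Finset.insert_union] at e1
    rw [Finset.insert_comm] at e2
    linarith
  have hJne : J' ⊂ X := by
    refine Finset.ssubset_iff_subset_ne.2 ⟨hJX, fun h' => ?_⟩
    have : r (insert D (J' ∪ A)) ≠ r (J' ∪ A) := hJ.1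
    rw [h'] at this
    exact this hXA'
  have hf : ∀ f ∈ X, r (insert f (insert D (J' ∪ A))) = r (insert D (J' ∪ A)) := by
    intro f hfX
    by_cases hfJ : f ∈ J'
    · rw [Finset.insert_eq_of_mem (by simp [hfJ])]
    refine (stepr f _ hJ.1 ?_).2
    by_contra h'
    have e1 : (insert ⟨f, hfX⟩ J).map (Function.Embedding.subtype _) = insert f J' := by
      rw [Finset.map_insert]
      rfl
    have := hJ.2 (y := insert ⟨f, hfX⟩ J) (by
      show r (insert D ((insert ⟨f, hfX⟩ J).map (Function.Embedding.subtype _) ∪ A))
        ≠ r ((insert ⟨f, hfX⟩ J).map (Function.Embedding.subtype _) ∪ A)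
      rw [e1, Finset.insert_union]
      exact h') (Finset.subset_insert _ _)
    exact hfJ (Finset.mem_map.2 ⟨⟨f, hfX⟩, this (Finset.mem_insert_self _ _), rfl⟩)
  have e1 := hr.span _ X hf
  have e2 : r (insert e (X ∪ insert D (J' ∪ A))) = r (X ∪ insert D (J' ∪ A)) :=
    hr.det_mono Finset.subset_union_left hX
  have e3 : r (insert D (insert e (J' ∪ A))) ≤ r (insert e (X ∪ insert D (J' ∪ A))) := by
    have mono : ∀ Y Z : Finset Q, r Z ≤ r (Y ∪ Z) := by
      intro Y Z
      induction Y using Finset.induction_on with
      | empty => simp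
      | insert a Y _ ih => rw [Finset.insert_union]; exact ih.trans (hr.inc0 _ _)
    have e4 : insert e (X ∪ insert D (J' ∪ A)) = X ∪ insert D (insert e (J' ∪ A)) := by
      rw [Finset.insert_comm D e, Finset.union_insert e]
    rw [e4]
    exact mono _ _
  have e5 := (hint (J' ∪ A) D).resolve_left hJ.1
  have e6 := skr (insert e J') (Finset.insert_subset_insert e hJX)
  have e7 := skr J' (hJX.trans (Finset.subset_insert _ _))
  have e8 := hmin' J' hJne
  rw [Finset.insert_union] at e6
  have e9 := hr.inc0 (insert e (J' ∪ A)) D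
  have hDJ : D ∉ J' ∪ A := by
    rw [Finset.mem_union, not_or]
    exact ⟨fun h' => hDX (hJX h'), hDA⟩
  have f1 := (steph e (J' ∪ A) hDJ heD hJ.1 (by linarith)).2
  have f2 : h (insert e (insert D (X ∪ A))) = h (insert D (X ∪ A)) :=
    hh.det_mono (Finset.insert_subset_insert D (Finset.union_subset_union_left hJX)) f1
  have f3 := port (X ∪ A) (by simp [hDX, hDA])
  have f4 := hh.inc0 (insert e (X ∪ A)) D
  rw [Finset.insert_comm] at f4
  have f5 := skh (insert e X) subset_rfl
  have f6 := skh X (Finset.subset_insert _ _)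
  have f7 := hh.inc0 X e
  rw [Finset.insert_union] at f5
  linarith

variable [Fintype Q]

lemma dual_inc (h : Finset Q → ℝ) {X : Finset Q} {e : Q} (he : e ∉ X) :
    (((insert e X).card : ℝ) + h (insert e X)ᶜ) - ((X.card : ℝ) + h Xᶜ)
      = 1 - (h (insert e (insert e X)ᶜ) - h (insert e X)ᶜ) := by
  rw [Finset.card_insert_of_notMem he, Finset.insert_compl_insert he]
  push_cast
  ring

lemma Poly.dual {h : Finset Q → ℝ} (hh : Poly h) : Poly fun X => (X.card : ℝ) + h Xᶜ where
  inc0 X e := by
    by_cases he : e ∈ X
    · rw [Finset.insert_eq_of_mem he]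
    have h1 := dual_inc h he
    have h2 := hh.inc1 (insert e X)ᶜ e
    linarith
  inc1 X e := by
    by_cases he : e ∈ X
    · rw [Finset.insert_eq_of_mem he]
      linarith
    have h1 := dual_inc h he
    have h2 := hh.inc0 (insert e X)ᶜ e
    linarith
  dim X Y e hXY he := by
    have h1 := dual_inc h he
    have h2 := dual_inc h (fun h' => he (hXY h'))
    have h3 := hh.dim' e (Finset.compl_subset_compl.2 (Finset.insert_subset_insert e hXY))
    linarith

theorem port_unique {r h : Finset Q → ℝ} (hr : Poly r) (hh : Poly h)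
    (hint : ∀ X e, r (insert e X) = r X ∨ r (insert e X) = r X + 1) (D : Q)
    (port : ∀ A, D ∉ A → h (insert D A) - h A = r (insert D A) - r A)
    (conn : ∀ e, e ≠ D → ∃ A, D ∉ A ∧ r (insert D A) ≠ r A ∧
      r (insert D (insert e A)) = r (insert e A))
    (h0 : h ∅ = r ∅) (X : Finset Q) : h X = r X := by
  have k1 := port_det hr hh hint D port conn
  have k2 := port_det hr.dual hh.dual (fun X e => by
      by_cases he : e ∈ X
      · left
        rw [Finset.insert_eq_of_mem he]
      have h1 := dual_inc r he
      rcases hint (insert e X)ᶜ e with h2 | h2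
      · right
        linarith
      · left
        linarith) D (fun A hA => by
      rw [dual_inc h hA, dual_inc r hA, port _ (by simp)]) (fun e he => by
      obtain ⟨A, hA, h1, h2⟩ := conn e he
      have heA : e ∉ A := by
        intro h'
        rw [Finset.insert_eq_of_mem h'] at h2
        exact h1 h2
      have hD : D ∉ (insert D (insert e A))ᶜ := by simp
      have hD' : D ∉ insert e (insert D (insert e A))ᶜ := by simp [he.symm]
      have c1 : (insert D (insert D (insert e A))ᶜ)ᶜ = insert e A := by
        ext x
        by_cases hx : x = D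
        · subst hx
          simp [hA, he.symm]
        · simp [hx]
      have c2 : (insert D (insert e (insert D (insert e A))ᶜ))ᶜ = A := by
        ext x
        by_cases hx : x = D
        · subst hx
          simp [hA]
        · by_cases hx' : x = e
          · subst hx'
            simp [heA]
          · simp [hx, hx']
      refine ⟨(insert D (insert e A))ᶜ, hD, ?_, ?_⟩
      · have h3 := dual_inc r hD
        intro h'
        rw [c1] at h3 h'
        linarith
      · have h3 := dual_inc r hD'
        rw [c2] at h3
        have h4 := (hint A D).resolve_left h1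
        rw [c2]
        linarith)
  induction X using Finset.induction_on with
  | empty => exact h0
  | insert e X he ih =>
    rcases hint X e with h1 | h1
    · rw [k1 e X h1, h1, ih]
    · have he' : e ∉ (insert e X)ᶜ := by simp
      have c1 : (insert e (insert e X)ᶜ)ᶜ = X := by
        rw [Finset.insert_compl_insert he, compl_compl]
      have h2 := dual_inc r he'
      have h3 := dual_inc h he'
      rw [c1] at h2 h3
      have h4 := k2 e (insert e X)ᶜ (by rw [c1]; linarith)
      rw [c1] at h4
      linarith

end Port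

end Pool.Agent.Lib.MP_e850aa_co
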