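import Pool.Agent.Lib.MP_e850aa_co.SDefs
import Pool.Agent.Lib.MP_e850aa_co.Port
import Pool.Agent.Lib.MP_e850aa_co.Final

set_option autoImplicit false

namespace Pool.Agent.Lib.MP_e850aa_co

open Finset Module

open Classical in
lemma entropy_uniform {E V : Type} [Fintype E] (p : E → ℝ) (f : E → V)
    (hp : ∀ x y, p x = p y) (ht : ∑ x, p x = 1) (d : ℝ) (hd : 0 < d)
    (hf' : ∀ x, (Nat.card {y // f y = f x} : ℝ) * d = Fintype.card E) :
    entropy p f = Real.log d := by
  have hf : ∀ x, ((Finset.univ.filter fun y => f y = f x).card : ℝ) * d = Fintype.card E := by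
    intro x
    rw [← hf' x, Nat.card_eq_fintype_card, Fintype.card_subtype]
  have hpx : ∀ x, (Fintype.card E : ℝ) * p x = 1 := by
    intro x
    rw [← ht, Finset.sum_congr rfl fun y _ => hp y x, Finset.sum_const, Finset.card_univ,
      nsmul_eq_mul]
  have h1 : ∀ v ∈ Finset.univ.image f, ∑ x ∈ Finset.univ.filter (fun x => f x = v), p x = d⁻¹ := by
    intro v hv
    obtain ⟨x, -, rfl⟩ := Finset.mem_image.1 hv
    rw [Finset.sum_congr rfl fun y _ => hp y x, Finset.sum_const, nsmul_eq_mul]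
    have e1 := hf x
    have e2 := hpx x
    rw [← e1] at e2
    field_simp
    linarith
  have h2 : ∑ v ∈ Finset.univ.image f, ∑ x ∈ Finset.univ.filter (fun x => f x = v), p x = 1 := by
    rw [← ht]
    exact Finset.sum_fiberwise_of_maps_to (fun x _ => Finset.mem_image_of_mem f (Finset.mem_univ x)) p
  rw [Finset.sum_congr rfl h1, Finset.sum_const, nsmul_eq_mul] at h2
  unfold entropy
  rw [Finset.sum_congr rfl fun v hv => congrArg Real.negMulLog (h1 v hv), Finset.sum_const,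
    nsmul_eq_mul, Real.negMulLog, Real.log_inv]
  linear_combination (Real.log d) * h2

section Lin

variable {Q : Type} [DecidableEq Q]

omit [DecidableEq Q] in
lemma lin_entropy (s : Scheme Q) (K : Type) [Field K] [Finite K] (hs : s.IsLinear K) :
    ∃ (W : Type) (_ : AddCommGroup W) (_ : Module K W) (_ : FiniteDimensional K W)
      (U : Q → Submodule K W) (c : ℝ), 0 < c ∧
      ∀ X : Finset Q, s.H X = ((finrank K W : ℝ) - finrank K (↥(⨅ i ∈ X, U i))) * c := by
  classical
  obtain ⟨i1, i2, i3, i4, hl, hp⟩ := hs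
  let _ := s.finE
  have hK : (1 : ℝ) < Nat.card K := by exact_mod_cast Finite.one_lt_card
  refine ⟨s.E, i1, i2, Module.Finite.of_finite, fun i => LinearMap.ker ((hl i).mk' _),
    Real.log (Nat.card K), Real.log_pos hK, fun X => ?_⟩
  set Z : Submodule K s.E := ⨅ i ∈ X, LinearMap.ker ((hl i).mk' _) with hZ
  have hle : finrank K Z ≤ finrank K s.E := Submodule.finrank_le Z
  rw [← Nat.cast_sub hle, ← Real.log_pow]
  refine entropy_uniform s.p _ hp s.total _ (by positivity) fun x => ?_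
  have hmem : ∀ y, y ∈ Z ↔ ∀ i ∈ X, s.sh i y = 0 := by
    intro y
    simp [hZ, Submodule.mem_iInf]
  have h1 : Nat.card {y // (fun i : X => s.sh i y) = fun i : X => s.sh i x} = Nat.card Z := by
    refine Nat.card_congr ((Equiv.subRight x).subtypeEquiv fun y => ?_)
    rw [Equiv.subRight_apply, hmem, funext_iff]
    simp only [(hl _).map_sub, sub_eq_zero, Subtype.forall]
  rw [h1, ← Nat.card_eq_fintype_card, Module.natCard_eq_pow_finrank (K := K) (V := Z),
    Module.natCard_eq_pow_finrank (K := K) (V := s.E)]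
  push_cast
  rw [← pow_add, Nat.add_sub_cancel' hle]

lemma poly_of_lin {K W : Type} [Field K] [AddCommGroup W] [Module K W] [FiniteDimensional K W]
    (U : Q → Submodule K W) (h : Finset Q → ℝ) (c : ℝ) (hc : 0 ≤ c)
    (hh : ∀ X : Finset Q, h X = ((finrank K W : ℝ) - finrank K (↥(⨅ i ∈ X, U i))) * c)
    (h1 : ∀ e, h {e} ≤ 1) : Poly h ∧ h ∅ = 0 := by
  have hins : ∀ (X : Finset Q) (e : Q), (⨅ i ∈ insert e X, U i) = U e ⊓ ⨅ i ∈ X, U i :=
    fun X e => Finset.iInf_insert e X U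
  have hdim : ∀ (X Y : Finset Q) (e : Q), X ⊆ Y →
      h (insert e Y) - h Y ≤ h (insert e X) - h X := by
    intro X Y e hXY
    have hle : (⨅ i ∈ Y, U i) ≤ ⨅ i ∈ X, U i := biInf_mono fun i hi => hXY hi
    have e1 := Submodule.finrank_sup_add_finrank_inf_eq (U e ⊓ ⨅ i ∈ X, U i) (⨅ i ∈ Y, U i)
    have e2 : (U e ⊓ ⨅ i ∈ X, U i) ⊓ (⨅ i ∈ Y, U i) = U e ⊓ ⨅ i ∈ Y, U i := by
      rw [inf_assoc, inf_eq_right.2 hle]
    have e3 : finrank K (↥((U e ⊓ ⨅ i ∈ X, U i) ⊔ ⨅ i ∈ Y, U i)) ≤ finrank K (↥(⨅ i ∈ X, U i)) :=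
      Submodule.finrank_mono (sup_le inf_le_right hle)
    rw [e2] at e1
    have e4 : (finrank K (↥(U e ⊓ ⨅ i ∈ X, U i)) : ℝ) + finrank K (↥(⨅ i ∈ Y, U i))
        ≤ finrank K (↥(⨅ i ∈ X, U i)) + finrank K (↥(U e ⊓ ⨅ i ∈ Y, U i)) := by
      exact_mod_cast (by omega : finrank K (↥(U e ⊓ ⨅ i ∈ X, U i)) + finrank K (↥(⨅ i ∈ Y, U i))
        ≤ finrank K (↥(⨅ i ∈ X, U i)) + finrank K (↥(U e ⊓ ⨅ i ∈ Y, U i)))
    rw [hh, hh, hh, hh, hins, hins]
    nlinarith
  have h0 : h ∅ = 0 := by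
    have : (⨅ i ∈ (∅ : Finset Q), U i) = ⊤ := by simp
    rw [hh, this, finrank_top, sub_self, zero_mul]
  refine ⟨⟨fun X e => ?_, fun X e => ?_, fun X Y e hXY _ => hdim X Y e hXY⟩, h0⟩
  · have e1 : (finrank K (↥(U e ⊓ ⨅ i ∈ X, U i)) : ℝ) ≤ finrank K (↥(⨅ i ∈ X, U i)) := by
      exact_mod_cast Submodule.finrank_mono inf_le_right
    rw [hh, hh, hins]
    nlinarith
  · have e1 := hdim ∅ X e (Finset.empty_subset _)
    have e2 := h1 e
    rw [h0, insert_empty_eq] at e1
    linarith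

lemma poly_of_matroid (M : Matroid Q) :
    Poly (fun X : Finset Q => ((M.eRk (X : Set Q)).toNat : ℝ)) := by
  have hfin : ∀ X : Finset Q, M.eRk (X : Set Q) = ((M.eRk (X : Set Q)).toNat : ℕ∞) := by
    intro X
    refine (ENat.natCast_toNat ?_).symm
    exact ((M.eRk_le_encard _).trans_lt X.finite_toSet.encard_lt_top).ne
  refine ⟨fun X e => ?_, fun X e => ?_, fun X Y e hXY he => ?_⟩
  · have := M.eRk_mono (Finset.coe_subset.2 (Finset.subset_insert e X))
    rw [hfin, hfin (insert e X)] at this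
    exact_mod_cast this
  · have := M.eRk_insert_le_add_one e (X : Set Q)
    rw [← Finset.coe_insert, hfin, hfin X] at this
    exact_mod_cast this
  · have := M.eRk_inter_add_eRk_union_le ((insert e X : Finset Q) : Set Q) (Y : Set Q)
    have e1 : insert e X ∩ Y = X := by
      rw [Finset.insert_inter_of_notMem he, Finset.inter_eq_left.2 hXY]
    have e2 : insert e X ∪ Y = insert e Y := by
      rw [Finset.insert_union, Finset.union_eq_right.2 hXY]
    rw [← Finset.coe_inter, ← Finset.coe_union, e1, e2, hfin, hfin (insert e Y),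
      hfin (insert e X), hfin Y] at this
    have e3 : ((M.eRk (X : Set Q)).toNat : ℝ) + (M.eRk ((insert e Y : Finset Q) : Set Q)).toNat
        ≤ (M.eRk ((insert e X : Finset Q) : Set Q)).toNat + (M.eRk (Y : Set Q)).toNat := by
      exact_mod_cast this
    linarith

lemma linLike_of_rank' {Ω A : Type} [Fintype Ω] [Fintype A] [Nonempty Ω] {val : Q → Ω → A}
    {ρ : Finset Q → ℕ} (hd : 1 < Fintype.card A)
    (hρ : ∀ (X : Finset Q) (ω : Ω), (fib val X ω).card * Fintype.card A ^ ρ X = Fintype.card Ω)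
    (h1 : ∀ e, ρ {e} ≤ 1)
    {K W : Type} [Field K] [AddCommGroup W] [Module K W] [FiniteDimensional K W]
    {k : ℝ} (hk : 0 < k) (U : Q → Submodule K W)
    (hU : ∀ X : Finset Q, (finrank K W : ℝ) - finrank K (↥(⨅ i ∈ X, U i)) = ρ X * k) :
    LinLike val U := by
  have hins : ∀ (X : Finset Q) (e : Q), (⨅ i ∈ insert e X, U i) = U e ⊓ ⨅ i ∈ X, U i :=
    fun X e => Finset.iInf_insert e X U
  constructor
  · intro X e h
    have h2 := rk_eq_of_det hd hρ h
    have h3 := hU (insert e X)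
    have h4 := hU X
    rw [h2, hins] at h3
    have h7 : U e ⊓ (⨅ i ∈ X, U i) = ⨅ i ∈ X, U i :=
      Submodule.eq_of_le_of_finrank_eq inf_le_right (by
        have : (finrank K (↥(U e ⊓ ⨅ i ∈ X, U i)) : ℝ) = finrank K (↥(⨅ i ∈ X, U i)) := by
          linarith
        exact_mod_cast this)
    rw [← h7]
    exact inf_le_left
  · intro X e h
    have h2 := rk_lt_of_not_det hd hρ h
    have h3 := hU (insert e X)
    have h4 := hU X
    have h8 := hU {e}
    rw [hins] at h3
    have h9 : (⨅ i ∈ ({e} : Finset Q), U i) = U e := by simp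
    rw [h9] at h8
    have h10 : ((ρ X : ℝ) + 1) * k ≤ ρ (insert e X) * k :=
      mul_le_mul_of_nonneg_right (by exact_mod_cast h2) hk.le
    have h11 : (ρ {e} : ℝ) * k ≤ 1 * k :=
      mul_le_mul_of_nonneg_right (by exact_mod_cast h1 e) hk.le
    have h12 : (finrank K (↥(U e ⊔ ⨅ i ∈ X, U i)) : ℝ) + finrank K (↥(U e ⊓ ⨅ i ∈ X, U i))
        = finrank K (U e) + finrank K (↥(⨅ i ∈ X, U i)) := by
      exact_mod_cast Submodule.finrank_sup_add_finrank_inf_eq (U e) (⨅ i ∈ X, U i)
    constructor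
    · rw [sup_comm]
      apply Submodule.eq_top_of_finrank_eq
      refine le_antisymm (Submodule.finrank_le _) ?_
      have : (finrank K W : ℝ) ≤ finrank K (↥(U e ⊔ ⨅ i ∈ X, U i)) := by linarith
      exact_mod_cast this
    · intro hcon
      rw [inf_eq_right.2 hcon] at h3
      linarith

end Lin

end Pool.Agent.Lib.MP_e850aa_co
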