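import Pool.Agent.Lib.MP_e850aa_co.Model2
import Pool.Agent.Lib.MP_e850aa_co.Final

set_option autoImplicit false
set_option linter.unusedSectionVars false

namespace Pool.Agent.Lib.MP_e850aa_co

open Finset Module

section NonLin

variable {C : Type} [DecidableEq C] [Fintype C]

open Classical in
/-- The points at infinity with a given property. -/
noncomputable def gs (P : Finset (Ix C) → Prop) : Finset (Qx C) :=
  Finset.univ.filter fun a => ∃ g, a = Sum.inl g ∧ P g

lemma forall_gs {P : Finset (Ix C) → Prop} {R : Qx C → Prop} :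
    (∀ a ∈ gs P, R a) ↔ ∀ g, P g → R (Sum.inl g) := by
  simp only [gs, Finset.mem_filter, Finset.mem_univ, true_and]
  constructor
  · intro h g hg
    exact h _ ⟨g, rfl, hg⟩
  · rintro h a ⟨g, rfl, hg⟩
    exact h g hg

/-- The support of a cell vector. -/
def supp (i : Option (Fin 3)) (j : Option C) : Finset (Ix C) :=
  Finset.univ.filter fun q => (i = none ∨ i = some q.1) ∧ (j = none ∨ j = some q.2)

lemma nv_eq_vec {K : Type} [Field K] (i : Option (Fin 3)) (j : Option C) :
    (nv i j : Ix C → K) = vec (supp i j) := by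
  funext q
  rcases i with _ | i <;> rcases j with _ | j <;> simp [nv, vec, supp, eq_comm, ite_and]
  split_ifs <;> rfl

lemma vec_dot {K : Type} [Field K] (g : Finset (Ix C)) (x : Ix C → K) :
    vec g ⬝ᵥ x = ∑ q ∈ g, x q := by
  simp [vec, dotProduct]

variable {F : Type} [Field F] [CharP F 2]

lemma perp_mult [Nonempty C] (i : Option (Fin 3)) (j : Option C) (x : Ix C → F)
    (h : ∀ g, (vec g : Ix C → F) ⬝ᵥ nv i j = 0 → vec g ⬝ᵥ x = 0) : ∃ s : F, x = s • nv i j := by
  have ht : (2 : F) = 0 := CharTwo.two_eq_zero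
  obtain ⟨q0, h0⟩ := nv_exists_one (F := F) i j
  refine ⟨x q0, funext fun q => ?_⟩
  rw [Pi.smul_apply, smul_eq_mul]
  rcases nv_zero_or_one (F := F) i j q with hq | hq
  · have := h {q} (by rw [vec_single_dot, hq])
    rw [vec_single_dot] at this
    rw [this, hq, mul_zero]
  · by_cases hqq : q = q0
    · rw [hq, hqq, mul_one]
    · have := h {q, q0} (by rw [vec_dot, Finset.sum_pair hqq, hq, h0]; linear_combination ht)
      rw [vec_dot, Finset.sum_pair hqq] at this
      rw [hq]
      linear_combination this - x q0 * ht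

variable {κ : ℕ} {L : Vx C → Ix C → F} {Bc : ZMod κ → Vx C → (Ix C → F) → F}

lemma agree_gs {P : Finset (Ix C) → Prop} {ω ω' : ZMod κ → (Ix C → F) × F}
    (h : ∀ a ∈ gs P, valx L Bc a ω' = valx L Bc a ω) (c : ZMod κ) (g : Finset (Ix C))
    (hg : P g) : vec g ⬝ᵥ ((ω' c).1 - (ω c).1) = 0 := by
  have := congrFun (forall_gs.1 h g hg) c
  rw [dotProduct_sub, sub_eq_zero]
  exact this

lemma det_gs (P : Finset (Ix C) → Prop) (g : Finset (Ix C))
    (h : ∀ x : Ix C → F, (∀ g', P g' → vec g' ⬝ᵥ x = 0) → vec g ⬝ᵥ x = 0) :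
    Det (valx L Bc) (gs P) (Sum.inl g) := by
  intro ω ω' hω
  funext c
  have := h _ (agree_gs hω c)
  rw [dotProduct_sub, sub_eq_zero] at this
  exact this

lemma not_det_gs (P : Finset (Ix C) → Prop) (g : Finset (Ix C)) (x : Ix C → F)
    (hx : ∀ g', P g' → vec g' ⬝ᵥ x = 0) (hg : vec g ⬝ᵥ x ≠ 0) :
    ¬ Det (valx L Bc) (gs P) (Sum.inl g) := by
  intro h
  have := h (fun _ => (0, 0)) (fun _ => (x, 0)) (forall_gs.2 fun g' hg' => by
    funext c
    simp [valx, hx g' hg'])
  have h1 := congrFun this 0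
  simp only [valx, dotProduct_zero] at h1
  exact hg h1

lemma not_det_vx (P : Finset (Ix C) → Prop) (u : Vx C) :
    ¬ Det (valx L Bc) (gs P) (Sum.inr u) := by
  intro h
  have := h (fun _ => (0, 0)) (fun _ => (0, 1)) (forall_gs.2 fun g' _ => by
    funext c
    simp [valx])
  have h1 := congrFun this 0
  simp [valx] at h1

lemma det_all (u : Vx C) (e : Qx C) :
    Det (valx L Bc) (insert (Sum.inr u) (gs fun _ => True)) e := by
  intro ω ω' hω
  have h1 : ∀ c, (ω' c).1 = (ω c).1 := by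
    intro c
    funext q
    have := agree_gs (fun a ha => hω a (Finset.mem_insert_of_mem ha)) c {q} trivial
    rwa [vec_single_dot, Pi.sub_apply, sub_eq_zero] at this
  have h2 : ∀ c, (ω' c).2 = (ω c).2 := by
    intro c
    have := congrFun (hω _ (Finset.mem_insert_self _ _)) c
    simp only [valx, h1] at this
    linear_combination this
  have : ω' = ω := funext fun c => Prod.ext (h1 c) (h2 c)
  rw [this]

lemma det_cell [Nonempty C] (hL : ∀ u, L u ∈ (Yv u : Submodule F (Ix C → F)))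
    (hB : ∀ c, Piece (Bc c)) (i : Option (Fin 3)) (j : Option C) (hij : ¬ (i = none ∧ j = none)) :
    Det (valx L Bc) (insert (Sum.inr (Sum.inl i))
      (gs fun g => (vec g : Ix C → F) ⬝ᵥ nv i j = 0)) (Sum.inr (Sum.inr j)) := by
  have ht : (2 : F) = 0 := CharTwo.two_eq_zero
  intro ω ω' hω
  have h1 : ∀ c, ∃ s : F, (ω' c).1 - (ω c).1 = s • nv i j := fun c =>
    perp_mult i j _ (agree_gs (fun a ha => hω a (Finset.mem_insert_of_mem ha)) c)
  choose s hs using h1
  have hs' : ∀ c, (ω' c).1 = (ω c).1 + s c • nv i j := fun c => by rw [← hs, add_sub_cancel]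
  funext c
  have h2 := congrFun (hω _ (Finset.mem_insert_self _ _)) c
  have e3 := hB c i j (ω c).1 (s c)
  rw [if_neg hij] at e3
  simp only [valx, hs', dotProduct_add, dotProduct_smul, hL _ i j (Or.inl rfl),
    hL _ i j (Or.inr rfl), smul_zero, add_zero] at h2 ⊢
  linear_combination e3 - h2 + ((ω' c).2 - (ω c).2) * ht

lemma det_star [Nonempty C] (hL : ∀ u, L u ∈ (Yv u : Submodule F (Ix C → F)))
    (hB : ∀ c, Piece (Bc c)) (g : Finset (Ix C)) :
    Det (valx L Bc) (insert (Sum.inr (Sum.inl none)) (insert (Sum.inr (Sum.inr none))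
      (gs fun g => (vec g : Ix C → F) ⬝ᵥ nv none none = 0))) (Sum.inl g) := by
  have ht : (2 : F) = 0 := CharTwo.two_eq_zero
  intro ω ω' hω
  have h1 : ∀ c, ∃ s : F, (ω' c).1 - (ω c).1 = s • nv none none := fun c =>
    perp_mult none none _ (agree_gs
      (fun a ha => hω a (Finset.mem_insert_of_mem (Finset.mem_insert_of_mem ha))) c)
  choose s hs using h1
  have hs' : ∀ c, (ω' c).1 = (ω c).1 + s c • nv none none := fun c => by
    rw [← hs, add_sub_cancel]
  funext c
  have h2 := congrFun (hω _ (Finset.mem_insert_self _ _)) c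
  have h3 := congrFun (hω _ (Finset.mem_insert_of_mem (Finset.mem_insert_self _ _))) c
  have e3 := hB c none none (ω c).1 (s c)
  simp only [and_self, if_true] at e3
  simp only [valx, hs', dotProduct_add, dotProduct_smul, hL _ none none (Or.inl rfl),
    hL _ none none (Or.inr rfl), smul_zero, add_zero] at h2 h3
  have h4 : s c ^ 2 = 0 := by
    linear_combination h2 + h3 - e3 - ((ω' c).2 - (ω c).2) * ht
  have h5 : s c = 0 := pow_eq_zero_iff (by norm_num) |>.1 h4
  simp only [valx, hs', h5, zero_smul, add_zero]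

lemma sum_sg_av {K α : Type} [Field K] [DecidableEq α] [Fintype α] (k : α) :
    ∑ i : Option α, (Option.elim i (-1) fun _ => (1 : K)) * av i k = 0 := by
  simp [Fintype.sum_option]

theorem not_linLike [Nonempty C] (hL : ∀ u, L u ∈ (Yv u : Submodule F (Ix C → F)))
    (hB : ∀ c, Piece (Bc c)) (K W : Type) [Field K] [AddCommGroup W] [Module K W]
    (U : Qx C → Submodule K W) : ¬ LinLike (valx L Bc) U := by
  rintro ⟨hD, hN⟩
  have D1 : ∀ X e, Det (valx L Bc) X e → ∀ w, (∀ a ∈ X, w ∈ U a) → w ∈ U e := by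
    intro X e h w hw
    exact hD X e h (by simpa [Submodule.mem_iInf] using hw)
  have D2 : ∀ X e, ¬ Det (valx L Bc) X e → ∀ t, ∃ z h, (∀ a ∈ X, z ∈ U a) ∧ h ∈ U e ∧
      z + h = t := by
    intro X e h t
    have : t ∈ (⨅ i ∈ X, U i) ⊔ U e := by rw [(hN X e h).1]; trivial
    obtain ⟨z, hz, h', hh, rfl⟩ := Submodule.mem_sup.1 this
    exact ⟨z, h', by simpa [Submodule.mem_iInf] using hz, hh, rfl⟩
  have D3 : ∀ X e, ¬ Det (valx L Bc) X e → ∃ t, (∀ a ∈ X, t ∈ U a) ∧ t ∉ U e := by
    intro X e h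
    obtain ⟨t, ht, ht'⟩ := SetLike.not_le_iff_exists.1 (hN X e h).2
    exact ⟨t, by simpa [Submodule.mem_iInf] using ht, ht'⟩
  obtain ⟨q0, hq0⟩ := nv_exists_one (F := F) (none : Option (Fin 3)) (none : Option C)
  obtain ⟨t0, ht0, ht0'⟩ := D3 _ _ (not_det_gs (L := L) (Bc := Bc)
    (fun g => (vec g : Ix C → F) ⬝ᵥ nv none none = 0) {q0} (nv none none) (fun _ h => h)
    (by rw [vec_single_dot, hq0]; exact one_ne_zero))
  rw [forall_gs] at ht0
  have hs : ∀ q : Ix C, ∃ s h, (∀ a ∈ gs (fun g => ∃ q', q' ≠ q ∧ g = {q'}), s ∈ U a) ∧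
      h ∈ U (Sum.inl {q}) ∧ s + h = t0 := by
    intro q
    refine D2 _ _ (not_det_gs _ {q} (Pi.single q 1) ?_ ?_) t0
    · rintro g' ⟨q', hq', rfl⟩
      rw [vec_single_dot, Pi.single_eq_of_ne hq']
    · rw [vec_single_dot]
      simp
  choose s h hs1 hs2 hs3 using hs
  have hsg : ∀ q g, q ∉ g → s q ∈ U (Sum.inl g) := by
    intro q g hq
    refine D1 _ _ (det_gs _ g fun x hx => ?_) _ (hs1 q)
    rw [vec_dot]
    refine Finset.sum_eq_zero fun q' hq' => ?_
    rw [← vec_single_dot q' x]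
    exact hx {q'} ⟨q', by rintro rfl; exact hq hq', rfl⟩
  have hZ : ∀ g, t0 - ∑ q, s q ∈ U (Sum.inl g) := by
    intro g
    refine D1 _ _ (det_gs (fun g => ∃ q, g = {q}) g fun x hx => ?_) _ (forall_gs.2 ?_)
    · rw [vec_dot]
      refine Finset.sum_eq_zero fun q' _ => ?_
      rw [← vec_single_dot q' x]
      exact hx {q'} ⟨q', rfl⟩
    · rintro _ ⟨q, rfl⟩
      rw [← Finset.add_sum_erase _ _ (Finset.mem_univ q), ← hs3 q, add_sub_add_left_eq_sub]
      refine Submodule.sub_mem _ (hs2 q) (Submodule.sum_mem _ fun q' hq' => hsg q' _ ?_)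
      rw [Finset.mem_singleton]
      exact Finset.ne_of_mem_erase hq'
  have hT : ∀ g, (vec g : Ix C → F) ⬝ᵥ nv none none = 0 → ∑ q, s q ∈ U (Sum.inl g) := by
    intro g hg
    have := Submodule.sub_mem _ (ht0 g hg) (hZ g)
    rwa [sub_sub_cancel] at this
  have hT' : ∑ q, s q ∉ U (Sum.inl {q0}) := by
    intro hcon
    have := Submodule.add_mem _ (hZ {q0}) hcon
    rw [sub_add_cancel] at this
    exact ht0' this
  have block : ∀ D g : Finset (Ix C), (vec g : Ix C → F) ⬝ᵥ vec D = 0 →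
      ∑ q ∈ D, s q ∈ U (Sum.inl g) := by
    intro D g hg
    refine D1 _ _ (det_gs (fun g' => g' = g ∩ D ∨ g' = g \ D) g fun x hx => ?_) _
      (forall_gs.2 ?_)
    · have e1 := hx _ (Or.inl rfl)
      have e2 := hx _ (Or.inr rfl)
      rw [vec_dot] at e1 e2 ⊢
      rw [← Finset.sum_inter_add_sum_sdiff g D, e1, e2, add_zero]
    · rintro _ (rfl | rfl)
      · have e1 : ∑ q, s q ∈ U (Sum.inl (g ∩ D)) := by
          apply hT
          rw [vec_dot] at hg ⊢
          simpa [vec, nv] using hg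
        have e2 : ∑ q ∈ Dᶜ, s q ∈ U (Sum.inl (g ∩ D)) :=
          Submodule.sum_mem _ fun q hq => hsg q _ fun hq' =>
            (Finset.mem_compl.1 hq) (Finset.mem_inter.1 hq').2
        have := Submodule.sub_mem _ e1 e2
        rwa [← Finset.sum_add_sum_compl D, add_sub_cancel_right] at this
      · exact Submodule.sum_mem _ fun q hq => hsg q _ fun hq' => (Finset.mem_sdiff.1 hq').2 hq
  let sg : {α : Type} → Option α → K := fun i => Option.elim i (-1) fun _ => (1 : K)
  let tt : Option (Fin 3) → Option C → W := fun i j =>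
    ∑ q : Ix C, ((sg i * av i q.1) * (sg j * av j q.2)) • s q
  have htt : ∀ i j g, (vec g : Ix C → F) ⬝ᵥ nv i j = 0 → tt i j ∈ U (Sum.inl g) := by
    intro i j g hg
    rw [nv_eq_vec] at hg
    have e1 : tt i j = (sg i * sg j) • ∑ q ∈ supp i j, s q := by
      have e2 : ∑ q ∈ supp i j, s q = ∑ q, (nv i j q : K) • s q := by
        rw [nv_eq_vec]
        simp [vec]
      rw [e2, Finset.smul_sum]
      refine Finset.sum_congr rfl fun q _ => ?_
      rw [smul_smul, nv]
      congr 1
      ring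
    rw [e1]
    exact Submodule.smul_mem _ _ (block _ g hg)
  have hrow : ∀ i, ∑ j, tt i j = 0 := by
    intro i
    rw [Finset.sum_comm]
    refine Finset.sum_eq_zero fun q _ => ?_
    rw [← Finset.sum_smul, ← Finset.mul_sum, sum_sg_av, mul_zero, zero_smul]
  have hcol : ∀ j, ∑ i, tt i j = 0 := by
    intro j
    rw [Finset.sum_comm]
    refine Finset.sum_eq_zero fun q _ => ?_
    rw [← Finset.sum_smul, ← Finset.sum_mul, sum_sg_av, zero_mul, zero_smul]
  have hzh : ∀ i j, ∃ z h, (∀ a ∈ gs (fun _ => True), z ∈ U a) ∧ h ∈ U (Sum.inr (Sum.inl i)) ∧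
      z + h = tt i j := fun i j => D2 _ _ (not_det_vx _ _) _
  choose z y hz hy hzy using hzh
  have hz' : ∀ i j g, z i j ∈ U (Sum.inl g) := fun i j g => forall_gs.1 (hz i j) g trivial
  have hyg : ∀ i j g, (vec g : Ix C → F) ⬝ᵥ nv i j = 0 → y i j ∈ U (Sum.inl g) := by
    intro i j g hg
    have := Submodule.sub_mem _ (htt i j g hg) (hz' i j g)
    rwa [← hzy, add_sub_cancel_left] at this
  have hyc : ∀ i j, ¬ (i = none ∧ j = none) → y i j ∈ U (Sum.inr (Sum.inr j)) := by
    intro i j hij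
    refine D1 _ _ (det_cell hL hB i j hij) _ ?_
    rw [Finset.forall_mem_insert]
    exact ⟨hy i j, forall_gs.2 (hyg i j)⟩
  have r1 : ∀ i, ∑ j, y i j ∈ U (Sum.inr (Sum.inr none)) := by
    intro i
    refine D1 _ _ (det_all (Sum.inl i) _) _ ?_
    rw [Finset.forall_mem_insert]
    refine ⟨Submodule.sum_mem _ fun j _ => hy i j, forall_gs.2 fun g _ => ?_⟩
    have e1 : ∑ j, y i j = -∑ j, z i j := by
      rw [eq_neg_iff_add_eq_zero, add_comm, ← Finset.sum_add_distrib]
      simp only [hzy, hrow]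
    rw [e1]
    exact Submodule.neg_mem _ (Submodule.sum_mem _ fun j _ => hz' i j g)
  have r2 : ∀ l : C, ∑ i, y i (some l) ∈ U (Sum.inr (Sum.inr none)) := by
    intro l
    refine D1 _ _ (det_all (Sum.inr (some l)) _) _ ?_
    rw [Finset.forall_mem_insert]
    refine ⟨Submodule.sum_mem _ fun i _ => hyc i _ (by simp), forall_gs.2 fun g _ => ?_⟩
    have e1 : ∑ i, y i (some l) = -∑ i, z i (some l) := by
      rw [eq_neg_iff_add_eq_zero, add_comm, ← Finset.sum_add_distrib]
      simp only [hzy, hcol]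
    rw [e1]
    exact Submodule.neg_mem _ (Submodule.sum_mem _ fun i _ => hz' i _ g)
  have r3 : y none none ∈ U (Sum.inr (Sum.inr none)) := by
    have e1 : ∑ i, ∑ j, y i j ∈ U (Sum.inr (Sum.inr none)) := Submodule.sum_mem _ fun i _ => r1 i
    rw [Finset.sum_comm, Fintype.sum_option, Fintype.sum_option] at e1
    have e2 : ∑ l : C, ∑ i, y i (some l) ∈ U (Sum.inr (Sum.inr none)) :=
      Submodule.sum_mem _ fun l _ => r2 l
    have e3 : ∑ k : Fin 3, y (some k) none ∈ U (Sum.inr (Sum.inr none)) :=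
      Submodule.sum_mem _ fun k _ => hyc _ _ (by simp)
    have := Submodule.sub_mem _ (Submodule.sub_mem _ e1 e2) e3
    rwa [add_sub_cancel_right, add_sub_cancel_right] at this
  have r4 : y none none ∈ U (Sum.inl {q0}) := by
    refine D1 _ _ (det_star hL hB {q0}) _ ?_
    rw [Finset.forall_mem_insert, Finset.forall_mem_insert]
    exact ⟨hy _ _, r3, forall_gs.2 (hyg none none)⟩
  apply hT'
  have := Submodule.add_mem _ (hz' none none {q0}) r4
  rw [hzy] at this
  simpa [tt, sg] using this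

end NonLin

end Pool.Agent.Lib.MP_e850aa_co
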