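import Pool.Agent.Lib.MP_e850aa_co.Ent
import Pool.Agent.Lib.MP_e850aa_co.NonLin

set_option autoImplicit false

namespace Pool.Agent.Lib.MP_e850aa_co

open Finset Module

section Fin2

variable {Q Ω A : Type} [DecidableEq Q] [Fintype Q] [Fintype Ω] [Fintype A]

omit [DecidableEq Q] [Fintype Q] [Fintype Ω] [Fintype A] in
lemma Det.mono {val : Q → Ω → A} {X Y : Finset Q} {e : Q} (h : Det val X e) (hXY : X ⊆ Y) :
    Det val Y e := fun ω ω' hω => h ω ω' fun i hi => hω i (hXY hi)

omit [DecidableEq Q] in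
lemma ideal_le {s : Scheme Q} {D : Q} (h : s.Ideal D) (hD : 0 < s.H {D}) (e : Q) :
    s.H {e} / s.H {D} ≤ 1 := by
  rw [div_le_one hD]
  by_cases he : e = D
  · rw [he]
  unfold Scheme.Ideal at h
  have h0 : (⨆ i : {i : Q // i ≠ D}, s.H {i.1}) ≠ 0 := by
    intro h'
    rw [h', div_zero] at h
    exact zero_ne_one h
  rw [(div_eq_one_iff_eq h0).1 h]
  exact le_ciSup (f := fun i : {i : Q // i ≠ D} => s.H {i.1}) (Finite.bddAbove_range _) ⟨e, he⟩

theorem final2 [Nonempty Ω] {val : Q → Ω → A} (M : Matroid Q) (hE : M.E = Set.univ)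
    (hd : 1 < Fintype.card A)
    (hρ : ∀ (X : Finset Q) (ω : Ω),
      (fib val X ω).card * Fintype.card A ^ (M.eRk (X : Set Q)).toNat = Fintype.card Ω)
    (D j : Q) (hne : j ≠ D) (hD : ¬ Det val ∅ D) (hj : ¬ Det val ∅ j)
    (conn : ∀ e, e ≠ D → ∃ B, D ∉ B ∧ ¬ Det val B D ∧ Det val (insert e B) D)
    (hlin : ∀ (K W : Type) [Field K] [AddCommGroup W] [Module K W] (U : Q → Submodule K W),
      ¬ LinLike val U) :
    ∃ (G : Set (Finset Q)) (s : Scheme Q),
      ConnectedAccess D G ∧ s.Realizes D G ∧ s.IsMatroidOf D M ∧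
      ∀ (K : Type) [Field K] [Finite K] (t : Scheme Q), t.IsLinear K →
        (∀ D' : Q, ¬ t.IsMatroidOf D' M) ∧ ¬ (t.Realizes D G ∧ t.Ideal D) := by
  classical
  set ρ : Finset Q → ℕ := fun X => (M.eRk (X : Set Q)).toNat with hρdef
  have hfin : ∀ X : Finset Q, M.eRk (X : Set Q) = (ρ X : ℕ∞) := by
    intro X
    refine (ENat.natCast_toNat ?_).symm
    exact ((M.eRk_le_encard _).trans_lt X.finite_toSet.encard_lt_top).ne
  have hP : Poly fun X => (ρ X : ℝ) := poly_of_matroid M
  have h0 : ρ ∅ = 0 := by simp [hρdef]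
  have h1 : ∀ e : Q, ρ {e} ≤ 1 := by
    intro e
    have := hP.inc1 ∅ e
    simp only [insert_empty_eq, h0, Nat.cast_zero, zero_add] at this
    exact_mod_cast this
  have hnd : ∀ X e, ¬ Det val X e → (ρ (insert e X) : ℝ) = ρ X + 1 := by
    intro X e he
    have h2 : ρ X + 1 ≤ ρ (insert e X) := rk_lt_of_not_det (ρ := ρ) hd hρ he
    have h3 : (ρ X : ℝ) + 1 ≤ ρ (insert e X) := by exact_mod_cast h2
    exact le_antisymm (hP.inc1 X e) h3
  have hdd : ∀ X e, Det val X e → (ρ (insert e X) : ℝ) = ρ X := by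
    intro X e he
    rw [rk_eq_of_det (ρ := ρ) hd hρ he]
  have hone : ∀ e : Q, ¬ Det val ∅ e → (ρ {e} : ℝ) = 1 := by
    intro e he
    have := hnd ∅ e he
    simpa [h0] using this
  have hΩ : (0 : ℝ) < Fintype.card Ω := by exact_mod_cast Fintype.card_pos
  let s : Scheme Q :=
    { E := Ω
      finE := inferInstance
      p := fun _ => 1 / (Fintype.card Ω : ℝ)
      nonneg := fun _ => by positivity
      total := by
        rw [Finset.sum_const, Finset.card_univ, nsmul_eq_mul]
        field_simp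
      S := fun i => Set.range (val i)
      finS := fun i => inferInstance
      sh := fun i => Set.rangeFactorization (val i)
      surj := fun i => Set.rangeFactorization_surjective }
  have hA : (0 : ℝ) < Fintype.card A := by exact_mod_cast (by omega : 0 < Fintype.card A)
  have hH : ∀ X : Finset Q, s.H X = ρ X * Real.log (Fintype.card A) := by
    intro X
    rw [← Real.log_pow]
    refine entropy_uniform s.p _ (fun _ _ => rfl) s.total _ (by positivity) fun ω => ?_
    have e1 : Nat.card {y // (fun i : X => s.sh i y) = fun i : X => s.sh i ω}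
        = (fib val X ω).card := by
      rw [← Nat.card_eq_finsetCard]
      refine Nat.card_congr (Equiv.subtypeEquivRight fun y => ?_)
      rw [mem_fib, funext_iff]
      simp only [s, Subtype.forall, Agree, Subtype.ext_iff, Set.rangeFactorization_coe]
    rw [e1]
    exact_mod_cast hρ X ω
  have hlog : 0 < Real.log (Fintype.card A) := Real.log_pos (by exact_mod_cast hd)
  have hHD : s.H {D} = Real.log (Fintype.card A) := by rw [hH, hone D hD, one_mul]
  have part1 : ∀ (K : Type) [Field K] [Finite K] (t : Scheme Q), t.IsLinear K →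
      ∀ D' : Q, ¬ t.IsMatroidOf D' M := by
    intro K _ _ t ht D' ⟨hid, _, hX⟩
    obtain ⟨W, _, _, _, U, c, hc, hU⟩ := lin_entropy t K ht
    have hne0 : t.H {D'} ≠ 0 := by
      intro h'
      unfold Scheme.Ideal at hid
      rw [h', zero_div] at hid
      exact zero_ne_one hid
    have hge : 0 ≤ t.H {D'} := by
      rw [hU]
      refine mul_nonneg (sub_nonneg.2 ?_) hc.le
      exact_mod_cast Submodule.finrank_le _
    have hpos : 0 < t.H {D'} := lt_of_le_of_ne hge hne0.symm
    refine hlin K W U (linLike_of_rank' (ρ := ρ) hd hρ h1 (k := t.H {D'} / c) (by positivity) U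
      fun X => ?_)
    obtain ⟨n, hn, hn'⟩ := hX X
    rw [hfin] at hn
    have hn2 : ρ X = n := by exact_mod_cast hn
    rw [hU X, div_eq_iff hne0] at hn'
    rw [hn2]
    field_simp
    linarith
  refine ⟨{B | D ∉ B ∧ Det val B D}, s, ⟨fun B hB => hB.1, fun e he => ?_⟩,
    ⟨by rw [hHD]; exact hlog, fun B hB => ⟨fun h => ?_, fun h => ?_⟩⟩, ⟨?_, hE, fun X => ?_⟩,
    fun K _ _ t ht => ⟨part1 K t ht, ?_⟩⟩
  · obtain ⟨B, hB, hB1, hB2⟩ := conn e he
    obtain ⟨B', hB', hmin⟩ := exists_minimal_le_of_wellFoundedLT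
      (fun B => B ∈ {B : Finset Q | D ∉ B ∧ Det val B D}) (insert e B)
      ⟨by simp [hB, he.symm], hB2⟩
    refine ⟨B', hmin, ?_⟩
    by_contra h'
    exact hB1 (hmin.1.2.mono ((Finset.subset_insert_iff_of_notMem h').1 hB'))
  · rw [hH, hH, hdd B D h.2, sub_self]
  · rw [hHD, hH, hH, hnd B D fun h' => h ⟨hB, h'⟩]
    ring
  · unfold Scheme.Ideal
    have : Nonempty {i : Q // i ≠ D} := ⟨⟨j, hne⟩⟩
    have e1 : (⨆ i : {i : Q // i ≠ D}, s.H {i.1}) = s.H {D} := by
      refine le_antisymm (ciSup_le fun i => ?_) ?_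
      · rw [hHD, hH]
        have : (ρ {i.1} : ℝ) ≤ 1 := by exact_mod_cast h1 i.1
        nlinarith
      · have := le_ciSup (f := fun i : {i : Q // i ≠ D} => s.H {i.1})
          (Finite.bddAbove_range _) ⟨j, hne⟩
        refine le_trans (le_of_eq ?_) this
        rw [hHD, hH, hone j hj, one_mul]
    rw [e1, div_self (by rw [hHD]; exact hlog.ne')]
  · refine ⟨ρ X, hfin X, ?_⟩
    rw [hHD, hH]
    field_simp
  · rintro ⟨⟨hpos, hR⟩, hid⟩
    obtain ⟨W, _, _, _, U, c, hc, hU⟩ := lin_entropy t K ht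
    obtain ⟨hQ, hQ0⟩ := poly_of_lin U (fun X => t.H X / t.H {D}) (c / t.H {D}) (by positivity)
      (fun X => by rw [hU X]; ring) (ideal_le hid hpos)
    have huniq := port_unique hP hQ (fun X e => by
        by_cases h : Det val X e
        · exact Or.inl (hdd X e h)
        · exact Or.inr (hnd X e h)) D (fun B hB => by
        by_cases h : Det val B D
        · rw [hdd B D h, ← sub_div, (hR B hB).1 ⟨hB, h⟩, sub_self, zero_div]
        · rw [hnd B D h, ← sub_div, (hR B hB).2 fun h' => h h'.2, div_self hpos.ne']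
          ring) (fun e he => by
        obtain ⟨B, hB, hB1, hB2⟩ := conn e he
        refine ⟨B, hB, ?_, hdd _ _ hB2⟩
        rw [hnd B D hB1]
        linarith) (by rw [hQ0, h0, Nat.cast_zero])
    exact part1 K t ht D ⟨hid, hE, fun X => ⟨ρ X, hfin X, huniq X⟩⟩

end Fin2

section Sub

variable {Q Ω A : Type} [DecidableEq Q] {P : Q → Prop} [DecidablePred P] {val : Q → Ω → A}

omit [DecidableEq Q] [DecidablePred P] in
lemma agree_map (X : Finset {a // P a}) (ω ω' : Ω) :
    Agree (fun a : {a // P a} => val a) X ω ω'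
      ↔ Agree val (X.map (Function.Embedding.subtype _)) ω ω' := by
  simp [Agree]

omit [DecidableEq Q] in
lemma det_subtype (hP : ∀ a, ¬ P a → ∀ ω ω', val a ω' = val a ω) (X : Finset Q)
    (e : {a // P a}) :
    Det (fun a : {a // P a} => val a) (X.subtype P) e ↔ Det val X e := by
  have : ∀ ω ω', Agree (fun a : {a // P a} => val a) (X.subtype P) ω ω' ↔ Agree val X ω ω' := by
    intro ω ω'
    constructor
    · intro h i hi
      by_cases hi' : P i
      · exact h ⟨i, hi'⟩ (Finset.mem_subtype.2 hi)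
      · exact hP i hi' ω ω'
    · intro h i hi
      exact h i (Finset.mem_subtype.1 hi)
  simp only [Det, this]

omit [DecidableEq Q] in
lemma linLike_extend (hP : ∀ a, ¬ P a → ∀ ω ω', val a ω' = val a ω)
    {K W : Type} [Field K] [AddCommGroup W] [Module K W] (U : {a // P a} → Submodule K W)
    (h : LinLike (fun a : {a // P a} => val a) U) :
    LinLike val (fun a => if ha : P a then U ⟨a, ha⟩ else ⊤) := by
  have hinf : ∀ X : Finset Q, (⨅ i ∈ X, if ha : P i then U ⟨i, ha⟩ else ⊤)
      = ⨅ i ∈ X.subtype P, U i := by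
    intro X
    refine le_antisymm (le_iInf₂ fun i hi => ?_) (le_iInf₂ fun i hi => ?_)
    · refine (iInf₂_le i.1 (Finset.mem_subtype.1 hi)).trans ?_
      rw [dif_pos i.2]
    · by_cases hi' : P i
      · rw [dif_pos hi']
        exact iInf₂_le (⟨i, hi'⟩ : {a // P a}) (Finset.mem_subtype.2 hi)
      · rw [dif_neg hi']
        exact le_top
  constructor
  · intro X e he
    beta_reduce
    by_cases he' : P e
    · rw [hinf, dif_pos he']
      exact h.1 _ _ ((det_subtype hP X ⟨e, he'⟩).2 he)
    · rw [dif_neg he']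
      exact le_top
  · intro X e he
    have he' : P e := by
      by_contra he'
      exact he fun ω ω' _ => hP e he' ω ω'
    beta_reduce
    rw [hinf, dif_pos he']
    exact h.2 _ _ fun h' => he ((det_subtype hP X ⟨e, he'⟩).1 h')

end Sub

section Conn

variable {F C : Type} [Field F] [CharP F 2] [DecidableEq C] [Fintype C]

lemma rk_singles : rk F (Finset.univ.image fun q : Ix C => ({q} : Finset (Ix C))) = 1 := by
  have : (Kp (Finset.univ.image fun q : Ix C => ({q} : Finset (Ix C))) ∅
      : Submodule F ((Ix C → F) × F)) = LinearMap.range (LinearMap.inr F (Ix C → F) F) := by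
    ext y
    rw [mem_Kp0, LinearMap.range_inr, LinearMap.mem_ker, LinearMap.fst_apply, funext_iff]
    simp only [Finset.forall_mem_image, Finset.mem_univ, true_imp_iff, vec_single_dot,
      Pi.zero_apply]
  rw [rk, this, LinearMap.finrank_range_of_inj LinearMap.inr_injective, finrank_self]

variable {κ : ℕ} {L : Vx C → Ix C → F} {Bc : ZMod κ → Vx C → (Ix C → F) → F}

lemma conn_model [Fintype F] [NeZero κ] [Nontrivial C] (hL : Gen L) (hB : ∀ c, Piece (Bc c))
    (hbrk : Brk L Bc) (e : Qx C) (he : e ≠ Sum.inr (Sum.inl none)) (he0 : e ≠ Sum.inl ∅) :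
    ∃ B : Finset (Qx C), Sum.inr (Sum.inl none) ∉ B ∧
      ¬ Det (valx L Bc) B (Sum.inr (Sum.inl none)) ∧
      Det (valx L Bc) (insert e B) (Sum.inr (Sum.inl none)) := by
  classical
  rcases e with g | u
  swap
  · exact ⟨gs fun _ => True, by simp [gs], not_det_vx _ _, det_all u _⟩
  have hg : g.Nonempty := Finset.nonempty_iff_ne_empty.2 fun h => he0 (by rw [h])
  obtain ⟨q, hq⟩ := hg
  let T : Finset (Finset (Ix C)) := (Finset.univ.image fun q : Ix C => ({q} : Finset (Ix C))).erase {q}
  have hT : T.card + 1 = Fintype.card (Ix C) := by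
    rw [Finset.card_erase_add_one (by simp),
      Finset.card_image_of_injective _ Finset.singleton_injective, Finset.card_univ]
  have hrk : rk F T + T.card = Fintype.card (Ix C) + 1 := by
    refine rk_down (Finset.erase_subset _ _) ?_
    rw [rk_singles, Finset.card_image_of_injective _ Finset.singleton_injective, Finset.card_univ,
      add_comm]
  let B : Finset (Qx C) := T.disjSum {Sum.inl (some 0)}
  have hDB : (Sum.inr (Sum.inl none) : Qx C) ∉ B := by simp [B]
  have hBc : B.card = Fintype.card (Ix C) := by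
    rw [Finset.card_disjSum, Finset.card_singleton, hT]
  have hI : Indx F (insert (Sum.inr (Sum.inl none)) B) := by
    refine ⟨?_, ?_, ?_⟩
    · rw [Finset.toLeft_insert_inr, Finset.toLeft_disjSum]
      exact hrk
    · rw [Finset.card_insert_of_notMem hDB, hBc]
    · rintro ⟨i, j, -, -, h3, -⟩
      rw [Finset.toRight_insert_inr, Finset.toRight_disjSum] at h3
      have : (Sum.inr j : Vx C) ∈ ({Sum.inl i, Sum.inr j} : Finset (Vx C)) := by simp
      rw [← h3] at this
      simp at this
  have hsys := sys_model hL hB hbrk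
  refine ⟨B, hDB, fun h => ?_, fun ω ω' hω => ?_⟩
  · have e1 := hsys.fib_card hI (fun _ => (0, 0))
    have e2 := hsys.fib_card (indx_subset hI (Finset.subset_insert _ _)) (fun _ => (0, 0))
    have e3 : fib (valx L Bc) (insert (Sum.inr (Sum.inl none)) B) (fun _ => (0, 0))
        = fib (valx L Bc) B (fun _ => (0, 0)) := by
      refine Finset.Subset.antisymm (fib_anti (Finset.subset_insert _ _) _) fun ω' h' => ?_
      rw [mem_fib] at h' ⊢
      intro i hi
      rcases Finset.mem_insert.1 hi with rfl | hi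
      · exact h _ _ h'
      · exact h' i hi
    rw [e3, ← e2, Finset.card_insert_of_notMem hDB] at e1
    have e4 := Nat.eq_of_mul_eq_mul_left (fib_card_pos _ _ _) e1
    have e5 := Nat.pow_right_injective (Fintype.one_lt_card (α := ZMod κ → F)) e4
    omega
  · refine det_all (Sum.inl (some 0)) _ ω ω' ?_
    rw [Agree, Finset.forall_mem_insert]
    refine ⟨hω _ (by simp [B]), forall_gs.2 fun g' _ => ?_⟩
    refine det_gs (fun g'' => g'' = g ∨ g'' ∈ T) g' (fun x hx => ?_) ω ω' (forall_gs.2 ?_)
    · have e1 : ∀ q', q' ≠ q → x q' = 0 := by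
        intro q' hq'
        rw [← vec_single_dot q' x]
        exact hx _ (Or.inr (by simp [T, hq']))
      have e2 := hx g (Or.inl rfl)
      rw [vec_dot, Finset.sum_eq_single_of_mem q hq fun q' _ h' => e1 q' h'] at e2
      rw [vec_dot]
      refine Finset.sum_eq_zero fun q' _ => ?_
      by_cases h' : q' = q
      · rw [h', e2]
      · exact e1 q' h'
    · rintro g'' (rfl | h')
      · exact hω _ (Finset.mem_insert_self _ _)
      · exact hω _ (Finset.mem_insert_of_mem (Finset.inl_mem_disjSum.2 h'))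

end Conn

theorem main_conn : ∃ (Q : Type) (_ : Fintype Q) (_ : DecidableEq Q) (D : Q) (M : Matroid Q)
    (G : Set (Finset Q)) (s : Scheme Q),
      ConnectedAccess D G ∧ s.Realizes D G ∧ s.IsMatroidOf D M ∧
      ∀ (K : Type) [Field K] [Finite K] (t : Scheme Q), t.IsLinear K →
        (∀ D' : Q, ¬ t.IsMatroidOf D' M) ∧ ¬ (t.Realizes D G ∧ t.Ideal D) := by
  classical
  obtain ⟨C, _, _, hC⟩ : ∃ (C : Type) (_ : DecidableEq C) (_ : Fintype C), 23 ≤ Fintype.card C :=
    ⟨Fin 23, inferInstance, inferInstance, by simp⟩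
  have : Nontrivial C := Fintype.one_lt_card_iff_nontrivial.1 (by omega)
  obtain ⟨F, _, _, _, hF⟩ : ∃ (F : Type) (_ : Field F) (_ : CharP F 2) (_ : Fintype F),
      Fintype.card (Finset (Vx C) × (Finset (Finset (Ix C)) × Finset (Vx C))) + 1
        < Fintype.card F := by
    generalize Fintype.card (Finset (Vx C) × (Finset (Finset (Ix C)) × Finset (Vx C))) = m
    have : Fact (Nat.Prime 2) := ⟨Nat.prime_two⟩
    let _ : Fintype (GaloisField 2 (m + 1)) := Fintype.ofFinite _
    refine ⟨GaloisField 2 (m + 1), inferInstance, inferInstance, inferInstance, ?_⟩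
    rw [← Nat.card_eq_fintype_card, GaloisField.card 2 (m + 1) (by omega)]
    exact Nat.lt_two_pow_self
  obtain ⟨L, hL⟩ := exists_gen hF
  obtain ⟨κ, _, Bc, hB, hbrk⟩ := exists_pieces hC hL.1
  obtain ⟨M, hE, hρ⟩ := exists_matroid (sys_model hL hB hbrk) Fintype.one_lt_card indx_empty
    indx_subset (indx_det hL hB hbrk)
  have h0 : (gs fun _ => False : Finset (Qx C)) = ∅ := by simp [gs]
  let P : Qx C → Prop := fun a => a ≠ Sum.inl ∅
  have hP : ∀ a, ¬ P a → ∀ ω ω', valx L Bc a ω' = valx L Bc a ω := by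
    intro a ha ω ω'
    obtain rfl : a = Sum.inl ∅ := not_not.1 ha
    funext c
    simp [valx, vec_dot]
  have hnd : ∀ (u : Vx C) (hu : P (Sum.inr u)),
      ¬ Det (fun a : {a // P a} => valx L Bc a) ∅ ⟨Sum.inr u, hu⟩ := by
    intro u hu h
    have e0 : (∅ : Finset {a // P a}) = (∅ : Finset (Qx C)).subtype P := by
      ext a
      simp
    rw [e0, det_subtype hP, ← h0] at h
    exact not_det_vx _ _ h
  refine ⟨{a // P a}, inferInstance, inferInstance, ⟨Sum.inr (Sum.inl none), by simp [P]⟩,
    M.comap Subtype.val, final2 (val := fun a : {a // P a} => valx L Bc a) _ (by simp [hE])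
      Fintype.one_lt_card (fun X ω => ?_) _ ⟨Sum.inr (Sum.inr none), by simp [P]⟩ (by simp)
      (hnd _ _) (hnd _ _) (fun e he => ?_)
      (fun K W _ _ _ U h => not_linLike hL.1 hB K W _ (linLike_extend hP U h))⟩
  · have e1 : fib (fun a : {a // P a} => valx L Bc a) X ω
        = fib (valx L Bc) (X.map (Function.Embedding.subtype _)) ω := by
      ext ω'
      rw [mem_fib, mem_fib, agree_map]
    rw [e1, Matroid.eRk_comap, ← hρ (X.map (Function.Embedding.subtype _)) ω, Finset.coe_map]
    rfl
  · obtain ⟨B, hB1, hB2, hB3⟩ := conn_model hL hB hbrk e.1 (fun h => he (Subtype.ext h)) e.2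
    refine ⟨B.subtype P, fun h => hB1 (Finset.mem_subtype.1 h),
      fun h => hB2 ((det_subtype hP B _).1 h), ?_⟩
    refine ((det_subtype hP (insert e.1 B) _).2 hB3).mono fun x hx => ?_
    rcases Finset.mem_insert.1 (Finset.mem_subtype.1 hx) with h | h
    · rw [Subtype.ext h]
      exact Finset.mem_insert_self _ _
    · exact Finset.mem_insert_of_mem (Finset.mem_subtype.2 h)

end Pool.Agent.Lib.MP_e850aa_co
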