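import Pool.Agent.Lib.MP_e850aa_co.Germ

set_option autoImplicit false
set_option linter.unusedSectionVars false

namespace Pool.Agent.Lib.MP_e850aa_co

open Finset Filter Topology

section Gap

variable {Q : Type} [DecidableEq Q]

/-- `h` is the logarithmic index function of an arrangement of subgroups of a finite abelian
group. -/
def AbFun (h : Finset Q → ℝ) : Prop :=
  ∃ (W : Type) (_ : AddCommGroup W) (_ : Finite W) (U : Q → AddSubgroup W),
    ∀ X : Finset Q, h X = Real.log (⨅ a ∈ X, U a).index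

/-- Normalized, monotone and submodular set functions. -/
structure Pol (h : Finset Q → ℝ) : Prop where
  emp : h ∅ = 0
  inc0 : ∀ X e, h X ≤ h (insert e X)
  dim : ∀ X Y e, X ⊆ Y → h (insert e Y) - h Y ≤ h (insert e X) - h X

lemma Pol.sub {h : Finset Q → ℝ} (hh : Pol h) (X : Finset Q) (e : Q) :
    h (insert e X) ≤ h X + h {e} := by
  have := hh.dim ∅ X e (Finset.empty_subset _)
  rw [hh.emp, insert_empty_eq] at this
  linarith

lemma Pol.bound {h : Finset Q → ℝ} (hh : Pol h) {b : ℝ} (hb : ∀ e, h {e} ≤ b) (X : Finset Q) :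
    0 ≤ h X ∧ h X ≤ b * X.card := by
  induction X using Finset.induction_on with
  | empty => simp [hh.emp]
  | insert e X he ih =>
    have h1 := hh.inc0 X e
    have h2 := hh.sub X e
    have h3 := hb e
    rw [Finset.card_insert_of_notMem he]
    push_cast
    constructor <;> linarith [ih.1, ih.2]

variable {Ω A : Type} {val : Q → Ω → A} {ρ : Finset Q → ℝ}

lemma not_tendsto (hdd : ∀ X e, Det val X e → ρ (insert e X) = ρ X)
    (hnd : ∀ X e, ¬ Det val X e → ρ (insert e X) = ρ X + 1 ∧ ρ {e} = 1)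
    (hab : ∀ (W : Type) [AddCommGroup W] (U : Q → AddSubgroup W), ¬ AbLike val U)
    (h : ℕ → Finset Q → ℝ) (hh : ∀ n, AbFun (h n)) (lam : ℕ → ℝ) (hlam : ∀ n, 0 < lam n) :
    ¬ ∀ X, Tendsto (fun n => h n X / lam n) atTop (𝓝 (ρ X)) := by
  intro hT
  choose W i1 i2 U hU using hh
  exact hab _ _ (abLike_of_tendsto hlam hdd hnd U fun X => by simpa only [hU] using hT X)

lemma gapA {𝒞 : (Finset Q → ℝ) → Prop}
    (hnt : ∀ (h : ℕ → Finset Q → ℝ), (∀ n, 𝒞 (h n)) → ∀ lam : ℕ → ℝ, (∀ n, 0 < lam n) →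
      ¬ ∀ X, Tendsto (fun n => h n X / lam n) atTop (𝓝 (ρ X))) :
    ∃ c : ℝ, 0 < c ∧ ∀ h, 𝒞 h → ∀ lam : ℝ, 0 < lam → ∃ X, c * lam ≤ |h X - lam * ρ X| := by
  by_contra hcon
  push Not at hcon
  choose h hh lam hlam hX using fun n : ℕ => hcon (1 / ((n : ℝ) + 1)) Nat.one_div_pos_of_nat
  refine hnt h hh lam hlam fun X => ?_
  rw [tendsto_iff_dist_tendsto_zero]
  refine squeeze_zero (fun _ => dist_nonneg) (fun n => ?_) tendsto_one_div_add_atTop_nhds_zero_nat
  have e1 : h n X / lam n - ρ X = (h n X - lam n * ρ X) / lam n := by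
    have := (hlam n).ne'
    field_simp
  rw [Real.dist_eq, e1, abs_div, abs_of_pos (hlam n), div_le_iff₀ (hlam n)]
  exact (hX n X).le

lemma gapB [Fintype Q] {𝒞 : (Finset Q → ℝ) → Prop} (h𝒞 : ∀ h, 𝒞 h → Pol h)
    (hnt : ∀ (h : ℕ → Finset Q → ℝ), (∀ n, 𝒞 (h n)) → ∀ lam : ℕ → ℝ, (∀ n, 0 < lam n) →
      ¬ ∀ X, Tendsto (fun n => h n X / lam n) atTop (𝓝 (ρ X)))
    (hP : Poly ρ) (h0 : ρ ∅ = 0)
    (hint : ∀ X e, ρ (insert e X) = ρ X ∨ ρ (insert e X) = ρ X + 1) (D : Q)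
    (conn : ∀ e, e ≠ D → ∃ B, D ∉ B ∧ ρ (insert D B) ≠ ρ B ∧
      ρ (insert D (insert e B)) = ρ (insert e B))
    (G : Set (Finset Q)) (hG : ∀ B, D ∉ B →
      (B ∈ G → ρ (insert D B) - ρ B = 0) ∧ (B ∉ G → ρ (insert D B) - ρ B = 1)) :
    ∃ c : ℝ, 0 < c ∧ ∀ h, 𝒞 h → 0 < h {D} →
      (∀ B, D ∉ B → (B ∈ G → h (insert D B) - h B ≤ c * h {D}) ∧
        (B ∉ G → (1 - c) * h {D} ≤ h (insert D B) - h B)) →
      ∃ i, i ≠ D ∧ (1 + c) * h {D} ≤ h {i} := by
  by_contra hcon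
  push Not at hcon
  choose h hh hD hB hi using fun n : ℕ => hcon (1 / ((n : ℝ) + 1)) Nat.one_div_pos_of_nat
  have hc0 : ∀ n : ℕ, 0 < 1 / ((n : ℝ) + 1) := fun n => Nat.one_div_pos_of_nat
  have hc1 : ∀ n : ℕ, 1 / ((n : ℝ) + 1) ≤ 1 := fun n => by
    rw [div_le_one (by positivity)]
    linarith [Nat.cast_nonneg (α := ℝ) n]
  have hs : ∀ n e, h n {e} ≤ (1 + 1 / ((n : ℝ) + 1)) * h n {D} := by
    intro n e
    by_cases he : e = D
    · rw [he]
      nlinarith [hD n, hc0 n]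
    · exact (hi n e he).le
  have hmem : ∀ n, (fun X => h n X / h n {D})
      ∈ Set.Icc (0 : Finset Q → ℝ) fun X => 2 * (X.card : ℝ) := by
    intro n
    have hb := (h𝒞 _ (hh n)).bound (b := 2 * h n {D}) fun e => by
      nlinarith [hs n e, hD n, hc1 n]
    refine ⟨fun X => div_nonneg (hb X).1 (hD n).le, fun X => ?_⟩
    beta_reduce
    rw [div_le_iff₀ (hD n)]
    linarith [(hb X).2]
  obtain ⟨g, -, φ, hφ, hg⟩ := isCompact_Icc.tendsto_subseq hmem
  have hgX : ∀ X, Tendsto (fun n => h (φ n) X / h (φ n) {D}) atTop (𝓝 (g X)) :=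
    fun X => tendsto_pi_nhds.1 hg X
  have hc : Tendsto (fun n => 1 / ((φ n : ℝ) + 1)) atTop (𝓝 0) :=
    tendsto_one_div_add_atTop_nhds_zero_nat.comp hφ.tendsto_atTop
  have hg0 : g ∅ = 0 := by
    refine tendsto_nhds_unique (hgX ∅) ?_
    simp [(h𝒞 _ (hh _)).emp]
  have hinc : ∀ X e, g X ≤ g (insert e X) := fun X e =>
    le_of_tendsto_of_tendsto' (hgX X) (hgX _) fun n =>
      div_le_div_of_nonneg_right ((h𝒞 _ (hh _)).inc0 X e) (hD _).le
  have hinc1 : ∀ X e, g (insert e X) ≤ g X + 1 := by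
    intro X e
    have := le_of_tendsto_of_tendsto' (hgX (insert e X)) (((hgX X).add_const 1).add hc) fun n => by
      rw [div_le_iff₀ (hD _), add_mul, add_mul, div_mul_cancel₀ _ (hD _).ne']
      linarith [(h𝒞 _ (hh (φ n))).sub X e, hs (φ n) e]
    simpa using this
  have hQ : Poly g := ⟨hinc, hinc1, fun X Y e hXY _ =>
    le_of_tendsto_of_tendsto' ((hgX _).sub (hgX Y)) ((hgX _).sub (hgX X)) fun n => by
      rw [← sub_div, ← sub_div]
      exact div_le_div_of_nonneg_right ((h𝒞 _ (hh _)).dim X Y e hXY) (hD _).le⟩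
  have huniq := port_unique hP hQ hint D (fun B hDB => by
    by_cases hBG : B ∈ G
    · rw [(hG B hDB).1 hBG]
      have := le_of_tendsto_of_tendsto' ((hgX (insert D B)).sub (hgX B)) hc fun n => by
        rw [← sub_div, div_le_iff₀ (hD _)]
        exact (hB _ B hDB).1 hBG
      linarith [hinc B D]
    · rw [(hG B hDB).2 hBG]
      have := le_of_tendsto_of_tendsto' (hc.const_sub 1) ((hgX (insert D B)).sub (hgX B))
        fun n => by
          rw [← sub_div, le_div_iff₀ (hD _)]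
          exact (hB _ B hDB).2 hBG
      linarith [hinc1 B D]) conn (by rw [hg0, h0])
  exact hnt (fun n => h (φ n)) (fun n => hh _) (fun n => h (φ n) {D}) (fun n => hD _)
    fun X => huniq X ▸ hgX X

end Gap

end Pool.Agent.Lib.MP_e850aa_co
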