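import Mathlib

set_option autoImplicit false

namespace Pool.Agent.Lib.MP_e850aa_co

open Finset Module

section Gen

variable {F ι : Type} [Field F] [Fintype ι]

/-- The affine functional `(x, c) ↦ ℓ x + c`. -/
def lhat (l : ι → F) : ((ι → F) × F) →ₗ[F] F where
  toFun y := l ⬝ᵥ y.1 + y.2
  map_add' y z := by simp [dotProduct_add]; ring
  map_smul' a y := by simp [dotProduct_smul]; ring

/-- The functional `(x, c) ↦ ℓ x`. -/
def ghat (l : ι → F) : ((ι → F) × F) →ₗ[F] F where
  toFun y := l ⬝ᵥ y.1
  map_add' y z := by simp [dotProduct_add]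
  map_smul' a y := by simp [dotProduct_smul]

@[simp] lemma lhat_apply (l : ι → F) (y : (ι → F) × F) : lhat l y = l ⬝ᵥ y.1 + y.2 := rfl

@[simp] lemma ghat_apply (l : ι → F) (y : (ι → F) × F) : ghat l y = l ⬝ᵥ y.1 := rfl

/-- The annihilator of `Y`, placed at height zero. -/
def Uhat (Y : Submodule F (ι → F)) : Submodule F ((ι → F) × F) where
  carrier := {y | y.2 = 0 ∧ ∀ l ∈ Y, l ⬝ᵥ y.1 = 0}
  add_mem' := by
    rintro a b ⟨ha, ha'⟩ ⟨hb, hb'⟩
    exact ⟨by simp [ha, hb], fun l hl => by simp [dotProduct_add, ha' l hl, hb' l hl]⟩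
  zero_mem' := ⟨rfl, fun l _ => by simp⟩
  smul_mem' := by
    rintro c a ⟨ha, ha'⟩
    exact ⟨by simp [ha], fun l hl => by simp [dotProduct_smul, ha' l hl]⟩

lemma mem_Uhat {Y : Submodule F (ι → F)} {y : (ι → F) × F} :
    y ∈ Uhat Y ↔ y.2 = 0 ∧ ∀ l ∈ Y, l ⬝ᵥ y.1 = 0 := Iff.rfl

/-- The common zeros in `K` of the affine functionals indexed by `S`. -/
def Zs {V : Type} (L : V → ι → F) (S : Finset V) (K : Submodule F ((ι → F) × F)) :
    Submodule F ((ι → F) × F) where
  carrier := {y | y ∈ K ∧ ∀ u ∈ S, lhat (L u) y = 0}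
  add_mem' := by
    rintro a b ⟨ha, ha'⟩ ⟨hb, hb'⟩
    exact ⟨K.add_mem ha hb, fun u hu => by rw [map_add, ha' u hu, hb' u hu, add_zero]⟩
  zero_mem' := ⟨K.zero_mem, fun u _ => map_zero _⟩
  smul_mem' := by
    rintro c a ⟨ha, ha'⟩
    exact ⟨K.smul_mem c ha, fun u hu => by rw [map_smul, ha' u hu, smul_zero]⟩

lemma mem_Zs {V : Type} {L : V → ι → F} {S : Finset V} {K : Submodule F ((ι → F) × F)}
    {y : (ι → F) × F} : y ∈ Zs L S K ↔ y ∈ K ∧ ∀ u ∈ S, lhat (L u) y = 0 := Iff.rfl

lemma avoid [Fintype F] {T : Type} [Fintype T] (Y : Submodule F (ι → F)) (y : T → (ι → F) × F)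
    (hy : ∀ t, y t ∉ Uhat Y) (hF : Fintype.card T + 1 < Fintype.card F) :
    ∃ l ∈ Y, ∀ t, lhat l (y t) ≠ 0 := by
  classical
  let ψ : T → (Y × F) →ₗ[F] F := fun t =>
    { toFun := fun z => (z.1 : ι → F) ⬝ᵥ (y t).1 + z.2 * (y t).2
      map_add' := fun a b => by simp [add_dotProduct]; ring
      map_smul' := fun c a => by simp [smul_dotProduct]; ring }
  let p : Option T → Submodule F (Y × F) := fun o =>
    match o with
    | none => LinearMap.ker (LinearMap.snd F Y F)
    | some t => LinearMap.ker (ψ t)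
  have hp : ∀ o, p o ≠ ⊤ := by
    intro o h
    cases o with
    | none =>
      have : ((0, 1) : Y × F) ∈ p none := by rw [h]; trivial
      simp [p] at this
    | some t =>
      apply hy t
      rw [mem_Uhat]
      constructor
      · have : ((0, 1) : Y × F) ∈ p (some t) := by rw [h]; trivial
        simpa [p, ψ] using this
      · intro l hl
        have : ((⟨l, hl⟩, 0) : Y × F) ∈ p (some t) := by rw [h]; trivial
        simpa [p, ψ] using this
  have hss := Submodule.iUnion_ssubset_of_forall_ne_top_of_card_lt Finset.univ p hp (by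
    rw [ENat.card_eq_coe_fintype_card, Finset.card_univ, Fintype.card_option]
    exact_mod_cast hF)
  obtain ⟨z, -, hz⟩ := Set.exists_of_ssubset hss
  simp only [Finset.mem_univ, Set.iUnion_true, Set.mem_iUnion, SetLike.mem_coe, not_exists] at hz
  have h0 : z.2 ≠ 0 := by simpa [p] using hz none
  refine ⟨z.2⁻¹ • (z.1 : ι → F), Y.smul_mem _ z.1.2, fun t ht => ?_⟩
  apply hz (some t)
  simp only [p, LinearMap.mem_ker, ψ, LinearMap.coe_mk, AddHom.coe_mk]
  rw [lhat_apply, smul_dotProduct, smul_eq_mul] at ht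
  have : z.2 * (z.2⁻¹ * (z.1 : ι → F) ⬝ᵥ (y t).1 + (y t).2) = 0 := by rw [ht, mul_zero]
  rw [mul_add, ← mul_assoc, mul_inv_cancel₀ h0, one_mul] at this
  exact this

theorem generic [Fintype F] {V T : Type} [Fintype V] [DecidableEq V] [Fintype T]
    (Y : V → Submodule F (ι → F)) (K : T → Submodule F ((ι → F) × F))
    (hF : Fintype.card (Finset V × T) + 1 < Fintype.card F) :
    ∃ L : V → ι → F, (∀ u, L u ∈ Y u) ∧ ∀ t S,
      finrank F (Zs L S (K t)) + S.card ≤ finrank F (K t) ∨
        ∃ u ∈ S, Zs L S (K t) ≤ Uhat (Y u) := by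
  classical
  suffices H : ∀ V₀ : Finset V, ∃ L : V → ι → F, (∀ u, L u ∈ Y u) ∧ ∀ t S, S ⊆ V₀ →
      (finrank F (Zs L S (K t)) + S.card ≤ finrank F (K t) ∨
        ∃ u ∈ S, Zs L S (K t) ≤ Uhat (Y u)) by
    obtain ⟨L, h1, h2⟩ := H Finset.univ
    exact ⟨L, h1, fun t S => h2 t S (Finset.subset_univ S)⟩
  intro V₀
  induction V₀ using Finset.induction_on with
  | empty =>
    refine ⟨fun _ => 0, fun u => (Y u).zero_mem, fun t S hS => Or.inl ?_⟩
    rw [Finset.subset_empty] at hS
    subst hS
    simp only [Finset.card_empty, add_zero]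
    exact Submodule.finrank_mono (fun y hy => hy.1)
  | insert u V₀ hu ih =>
    obtain ⟨L, hL, hgen⟩ := ih
    have hy : ∀ q : Finset V × T, ∃ y : (ι → F) × F, y ∉ Uhat (Y u) ∧
        (¬ Zs L q.1 (K q.2) ≤ Uhat (Y u) → y ∈ Zs L q.1 (K q.2)) := by
      intro q
      by_cases hq : Zs L q.1 (K q.2) ≤ Uhat (Y u)
      · exact ⟨(0, 1), fun h => one_ne_zero h.1, fun h => absurd hq h⟩
      · obtain ⟨y, h1, h2⟩ := SetLike.not_le_iff_exists.1 hq
        exact ⟨y, h2, fun _ => h1⟩
    choose y hy1 hy2 using hy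
    obtain ⟨l, hl, hl'⟩ := avoid (Y u) y hy1 hF
    have hsame : ∀ (S : Finset V) (K' : Submodule F ((ι → F) × F)), u ∉ S →
        Zs (Function.update L u l) S K' = Zs L S K' := by
      intro S K' hS
      ext z
      simp only [mem_Zs]
      refine and_congr_right fun _ => forall₂_congr fun w hw => ?_
      rw [Function.update_of_ne (by rintro rfl; exact hS hw)]
    refine ⟨Function.update L u l, fun w => ?_, fun t S hS => ?_⟩
    · by_cases hw : w = u
      · subst hw; simpa using hl
      · rw [Function.update_of_ne hw]; exact hL w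
    · by_cases huS : u ∈ S
      · have hS' : S.erase u ⊆ V₀ := by
          intro w hw
          rcases Finset.mem_insert.1 (hS (Finset.mem_of_mem_erase hw)) with h | h
          · exact absurd h (Finset.ne_of_mem_erase hw)
          · exact h
        have hle : Zs (Function.update L u l) S (K t) ≤ Zs L (S.erase u) (K t) := by
          rw [← hsame (S.erase u) (K t) (Finset.notMem_erase u S)]
          exact fun z hz => ⟨hz.1, fun w hw => hz.2 w (Finset.mem_of_mem_erase hw)⟩
        by_cases hq : Zs L (S.erase u) (K t) ≤ Uhat (Y u)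
        · exact Or.inr ⟨u, huS, hle.trans hq⟩
        · rcases hgen t (S.erase u) hS' with h | ⟨w, hw, h⟩
          · left
            have hlt : Zs (Function.update L u l) S (K t) < Zs L (S.erase u) (K t) := by
              refine lt_of_le_of_ne hle fun heq => ?_
              have h1 := hy2 (S.erase u, t) hq
              rw [← heq] at h1
              have h2 := h1.2 u huS
              rw [Function.update_self] at h2
              exact hl' _ h2
            have h3 := Submodule.finrank_lt_finrank_of_lt hlt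
            have h4 := Finset.card_erase_add_one huS
            omega
          · exact Or.inr ⟨w, Finset.mem_of_mem_erase hw, hle.trans h⟩
      · have hS' : S ⊆ V₀ := by
          intro w hw
          rcases Finset.mem_insert.1 (hS hw) with h | h
          · exact absurd (h ▸ hw) huS
          · exact h
        rw [hsame S (K t) huS]
        exact hgen t S hS'

lemma finrank_inf_ker_le {M : Type} [AddCommGroup M] [Module F M] [FiniteDimensional F M]
    (Z : Submodule F M) (φ : M →ₗ[F] F) :
    finrank F Z ≤ finrank F (Z ⊓ LinearMap.ker φ : Submodule F M) + 1 := by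
  have h1 := LinearMap.finrank_range_add_finrank_ker (φ.domRestrict Z)
  have h2 : finrank F (LinearMap.range (φ.domRestrict Z)) ≤ 1 := by
    simpa using Submodule.finrank_le (LinearMap.range (φ.domRestrict Z))
  have h3 : finrank F (LinearMap.ker (φ.domRestrict Z))
      = finrank F (Z ⊓ LinearMap.ker φ : Submodule F M) := by
    rw [← Submodule.finrank_map_subtype_eq, LinearMap.ker_domRestrict, Submodule.map_comap_subtype]
  omega

/-- If all affine functionals have no common zero in `K`, dropping those in `E` leaves a space of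
dimension at most `|E|`. -/
lemma finrank_Zs_sdiff {V : Type} [DecidableEq V] (L : V → ι → F) (S E : Finset V)
    (K : Submodule F ((ι → F) × F)) (h : Zs L S K = ⊥) :
    finrank F (Zs L (S \ E) K) ≤ E.card := by
  let Φ : Zs L (S \ E) K →ₗ[F] (E → F) :=
    LinearMap.pi fun u : E => (lhat (L u)).domRestrict _
  have hinj : Function.Injective Φ := by
    rw [← LinearMap.ker_eq_bot, Submodule.eq_bot_iff]
    intro z hz
    have : (z : (ι → F) × F) ∈ Zs L S K := by
      refine ⟨z.2.1, fun u hu => ?_⟩
      by_cases huE : u ∈ E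
      · exact congrFun (LinearMap.mem_ker.1 hz) ⟨u, huE⟩
      · exact z.2.2 u (Finset.mem_sdiff.2 ⟨hu, huE⟩)
    rw [h] at this
    exact Subtype.ext this
  simpa using LinearMap.finrank_le_finrank_of_injective hinj

end Gen

end Pool.Agent.Lib.MP_e850aa_co
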