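import Pool.Agent.Lib.MP_e850aa_co.AbChase

set_option autoImplicit false
set_option linter.unusedSectionVars false

namespace Pool.Agent.Lib.MP_e850aa_co

open Finset Filter Topology

section One

variable {P V : Type} [AddCommGroup P] [AddCommGroup V]

/-- The map is additive on the subgroup `T`. -/
def AddOn (φ : P → V) (T : AddSubgroup P) : Prop := ∀ x ∈ T, ∀ y ∈ T, φ (x + y) = φ x + φ y

lemma AddOn.mono {φ : P → V} {T T' : AddSubgroup P} (h : AddOn φ T) (hT : T' ≤ T) :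
    AddOn φ T' := fun x hx y hy => h x (hT hx) y (hT hy)

/-- The homomorphism given by a map that is additive on `T`. -/
def AddOn.hom {φ : P → V} {T : AddSubgroup P} (h : AddOn φ T) : T →+ V :=
  AddMonoidHom.mk' (fun x => φ x) fun x y => h x x.2 y y.2

lemma relIndex_ne_zero_fin [Finite V] (B A : AddSubgroup V) : B.relIndex A ≠ 0 :=
  AddSubgroup.index_ne_zero_of_finite

lemma index_ne_zero_fin [Finite V] (B : AddSubgroup V) : B.index ≠ 0 :=
  AddSubgroup.index_ne_zero_of_finite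

lemma AddOn.shrink [Finite V] {φ : P → V} {T : AddSubgroup P} (h : AddOn φ T)
    (hT : T.index ≠ 0) (A B : AddSubgroup V) (hA : ∀ x ∈ T, φ x ∈ A) :
    ∃ T' : AddSubgroup P, T' ≤ T ∧ (∀ x ∈ T', φ x ∈ B) ∧ T'.index ≠ 0 ∧
      T'.index ≤ B.relIndex A * T.index := by
  refine ⟨(B.comap h.hom).map T.subtype, AddSubgroup.map_subtype_le _, ?_, ?_, ?_⟩
  · rintro _ ⟨x, hx, rfl⟩
    exact hx
  · rw [AddSubgroup.index_map_subtype, AddSubgroup.index_comap]
    exact mul_ne_zero (relIndex_ne_zero_fin _ _) hT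
  · rw [AddSubgroup.index_map_subtype, AddSubgroup.index_comap]
    refine Nat.mul_le_mul_right _ (AddSubgroup.relIndex_le_of_le_right ?_
      (relIndex_ne_zero_fin _ _))
    rintro _ ⟨x, rfl⟩
    exact hA x x.2

lemma AddOn.split [Module.Finite ℤ P] [Module.IsTorsionFree ℤ P] {φ : P → V}
    {T : AddSubgroup P} (h : AddOn φ T) (Z H : AddSubgroup V) (hA : ∀ x ∈ T, φ x ∈ Z ⊔ H) :
    ∃ z : P → V, AddOn z T ∧ ∀ x ∈ T, z x ∈ Z ∧ φ x - z x ∈ H := by
  classical
  let N : Submodule ℤ P := AddSubgroup.toIntSubmodule T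
  let f : (Z × H) →+ (Z ⊔ H : AddSubgroup V) :=
    (AddSubgroup.inclusion le_sup_left).coprod (AddSubgroup.inclusion le_sup_right)
  have hf : Function.Surjective f := by
    rintro ⟨v, hv⟩
    obtain ⟨a, ha, b, hb, rfl⟩ := AddSubgroup.mem_sup.1 hv
    exact ⟨(⟨a, ha⟩, ⟨b, hb⟩), rfl⟩
  let g : N →+ (Z ⊔ H : AddSubgroup V) :=
    AddMonoidHom.mk' (fun x => ⟨φ x, hA x x.2⟩) fun x y => Subtype.ext (h x x.2 y y.2)
  obtain ⟨l, hl⟩ := Module.projective_lifting_property f.toIntLinearMap g.toIntLinearMap hf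
  refine ⟨fun x => if hx : x ∈ T then ((l ⟨x, hx⟩).1 : V) else 0, fun x hx y hy => ?_,
    fun x hx => ?_⟩
  · simp only [dif_pos hx, dif_pos hy, dif_pos (add_mem hx hy)]
    have : (⟨x + y, add_mem hx hy⟩ : N) = ⟨x, hx⟩ + ⟨y, hy⟩ := rfl
    rw [this, map_add]
    rfl
  · simp only [dif_pos hx]
    refine ⟨(l ⟨x, hx⟩).1.2, ?_⟩
    have e1 : ((l ⟨x, hx⟩).1 : V) + (l ⟨x, hx⟩).2 = φ x :=
      congrArg Subtype.val (LinearMap.congr_fun hl ⟨x, hx⟩)
    rw [← e1, add_sub_cancel_left]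
    exact (l ⟨x, hx⟩).2.2

lemma exists_onto (Z : AddSubgroup V) : ∃ φ : (V →₀ ℤ) →+ V, φ.range = Z := by
  classical
  refine ⟨(Finsupp.linearCombination ℤ fun w : V => if w ∈ Z then w else 0).toAddMonoidHom, ?_⟩
  refine le_antisymm ?_ fun w hw => ⟨Finsupp.single w 1, by simp [hw]⟩
  rintro _ ⟨x, rfl⟩
  rw [LinearMap.toAddMonoidHom_coe, Finsupp.linearCombination_apply, Finsupp.sum]
  refine sum_mem fun w _ => zsmul_mem ?_ _
  split_ifs with hw
  · exact hw
  · exact zero_mem _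

lemma log_relIndex [Finite V] (B Z : AddSubgroup V) :
    Real.log (B.relIndex Z) = Real.log (B ⊓ Z).index - Real.log Z.index := by
  rw [← AddSubgroup.relIndex_mul_index (inf_le_right : B ⊓ Z ≤ Z), AddSubgroup.inf_relIndex_right,
    Nat.cast_mul, Real.log_mul (by exact_mod_cast relIndex_ne_zero_fin B Z)
      (by exact_mod_cast index_ne_zero_fin Z)]
  ring

lemma log_index_sup [Finite V] (B Z : AddSubgroup V) :
    Real.log (Z ⊔ B).index = Real.log B.index - Real.log (B.relIndex Z) := by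
  rw [← AddSubgroup.relIndex_mul_index (le_sup_right : B ≤ Z ⊔ B), AddSubgroup.relIndex_sup_right,
    Nat.cast_mul, Real.log_mul (by exact_mod_cast relIndex_ne_zero_fin B Z)
      (by exact_mod_cast index_ne_zero_fin _)]
  ring

end One

section Seq

variable {P W : ℕ → Type} [∀ n, AddCommGroup (P n)] [∀ n, AddCommGroup (W n)] {lam : ℕ → ℝ}

/-- A sequence of subgroups of negligible logarithmic index. -/
def Small (lam : ℕ → ℝ) (T : ∀ n, AddSubgroup (P n)) : Prop :=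
  (∀ n, (T n).index ≠ 0) ∧ Tendsto (fun n => Real.log (T n).index / lam n) atTop (𝓝 0)

lemma small_top : Small lam (fun n => (⊤ : AddSubgroup (P n))) :=
  ⟨fun n => by simp, by simp⟩

lemma Small.of_le (hlam : ∀ n, 0 < lam n) {T T' : ∀ n, AddSubgroup (P n)} (h : Small lam T)
    (m : ℕ → ℕ) (hm : Tendsto (fun n => Real.log (m n) / lam n) atTop (𝓝 0))
    (h0 : ∀ n, (T' n).index ≠ 0) (hle : ∀ n, (T' n).index ≤ m n * (T n).index) :
    Small lam T' := by
  refine ⟨h0, squeeze_zero (fun n => div_nonneg (Real.log_natCast_nonneg _) (hlam n).le)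
    (fun n => ?_) (by simpa using hm.add h.2)⟩
  have hm0 : m n ≠ 0 := by
    intro h'
    have := hle n
    rw [h', zero_mul] at this
    exact h0 n (Nat.le_zero.1 this)
  rw [← add_div, ← Real.log_mul (by exact_mod_cast hm0) (by exact_mod_cast h.1 n)]
  refine div_le_div_of_nonneg_right (Real.log_le_log ?_ ?_) (hlam n).le
  · exact_mod_cast Nat.pos_of_ne_zero (h0 n)
  · exact_mod_cast hle n

lemma Small.inf (hlam : ∀ n, 0 < lam n) {T T' : ∀ n, AddSubgroup (P n)} (h : Small lam T)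
    (h' : Small lam T') : Small lam (fun n => T n ⊓ T' n) :=
  h'.of_le hlam (fun n => (T n).index) h.2
    (fun n => AddSubgroup.index_inf_ne_zero (h.1 n) (h'.1 n)) fun _ => AddSubgroup.index_inf_le

variable (P W) in
/-- Sequences of maps that are additive on subgroups of negligible index. -/
def Germ (hlam : ∀ n, 0 < lam n) : AddSubgroup (∀ n, P n → W n) where
  carrier := {φ | ∃ T, Small lam T ∧ ∀ n, AddOn (φ n) (T n)}
  zero_mem' := ⟨_, small_top, fun n x _ y _ => by simp⟩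
  add_mem' := by
    rintro φ ψ ⟨T, hT, h⟩ ⟨T', hT', h'⟩
    refine ⟨_, hT.inf hlam hT', fun n x hx y hy => ?_⟩
    simp only [Pi.add_apply, h n x hx.1 y hy.1, h' n x hx.2 y hy.2]
    abel
  neg_mem' := by
    rintro φ ⟨T, hT, h⟩
    refine ⟨T, hT, fun n x hx y hy => ?_⟩
    simp only [Pi.neg_apply, h n x hx y hy]
    abel

variable (P) in
/-- Sequences of maps that send subgroups of negligible index into `B`. -/
def UG (hlam : ∀ n, 0 < lam n) (B : ∀ n, AddSubgroup (W n)) : AddSubgroup (∀ n, P n → W n) where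
  carrier := {φ | ∃ T : ∀ n, AddSubgroup (P n), Small lam T ∧ ∀ n, ∀ x ∈ T n, φ n x ∈ B n}
  zero_mem' := ⟨_, small_top, fun n x _ => zero_mem _⟩
  add_mem' := by
    rintro φ ψ ⟨T, hT, h⟩ ⟨T', hT', h'⟩
    exact ⟨_, hT.inf hlam hT', fun n x hx => add_mem (h n x hx.1) (h' n x hx.2)⟩
  neg_mem' := by
    rintro φ ⟨T, hT, h⟩
    exact ⟨T, hT, fun n x hx => neg_mem (h n x hx)⟩

variable (hlam : ∀ n, 0 < lam n)

lemma UG_mono {B B' : ∀ n, AddSubgroup (W n)} (h : ∀ n, B n ≤ B' n) {φ : ∀ n, P n → W n}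
    (hφ : φ ∈ UG P hlam B) : φ ∈ UG P hlam B' := by
  obtain ⟨T, hT, h'⟩ := hφ
  exact ⟨T, hT, fun n x hx => h n (h' n x hx)⟩

lemma UG_iInf {Q : Type} [DecidableEq Q] (U : ∀ n, Q → AddSubgroup (W n)) (X : Finset Q)
    {φ : ∀ n, P n → W n} :
    (∀ a ∈ X, φ ∈ UG P hlam fun n => U n a) ↔ φ ∈ UG P hlam fun n => ⨅ a ∈ X, U n a := by
  refine ⟨?_, fun h a ha => UG_mono hlam (fun n => iInf₂_le a ha) h⟩
  induction X using Finset.induction_on with
  | empty => exact fun _ => ⟨_, small_top, fun n x _ => by simp⟩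
  | insert e X _ ih =>
    intro h
    obtain ⟨T, hT, h1⟩ := h e (Finset.mem_insert_self _ _)
    obtain ⟨T', hT', h2⟩ := ih fun a ha => h a (Finset.mem_insert_of_mem ha)
    refine ⟨_, hT.inf hlam hT', fun n x hx => ?_⟩
    beta_reduce
    rw [Finset.iInf_insert]
    exact ⟨h1 n x hx.1, h2 n x hx.2⟩

variable [∀ n, Finite (W n)]

lemma UG_step {A B : ∀ n, AddSubgroup (W n)} {φ : ∀ n, P n → W n} (hφ : φ ∈ Germ P W hlam)
    (hA : φ ∈ UG P hlam A)
    (h : Tendsto (fun n => Real.log ((B n).relIndex (A n)) / lam n) atTop (𝓝 0)) :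
    ∃ T : ∀ n, AddSubgroup (P n), Small lam T ∧ (∀ n, AddOn (φ n) (T n)) ∧
      ∀ n, ∀ x ∈ T n, φ n x ∈ B n := by
  obtain ⟨T, hT, h1⟩ := hφ
  obtain ⟨T', hT', h2⟩ := hA
  have h3 := hT.inf hlam hT'
  choose T'' k1 k2 k3 k4 using fun n => ((h1 n).mono (inf_le_left : T n ⊓ T' n ≤ T n)).shrink
    (h3.1 n) (A n) (B n) fun x hx => h2 n x hx.2
  exact ⟨T'', h3.of_le hlam _ h k3 k4, fun n => (h1 n).mono ((k1 n).trans inf_le_left), k2⟩

lemma UG_split [∀ n, Module.Finite ℤ (P n)] [∀ n, Module.IsTorsionFree ℤ (P n)]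
    {Z H : ∀ n, AddSubgroup (W n)} {φ : ∀ n, P n → W n} (hφ : φ ∈ Germ P W hlam)
    (h : Tendsto (fun n => Real.log (Z n ⊔ H n).index / lam n) atTop (𝓝 0)) :
    ∃ z ∈ Germ P W hlam, z ∈ UG P hlam Z ∧ φ - z ∈ UG P hlam H := by
  obtain ⟨T, hT, h1, h2⟩ := UG_step hlam (A := fun _ => ⊤) (B := fun n => Z n ⊔ H n) hφ
    ⟨_, small_top, fun _ _ _ => trivial⟩ (by simpa using h)
  choose z k1 k2 using fun n => (h1 n).split (Z n) (H n) (h2 n)
  exact ⟨z, ⟨T, hT, k1⟩, ⟨T, hT, fun n x hx => (k2 n x hx).1⟩,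
    ⟨T, hT, fun n x hx => (k2 n x hx).2⟩⟩

lemma UG_onto (Z : ∀ n, AddSubgroup (W n)) :
    ∃ φ ∈ Germ (fun n => W n →₀ ℤ) W hlam, φ ∈ UG (fun n => W n →₀ ℤ) hlam Z ∧
      ∀ B : ∀ n, AddSubgroup (W n), φ ∈ UG (fun n => W n →₀ ℤ) hlam B →
        Tendsto (fun n => Real.log ((B n).relIndex (Z n)) / lam n) atTop (𝓝 0) := by
  choose φ hφ using fun n => exists_onto (Z n)
  refine ⟨fun n => φ n, ⟨_, small_top, fun n x _ y _ => map_add _ _ _⟩,
    ⟨_, small_top, fun n x _ => hφ n ▸ ⟨x, rfl⟩⟩, ?_⟩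
  rintro B ⟨T, hT, h⟩
  refine squeeze_zero (fun n => div_nonneg (Real.log_natCast_nonneg _) (hlam n).le)
    (fun n => ?_) hT.2
  refine div_le_div_of_nonneg_right (Real.log_le_log ?_ ?_) (hlam n).le
  · exact_mod_cast Nat.pos_of_ne_zero (relIndex_ne_zero_fin _ _)
  · rw [← hφ n, ← AddSubgroup.index_comap]
    exact_mod_cast Nat.le_of_dvd (Nat.pos_of_ne_zero (hT.1 n))
      (AddSubgroup.index_dvd_of_le fun x hx => h n x hx)

include hlam in
/-- A limit of abelian group arrangements gives an exact arrangement of germs. -/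
theorem abLike_of_tendsto {Q Ω A : Type} [DecidableEq Q] {val : Q → Ω → A} {ρ : Finset Q → ℝ}
    (hdd : ∀ X e, Det val X e → ρ (insert e X) = ρ X)
    (hnd : ∀ X e, ¬ Det val X e → ρ (insert e X) = ρ X + 1 ∧ ρ {e} = 1)
    (U : ∀ n, Q → AddSubgroup (W n))
    (hU : ∀ X : Finset Q,
      Tendsto (fun n => Real.log (⨅ a ∈ X, U n a).index / lam n) atTop (𝓝 (ρ X))) :
    AbLike val (fun a => (UG (fun n => W n →₀ ℤ) hlam fun n => U n a).addSubgroupOf
      (Germ (fun n => W n →₀ ℤ) W hlam)) := by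
  have hrel : ∀ (X : Finset Q) (e : Q), Tendsto
      (fun n => Real.log ((U n e).relIndex (⨅ a ∈ X, U n a)) / lam n) atTop
      (𝓝 (ρ (insert e X) - ρ X)) := by
    intro X e
    refine ((hU (insert e X)).sub (hU X)).congr fun n => ?_
    rw [log_relIndex, Finset.iInf_insert, sub_div]
  refine ⟨fun X e he w hw => ?_, fun X e he t => ?_, fun X e he => ?_⟩
  · have h1 := (UG_iInf hlam U X).1 hw
    have h2 := hrel X e
    rw [hdd X e he, sub_self] at h2
    obtain ⟨T, hT, -, h3⟩ := UG_step hlam (B := fun n => U n e) w.2 h1 h2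
    exact ⟨T, hT, h3⟩
  · have h2 := (hU {e}).sub (hrel X e)
    rw [(hnd X e he).1, (hnd X e he).2, add_sub_cancel_left, sub_self] at h2
    obtain ⟨z, hz, h3, h4⟩ := UG_split hlam (Z := fun n => ⨅ a ∈ X, U n a)
      (H := fun n => U n e) t.2 (h2.congr fun n => by rw [log_index_sup, sub_div]; simp)
    exact ⟨⟨z, hz⟩, t - ⟨z, hz⟩, (UG_iInf hlam U X).2 h3, h4, add_sub_cancel _ _⟩
  · obtain ⟨φ, hφ, h1, h2⟩ := UG_onto hlam fun n => ⨅ a ∈ X, U n a
    refine ⟨⟨φ, hφ⟩, (UG_iInf hlam U X).2 h1, fun h => ?_⟩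
    have h3 := tendsto_nhds_unique (h2 _ h) (hrel X e)
    rw [(hnd X e he).1, add_sub_cancel_left] at h3
    exact zero_ne_one h3

end Seq

end Pool.Agent.Lib.MP_e850aa_co
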