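import Pool.Agent.Lib.MP_e850aa_co.Generic

set_option autoImplicit false
set_option linter.unusedSectionVars false

namespace Pool.Agent.Lib.MP_e850aa_co

open Finset Module

section Grid

variable {F : Type} [Field F]

/-- The frame vectors: unit vectors and the all-ones vector. -/
def av {α : Type} [DecidableEq α] : Option α → α → F
  | none, _ => 1
  | some i, k => if k = i then 1 else 0

@[simp] lemma av_none {α : Type} [DecidableEq α] (k : α) : (av none k : F) = 1 := rfl

@[simp] lemma av_some {α : Type} [DecidableEq α] (i k : α) :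
    (av (some i) k : F) = if k = i then 1 else 0 := rfl

lemma av_exists_one {α : Type} [DecidableEq α] [Nonempty α] (i : Option α) :
    ∃ k, (av i k : F) = 1 := by
  cases i with
  | none => exact ⟨Classical.arbitrary α, rfl⟩
  | some i => exact ⟨i, by simp⟩

lemma av_mul_self {α : Type} [DecidableEq α] (i : Option α) (k : α) :
    (av i k : F) = 0 ∨ (av i k : F) = 1 := by
  cases i with
  | none => exact Or.inr rfl
  | some i => by_cases h : k = i <;> simp [h]

lemma av_indep {α : Type} [DecidableEq α] [Nontrivial α] {i i' : Option α} (h : i ≠ i')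
    {s s' : F} (hs : ∀ k, av i k * s = av i' k * s') : s = 0 := by
  cases i with
  | none =>
    cases i' with
    | none => exact absurd rfl h
    | some i' =>
      obtain ⟨k, hk⟩ := exists_ne i'
      simpa [hk] using hs k
  | some i =>
    cases i' with
    | none =>
      obtain ⟨k, hk⟩ := exists_ne i
      have h1 := hs k
      have h2 := hs i
      simp [hk] at h1 h2
      rw [h2, ← h1]
    | some i' =>
      have hne : i ≠ i' := fun hh => h (by rw [hh])
      simpa [hne] using hs i

variable {R C : Type} [DecidableEq R] [DecidableEq C]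

/-- The rank-one vector attached to the cell `(i, j)`. -/
def nv (i : Option R) (j : Option C) : R × C → F := fun q => av i q.1 * av j q.2

lemma nv_exists_one [Nonempty R] [Nonempty C] (i : Option R) (j : Option C) :
    ∃ q, (nv i j q : F) = 1 := by
  obtain ⟨k, hk⟩ := av_exists_one (F := F) i
  obtain ⟨l, hl⟩ := av_exists_one (F := F) j
  exact ⟨(k, l), by simp [nv, hk, hl]⟩

lemma nv_ne_zero [Nonempty R] [Nonempty C] (i : Option R) (j : Option C) :
    (nv i j : R × C → F) ≠ 0 := by
  obtain ⟨q, hq⟩ := nv_exists_one (F := F) i j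
  intro h
  rw [h] at hq
  exact zero_ne_one hq

lemma nv_zero_or_one (i : Option R) (j : Option C) (q : R × C) :
    (nv i j q : F) = 0 ∨ (nv i j q : F) = 1 := by
  rcases av_mul_self (F := F) i q.1 with h | h <;> rcases av_mul_self (F := F) j q.2 with h' | h' <;>
    simp [nv, h, h']

variable [Fintype R] [Fintype C]

/-- Functionals killing all cells on the row or column `u`. -/
def Yv (u : Option R ⊕ Option C) : Submodule F (R × C → F) where
  carrier := {l | ∀ i j, (u = Sum.inl i ∨ u = Sum.inr j) → l ⬝ᵥ nv i j = 0}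
  add_mem' := by
    intro a b ha hb i j h
    rw [add_dotProduct, ha i j h, hb i j h, add_zero]
  zero_mem' := fun i j _ => zero_dotProduct _
  smul_mem' := by
    intro c a ha i j h
    rw [smul_dotProduct, ha i j h, smul_zero]

lemma mem_Yv {u : Option R ⊕ Option C} {l : R × C → F} :
    l ∈ Yv u ↔ ∀ i j, (u = Sum.inl i ∨ u = Sum.inr j) → l ⬝ᵥ nv i j = 0 := Iff.rfl

lemma nv_mem_Uhat (u : Option R ⊕ Option C) (i : Option R) (j : Option C)
    (h : u = Sum.inl i ∨ u = Sum.inr j) : ((nv i j, 0) : (R × C → F) × F) ∈ Uhat (Yv u) :=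
  ⟨rfl, fun _ hl => hl i j h⟩

lemma row_rel {i : Option R} {x : R × C → F}
    (hx : ∀ l ∈ (Yv (Sum.inl i) : Submodule F (R × C → F)), l ⬝ᵥ x = 0) (k k' : R) (l : C) :
    av i k' * x (k, l) = av i k * x (k', l) := by
  have hmem : (Pi.single (k, l) (av i k') - Pi.single (k', l) (av i k) : R × C → F)
      ∈ (Yv (Sum.inl i) : Submodule F (R × C → F)) := by
    rintro i' j (h | h)
    · obtain rfl : i = i' := Sum.inl_injective h
      rw [sub_dotProduct, single_dotProduct, single_dotProduct]
      simp only [nv]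
      ring
    · exact absurd h Sum.inl_ne_inr
  have := hx _ hmem
  rw [sub_dotProduct, single_dotProduct, single_dotProduct] at this
  exact sub_eq_zero.1 this

lemma col_rel {j : Option C} {x : R × C → F}
    (hx : ∀ l ∈ (Yv (Sum.inr j) : Submodule F (R × C → F)), l ⬝ᵥ x = 0) (k : R) (l l' : C) :
    av j l' * x (k, l) = av j l * x (k, l') := by
  have hmem : (Pi.single (k, l) (av j l') - Pi.single (k, l') (av j l) : R × C → F)
      ∈ (Yv (Sum.inr j) : Submodule F (R × C → F)) := by
    rintro i j' (h | h)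
    · exact absurd h Sum.inr_ne_inl
    · obtain rfl : j = j' := Sum.inr_injective h
      rw [sub_dotProduct, single_dotProduct, single_dotProduct]
      simp only [nv]
      ring
  have := hx _ hmem
  rw [sub_dotProduct, single_dotProduct, single_dotProduct] at this
  exact sub_eq_zero.1 this

variable [Nontrivial R] [Nontrivial C]

lemma row_row {i i' : Option R} (h : i ≠ i') {y : (R × C → F) × F}
    (h1 : y ∈ Uhat (Yv (Sum.inl i))) (h2 : y ∈ Uhat (Yv (Sum.inl i'))) : y = 0 := by
  obtain ⟨k, hk⟩ := av_exists_one (F := F) i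
  obtain ⟨k', hk'⟩ := av_exists_one (F := F) i'
  have hz : ∀ l, y.1 (k, l) = 0 := by
    intro l
    refine av_indep (s' := y.1 (k', l)) h fun m => ?_
    have e1 := row_rel h1.2 m k l
    have e2 := row_rel h2.2 m k' l
    rw [hk, one_mul] at e1
    rw [hk', one_mul] at e2
    rw [← e1, ← e2]
  refine Prod.ext ?_ h1.1
  funext q
  have e1 := row_rel h1.2 q.1 k q.2
  rw [hk, one_mul, hz, mul_zero] at e1
  exact e1

lemma col_col {j j' : Option C} (h : j ≠ j') {y : (R × C → F) × F}
    (h1 : y ∈ Uhat (Yv (Sum.inr j))) (h2 : y ∈ Uhat (Yv (Sum.inr j'))) : y = 0 := by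
  obtain ⟨l, hl⟩ := av_exists_one (F := F) j
  obtain ⟨l', hl'⟩ := av_exists_one (F := F) j'
  have hz : ∀ k, y.1 (k, l) = 0 := by
    intro k
    refine av_indep (s' := y.1 (k, l')) h fun m => ?_
    have e1 := col_rel h1.2 k m l
    have e2 := col_rel h2.2 k m l'
    rw [hl, one_mul] at e1
    rw [hl', one_mul] at e2
    rw [← e1, ← e2]
  refine Prod.ext ?_ h1.1
  funext q
  have e1 := col_rel h1.2 q.1 q.2 l
  rw [hl, one_mul, hz, mul_zero] at e1
  exact e1

lemma row_col {i : Option R} {j : Option C} {y : (R × C → F) × F}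
    (h1 : y ∈ Uhat (Yv (Sum.inl i))) (h2 : y ∈ Uhat (Yv (Sum.inr j))) :
    ∃ s : F, y = s • ((nv i j, 0) : (R × C → F) × F) := by
  obtain ⟨k, hk⟩ := av_exists_one (F := F) i
  obtain ⟨l, hl⟩ := av_exists_one (F := F) j
  refine ⟨y.1 (k, l), Prod.ext ?_ (by simpa using h1.1)⟩
  funext q
  have e1 := row_rel h1.2 q.1 k q.2
  have e2 := col_rel h2.2 k q.2 l
  rw [hk, one_mul] at e1
  rw [hl, one_mul] at e2
  simp only [Prod.smul_fst, Pi.smul_apply, smul_eq_mul, nv]
  have : y.1 q = y.1 (q.1, q.2) := rfl
  rw [this, e1, e2]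
  ring

/-- Three distinct vertices have no common nonzero direction. -/
lemma three_zero {u u' w : Option R ⊕ Option C} (h1 : u ≠ u') (h2 : u ≠ w) (h3 : u' ≠ w)
    {y : (R × C → F) × F} (hu : y ∈ Uhat (Yv u)) (hu' : y ∈ Uhat (Yv u')) (hw : y ∈ Uhat (Yv w)) :
    y = 0 := by
  rcases u with i | j <;> rcases u' with i' | j' <;> rcases w with i'' | j''
  · exact row_row (fun h => h1 (by rw [h])) hu hu'
  · exact row_row (fun h => h1 (by rw [h])) hu hu'
  · exact row_row (fun h => h2 (by rw [h])) hu hw
  · exact col_col (fun h => h3 (by rw [h])) hu' hw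
  · exact row_row (fun h => h3 (by rw [h])) hu' hw
  · exact col_col (fun h => h2 (by rw [h])) hu hw
  · exact col_col (fun h => h1 (by rw [h])) hu hu'
  · exact col_col (fun h => h1 (by rw [h])) hu hu'

lemma two_span {u u' : Option R ⊕ Option C} (h1 : u ≠ u')
    {y : (R × C → F) × F} (hu : y ∈ Uhat (Yv u)) (hu' : y ∈ Uhat (Yv u')) (hy : y ≠ 0) :
    ∃ i j, ({u, u'} : Finset (Option R ⊕ Option C)) = {Sum.inl i, Sum.inr j} ∧
      ∃ s : F, y = s • ((nv i j, 0) : (R × C → F) × F) := by
  rcases u with i | j <;> rcases u' with i' | j'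
  · exact absurd (row_row (fun h => h1 (by rw [h])) hu hu') hy
  · exact ⟨i, j', rfl, row_col hu hu'⟩
  · exact ⟨i', j, Finset.pair_comm _ _, row_col hu' hu⟩
  · exact absurd (col_col (fun h => h1 (by rw [h])) hu hu') hy

end Grid

end Pool.Agent.Lib.MP_e850aa_co
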