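import Pool.Agent.Lib.MP_e850aa_co.SDefs

set_option autoImplicit false

namespace Pool.Agent.Lib.MP_e850aa_co

/-- The scheme is homomorphic: the sample space and the sets of shares are groups (not
necessarily abelian), the shares are group homomorphisms and the distribution is uniform. -/
def Scheme.IsHomomorphic {Q : Type} (s : Scheme Q) : Prop :=
  ∃ (_ : Group s.E) (_ : ∀ i, Group (s.S i)),
    (∀ i x y, s.sh i (x * y) = s.sh i x * s.sh i y) ∧ ∀ x y, s.p x = s.p y

end Pool.Agent.Lib.MP_e850aa_co
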