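import Pool.Agent.Lib.MP_e850aa_co.Normal
import Pool.Agent.Lib.MP_e850aa_co.HomDefs

set_option autoImplicit false
set_option linter.unusedSectionVars false

namespace Pool.Agent.Lib.MP_e850aa_co

open Finset Filter Topology

section Ent

variable {Q : Type} [DecidableEq Q]

lemma isHom_of_linear (s : Scheme Q) (K : Type) [Field K] (hs : s.IsLinear K) :
    s.IsHomomorphic := by
  obtain ⟨i1, i2, i3, i4, hl, hp⟩ := hs
  exact ⟨(inferInstance : Group (Multiplicative s.E)),
    fun i => (inferInstance : Group (Multiplicative (s.S i))), fun i x y => (hl i).map_add x y, hp⟩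

lemma homFun_of_isHom (s : Scheme Q) (hs : s.IsHomomorphic) : HomFun s.H := by
  classical
  obtain ⟨i1, i2, hl, hp⟩ := hs
  let _ := s.finE
  let f : ∀ i, s.E →* s.S i := fun i => MonoidHom.mk' (s.sh i) (hl i)
  refine ⟨s.E, i1, inferInstance, fun i => (f i).ker, fun i => inferInstance, fun X => ?_⟩
  set Z : Subgroup s.E := ⨅ i ∈ X, (f i).ker with hZ
  have hpos : (0 : ℝ) < Z.index := by exact_mod_cast Nat.pos_of_ne_zero (idx_ne Z)
  refine entropy_uniform s.p _ hp s.total _ hpos fun x => ?_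
  have hmem : ∀ y, y ∈ Z ↔ ∀ i ∈ X, f i y = 1 := by
    intro y
    simp [hZ, Subgroup.mem_iInf]
  have h1 : Nat.card {y // (fun i : X => s.sh i y) = fun i : X => s.sh i x} = Nat.card Z := by
    refine Nat.card_congr ((Equiv.divRight x).subtypeEquiv fun y => ?_)
    rw [Equiv.divRight_apply, hmem, funext_iff]
    simp only [map_div, div_eq_one, Subtype.forall]
    rfl
  rw [h1, ← Nat.card_eq_fintype_card, ← Subgroup.card_mul_index Z]
  push_cast
  rfl

lemma abLike_of_linLike {Ω A : Type} {val : Q → Ω → A} {K W : Type} [Field K] [AddCommGroup W]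
    [Module K W] {U : Q → Submodule K W} (h : LinLike val U) :
    AbLike val fun a => (U a).toAddSubgroup := by
  obtain ⟨hD, hN⟩ := h
  refine ⟨fun X e h w hw => hD X e h (by simpa [Submodule.mem_iInf] using hw),
    fun X e h t => ?_, fun X e h => ?_⟩
  · have : t ∈ (⨅ i ∈ X, U i) ⊔ U e := by rw [(hN X e h).1]; trivial
    obtain ⟨z, hz, h', hh, rfl⟩ := Submodule.mem_sup.1 this
    exact ⟨z, h', by simpa [Submodule.mem_iInf] using hz, hh, rfl⟩
  · obtain ⟨t, ht, ht'⟩ := SetLike.not_le_iff_exists.1 (hN X e h).2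
    exact ⟨t, by simpa [Submodule.mem_iInf] using ht, ht'⟩

end Ent

section Fin3

variable {Q Ω A : Type} [DecidableEq Q] [Fintype Q] [Fintype Ω] [Fintype A]

theorem final3 [Nonempty Ω] {val : Q → Ω → A} (M : Matroid Q) (hE : M.E = Set.univ)
    (hd : 1 < Fintype.card A)
    (hρ : ∀ (X : Finset Q) (ω : Ω),
      (fib val X ω).card * Fintype.card A ^ (M.eRk (X : Set Q)).toNat = Fintype.card Ω)
    (D j : Q) (hne : j ≠ D) (hD : ¬ Det val {j} D) (hj : ¬ Det val ∅ j)
    (conn : ∀ e, e ≠ D → ∃ B, D ∉ B ∧ ¬ Det val B D ∧ Det val (insert e B) D)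
    (hab : ∀ (W : Type) [AddCommGroup W] (U : Q → AddSubgroup W), ¬ AbLike val U) :
    ∃ (G : Set (Finset Q)) (s : Scheme Q) (c : ℝ),
      ConnectedAccess D G ∧ s.Realizes D G ∧ s.IsMatroidOf D M ∧ 0 < c ∧
      ∀ t : Scheme Q, (t.IsHomomorphic ∨ ∃ (K : Type) (_ : Field K), t.IsLinear K) →
        (∀ D' : Q, ¬ t.IsMatroidOf D' M) ∧
        (∀ lam : ℝ, 0 < lam → ∃ X : Finset Q,
          c * lam ≤ |t.H X - lam * ((M.eRk (X : Set Q)).toNat : ℝ)|) ∧
        (0 < t.H {D} →
          (∀ B : Finset Q, D ∉ B → (B ∈ G → t.H (insert D B) - t.H B ≤ c * t.H {D}) ∧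
            (B ∉ G → (1 - c) * t.H {D} ≤ t.H (insert D B) - t.H B)) →
          ∃ i : Q, i ≠ D ∧ (1 + c) * t.H {D} ≤ t.H {i}) := by
  classical
  have hD0 : ¬ Det val ∅ D := fun h => hD (h.mono (Finset.empty_subset _))
  obtain ⟨G, s, hc, hR, hM, -⟩ := final2 M hE hd hρ D j hne hD0 hj conn
    fun K W _ _ _ U h => hab W _ (abLike_of_linLike h)
  set ρ : Finset Q → ℕ := fun X => (M.eRk (X : Set Q)).toNat with hρdef
  have hfin : ∀ X : Finset Q, M.eRk (X : Set Q) = (ρ X : ℕ∞) := by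
    intro X
    refine (ENat.natCast_toNat ?_).symm
    exact ((M.eRk_le_encard _).trans_lt X.finite_toSet.encard_lt_top).ne
  have hP : Poly fun X => (ρ X : ℝ) := poly_of_matroid M
  have h0 : ρ ∅ = 0 := by simp [hρdef]
  have hnd1 : ∀ X e, ¬ Det val X e → (ρ (insert e X) : ℝ) = ρ X + 1 := by
    intro X e he
    have h2 : ρ X + 1 ≤ ρ (insert e X) := rk_lt_of_not_det (ρ := ρ) hd hρ he
    have h3 : (ρ X : ℝ) + 1 ≤ ρ (insert e X) := by exact_mod_cast h2
    exact le_antisymm (hP.inc1 X e) h3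
  have hdd : ∀ X e, Det val X e → (ρ (insert e X) : ℝ) = ρ X := by
    intro X e he
    rw [rk_eq_of_det (ρ := ρ) hd hρ he]
  have hnd : ∀ X e, ¬ Det val X e → (ρ (insert e X) : ℝ) = ρ X + 1 ∧ (ρ {e} : ℝ) = 1 := by
    intro X e he
    refine ⟨hnd1 X e he, ?_⟩
    have := hnd1 ∅ e fun h => he (h.mono (Finset.empty_subset _))
    simpa [h0] using this
  have exch : ∀ B a b, ¬ Det val B b → Det val (insert a B) b → Det val (insert b B) a := by
    intro B a b h1 h2
    by_contra h3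
    have e1 := hnd1 _ _ h3
    have e2 := hnd1 _ _ h1
    have e3 := hdd _ _ h2
    have e4 := hP.inc1 B a
    rw [Finset.insert_comm] at e3
    linarith
  have trans : ∀ B a b, Det val B a → Det val (insert a B) b → Det val B b := by
    intro B a b h1 h2 ω ω' hω
    refine h2 ω ω' fun i hi => ?_
    rcases Finset.mem_insert.1 hi with rfl | hi
    · exact h1 ω ω' hω
    · exact hω i hi
  have hY : ∀ e, ∃ Y Y', ¬ Det val Y e ∧ ¬ Det val Y' e ∧ Det val (Y ∪ Y') e := by
    intro e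
    by_cases he : Det val {D} e
    · have he0 : ¬ Det val ∅ e := by
        by_cases heD : e = D
        · rwa [heD]
        · obtain ⟨B, -, hB1, hB2⟩ := conn e heD
          exact fun h => hB1 (trans B e D (h.mono (Finset.empty_subset _)) hB2)
      have he' : Det val {e} D := by simpa using exch ∅ D e he0 (by simpa using he)
      obtain ⟨B, -, hB1, hB2⟩ := conn j hne
      refine ⟨{j}, B, fun h => hD (trans _ e D h (he'.mono (by simp))),
        fun h => hB1 (trans _ e D h (he'.mono (by simp))), ?_⟩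
      exact trans _ D e (by simpa using hB2) (he.mono (by simp))
    · have heD : e ≠ D := by
        rintro rfl
        exact he fun ω ω' h => h _ (Finset.mem_singleton_self _)
      obtain ⟨B, -, hB1, hB2⟩ := conn e heD
      exact ⟨{D}, B, he, fun h => hB1 (trans B e D h hB2), by simpa using exch B e D hB1 hB2⟩
  have hnt := not_tendsto_hom (ρ := fun X => (ρ X : ℝ)) hdd hnd hab hY
  have hsH : ∀ X : Finset Q, s.H X = ρ X * s.H {D} := by
    intro X
    obtain ⟨n, hn, hn'⟩ := hM.2.2 X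
    rw [hfin] at hn
    have hn2 : ρ X = n := by exact_mod_cast hn
    rw [hn2, ← hn', div_mul_cancel₀ _ hR.1.ne']
  obtain ⟨c1, hc1, k1⟩ := gapA hnt
  obtain ⟨c2, hc2, k2⟩ := gapB (fun _ h => HomFun.pol h) hnt hP (by simp [h0]) (fun X e => by
      by_cases h : Det val X e
      · exact Or.inl (hdd X e h)
      · exact Or.inr (hnd1 X e h)) D (fun e he => by
      obtain ⟨B, hB, hB1, hB2⟩ := conn e he
      refine ⟨B, hB, ?_, hdd _ _ hB2⟩
      rw [hnd1 B D hB1]
      linarith) G (fun B hB => by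
      obtain ⟨e1, e2⟩ := hR.2 B hB
      rw [hsH (insert D B), hsH B, ← sub_mul] at e1 e2
      exact ⟨fun h => (mul_eq_zero.1 (e1 h)).resolve_right hR.1.ne',
        fun h => (mul_eq_right₀ hR.1.ne').1 (e2 h)⟩)
  refine ⟨G, s, min c1 c2, hc, hR, hM, lt_min hc1 hc2, fun t ht => ?_⟩
  have hF : HomFun t.H := homFun_of_isHom t
    (ht.elim id fun ⟨K, _, h⟩ => isHom_of_linear t K h)
  refine ⟨fun D' ⟨hid, _, hX⟩ => ?_, fun lam hlam => ?_, fun hpos hB => ?_⟩
  · have hne0 : t.H {D'} ≠ 0 := by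
      intro h'
      unfold Scheme.Ideal at hid
      rw [h', zero_div] at hid
      exact zero_ne_one hid
    have hge : 0 ≤ t.H {D'} := by
      have := hF.pol.inc0 ∅ D'
      rwa [hF.pol.emp, insert_empty_eq] at this
    have hpos : 0 < t.H {D'} := lt_of_le_of_ne hge hne0.symm
    obtain ⟨X, hX'⟩ := k1 _ hF _ hpos
    obtain ⟨n, hn, hn'⟩ := hX X
    rw [hfin] at hn
    have hn2 : ρ X = n := by exact_mod_cast hn
    rw [hn2, ← hn', mul_div_cancel₀ _ hne0, sub_self, abs_zero] at hX'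
    exact absurd hX' (not_le.2 (mul_pos hc1 hpos))
  · obtain ⟨X, hX⟩ := k1 _ hF lam hlam
    exact ⟨X, (mul_le_mul_of_nonneg_right (min_le_left _ _) hlam.le).trans hX⟩
  · have hm := mul_le_mul_of_nonneg_right (min_le_right c1 c2) hpos.le
    obtain ⟨i, hi, hi'⟩ := k2 _ hF hpos fun B hB' =>
      ⟨fun h => ((hB B hB').1 h).trans hm, fun h => by linarith [(hB B hB').2 h]⟩
    exact ⟨i, hi, by linarith⟩

end Fin3

theorem main_gap : ∃ (Q : Type) (_ : Fintype Q) (_ : DecidableEq Q) (D : Q) (M : Matroid Q)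
    (G : Set (Finset Q)) (s : Scheme Q) (c : ℝ),
      ConnectedAccess D G ∧ s.Realizes D G ∧ s.IsMatroidOf D M ∧ 0 < c ∧
      ∀ t : Scheme Q, (t.IsHomomorphic ∨ ∃ (K : Type) (_ : Field K), t.IsLinear K) →
        (∀ D' : Q, ¬ t.IsMatroidOf D' M) ∧
        (∀ lam : ℝ, 0 < lam → ∃ X : Finset Q,
          c * lam ≤ |t.H X - lam * ((M.eRk (X : Set Q)).toNat : ℝ)|) ∧
        (0 < t.H {D} →
          (∀ B : Finset Q, D ∉ B → (B ∈ G → t.H (insert D B) - t.H B ≤ c * t.H {D}) ∧
            (B ∉ G → (1 - c) * t.H {D} ≤ t.H (insert D B) - t.H B)) →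
          ∃ i : Q, i ≠ D ∧ (1 + c) * t.H {D} ≤ t.H {i}) := by
  classical
  obtain ⟨C, _, _, hC⟩ : ∃ (C : Type) (_ : DecidableEq C) (_ : Fintype C), 23 ≤ Fintype.card C :=
    ⟨Fin 23, inferInstance, inferInstance, by simp⟩
  have : Nontrivial C := Fintype.one_lt_card_iff_nontrivial.1 (by omega)
  obtain ⟨F, _, _, _, hF⟩ : ∃ (F : Type) (_ : Field F) (_ : CharP F 2) (_ : Fintype F),
      Fintype.card (Finset (Vx C) × (Finset (Finset (Ix C)) × Finset (Vx C))) + 1
        < Fintype.card F := by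
    generalize Fintype.card (Finset (Vx C) × (Finset (Finset (Ix C)) × Finset (Vx C))) = m
    have : Fact (Nat.Prime 2) := ⟨Nat.prime_two⟩
    let _ : Fintype (GaloisField 2 (m + 1)) := Fintype.ofFinite _
    refine ⟨GaloisField 2 (m + 1), inferInstance, inferInstance, inferInstance, ?_⟩
    rw [← Nat.card_eq_fintype_card, GaloisField.card 2 (m + 1) (by omega)]
    exact Nat.lt_two_pow_self
  obtain ⟨L, hL⟩ := exists_gen hF
  obtain ⟨κ, _, Bc, hB, hbrk⟩ := exists_pieces hC hL.1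
  obtain ⟨M, hE, hρ⟩ := exists_matroid (sys_model hL hB hbrk) Fintype.one_lt_card indx_empty
    indx_subset (indx_det hL hB hbrk)
  let P : Qx C → Prop := fun a => a ≠ Sum.inl ∅
  have hP : ∀ a, ¬ P a → ∀ ω ω', valx L Bc a ω' = valx L Bc a ω := by
    intro a ha ω ω'
    obtain rfl : a = Sum.inl ∅ := not_not.1 ha
    funext c
    simp [valx, vec_dot]
  obtain ⟨c0⟩ : Nonempty C := inferInstance
  have hj : P (Sum.inl {(0, c0)}) := by simp [P]
  refine ⟨{a // P a}, inferInstance, inferInstance, ⟨Sum.inr (Sum.inl none), by simp [P]⟩,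
    M.comap Subtype.val, final3 (val := fun a : {a // P a} => valx L Bc a) _ (by simp [hE])
      Fintype.one_lt_card (fun X ω => ?_) _ ⟨Sum.inl {(0, c0)}, hj⟩ (by simp)
      (fun h => ?_) (fun h => ?_) (fun e he => ?_)
      (fun W _ U h => not_abLike hL.1 hB W _ (abLike_extend hP U h))⟩
  · have e1 : fib (fun a : {a // P a} => valx L Bc a) X ω
        = fib (valx L Bc) (X.map (Function.Embedding.subtype _)) ω := by
      ext ω'
      rw [mem_fib, mem_fib, agree_map]
    rw [e1, Matroid.eRk_comap, ← hρ (X.map (Function.Embedding.subtype _)) ω, Finset.coe_map]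
    rfl
  · refine not_det_vx (L := L) (Bc := Bc) (fun _ => True) (Sum.inl none)
      ((det_subtype hP _ ⟨_, by simp [P]⟩).1 (h.mono fun x hx => ?_))
    rw [Finset.mem_singleton.1 hx, Finset.mem_subtype]
    simp [gs]
  · refine not_det_gs (L := L) (Bc := Bc) (fun _ => False) {(0, c0)} (fun _ => 1)
      (fun _ h => h.elim) (by rw [vec_single_dot]; exact one_ne_zero)
      ((det_subtype hP _ ⟨_, hj⟩).1 (h.mono (Finset.empty_subset _)))
  · obtain ⟨B, hB1, hB2, hB3⟩ := conn_model hL hB hbrk e.1 (fun h => he (Subtype.ext h)) e.2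
    refine ⟨B.subtype P, fun h => hB1 (Finset.mem_subtype.1 h),
      fun h => hB2 ((det_subtype hP B _).1 h), ?_⟩
    refine ((det_subtype hP (insert e.1 B) _).2 hB3).mono fun x hx => ?_
    rcases Finset.mem_insert.1 (Finset.mem_subtype.1 hx) with h | h
    · rw [Subtype.ext h]
      exact Finset.mem_insert_self _ _
    · exact Finset.mem_insert_of_mem (Finset.mem_subtype.2 h)

end Pool.Agent.Lib.MP_e850aa_co
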