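import Pool.Agent.Lib.MP_e850aa_co.Piece2

set_option autoImplicit false
set_option linter.unusedSectionVars false

namespace Pool.Agent.Lib.MP_e850aa_co

open Finset Module

/-- Coordinates of the hyperplane at infinity. -/
abbrev Ix (C : Type) : Type := Fin 3 × C

/-- Rows and columns of the grid. -/
abbrev Vx (C : Type) : Type := Option (Fin 3) ⊕ Option C

section Model

variable {F C : Type} [Field F] [CharP F 2] [DecidableEq C] [Fintype C]

/-- The indicator functional of a set of coordinates. -/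
def vec (g : Finset (Ix C)) : Ix C → F := fun q => if q ∈ g then 1 else 0

/-- The common kernel of the functionals in `P`, cut down to the directions of `T`. -/
def Kp (P : Finset (Finset (Ix C))) (T : Finset (Vx C)) : Submodule F ((Ix C → F) × F) where
  carrier := {y | (∀ g ∈ P, vec g ⬝ᵥ y.1 = 0) ∧ ∀ z ∈ T, y ∈ Uhat (Yv z)}
  add_mem' := by
    rintro a b ⟨ha, ha'⟩ ⟨hb, hb'⟩
    exact ⟨fun g hg => by rw [Prod.fst_add, dotProduct_add, ha g hg, hb g hg, add_zero],
      fun z hz => Submodule.add_mem _ (ha' z hz) (hb' z hz)⟩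
  zero_mem' := ⟨fun g _ => by simp, fun z _ => Submodule.zero_mem _⟩
  smul_mem' := by
    rintro c a ⟨ha, ha'⟩
    exact ⟨fun g hg => by rw [Prod.smul_fst, dotProduct_smul, ha g hg, smul_zero],
      fun z hz => Submodule.smul_mem _ c (ha' z hz)⟩

lemma mem_Kp {P : Finset (Finset (Ix C))} {T : Finset (Vx C)} {y : (Ix C → F) × F} :
    y ∈ Kp P T ↔ (∀ g ∈ P, vec g ⬝ᵥ y.1 = 0) ∧ ∀ z ∈ T, y ∈ Uhat (Yv z) := Iff.rfl

lemma mem_Kp0 {P : Finset (Finset (Ix C))} {y : (Ix C → F) × F} :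
    y ∈ Kp P ∅ ↔ ∀ g ∈ P, vec g ⬝ᵥ y.1 = 0 := by
  simp [mem_Kp]

/-- Genericity of the linear parts. -/
def Gen (L : Vx C → Ix C → F) : Prop :=
  (∀ u, L u ∈ (Yv u : Submodule F (Ix C → F))) ∧
  ∀ (P : Finset (Finset (Ix C))) (T S : Finset (Vx C)),
    finrank F (Zs L S (Kp P T)) + S.card ≤ finrank F (Kp P T : Submodule F ((Ix C → F) × F)) ∨
      ∃ u ∈ S, Zs L S (Kp P T) ≤ Uhat (Yv u)

lemma exists_gen [Fintype F]
    (hF : Fintype.card (Finset (Vx C) × (Finset (Finset (Ix C)) × Finset (Vx C))) + 1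
      < Fintype.card F) : ∃ L : Vx C → Ix C → F, Gen L := by
  obtain ⟨L, h1, h2⟩ := generic (F := F) (fun u : Vx C => Yv u)
    (fun t : Finset (Finset (Ix C)) × Finset (Vx C) => Kp t.1 t.2) hF
  exact ⟨L, h1, fun P T S => h2 (P, T) S⟩

lemma Zs_bot [Nontrivial C] {L : Vx C → Ix C → F} (hL : Gen L) (P : Finset (Finset (Ix C)))
    (S : Finset (Vx C)) (hr : finrank F (Kp P ∅ : Submodule F ((Ix C → F) × F)) = S.card) :
    Zs L S (Kp P ∅) = ⊥ ∨
      ∃ i j, S = {Sum.inl i, Sum.inr j} ∧ ∀ g ∈ P, (vec g : Ix C → F) ⬝ᵥ nv i j = 0 := by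
  by_cases hZ : Zs L S (Kp P ∅) = ⊥
  · exact Or.inl hZ
  right
  obtain ⟨y, hy, hy0⟩ := Submodule.exists_mem_ne_zero_of_ne_bot hZ
  have hpos : ∀ Z : Submodule F ((Ix C → F) × F), y ∈ Z → 0 < finrank F Z := by
    intro Z hyZ
    rw [Module.finrank_pos_iff_exists_ne_zero]
    exact ⟨⟨y, hyZ⟩, fun h => hy0 (congrArg Subtype.val h)⟩
  rcases hL.2 P ∅ S with h | ⟨u, hu, h⟩
  · have := hpos _ hy
    omega
  have hyu := h hy
  have hy1 : y ∈ Zs L (S.erase u) (Kp P {u}) :=
    ⟨⟨hy.1.1, fun z hz => by rw [Finset.mem_singleton.1 hz]; exact hyu⟩,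
      fun w hw => hy.2 w (Finset.mem_of_mem_erase hw)⟩
  rcases hL.2 P {u} (S.erase u) with h' | ⟨u', hu', h'⟩
  · exfalso
    have hlt : (Kp P {u} : Submodule F ((Ix C → F) × F)) < Kp P ∅ := by
      refine lt_of_le_of_ne (fun z hz => mem_Kp0.2 hz.1) fun heq => ?_
      have h01 : ((0, 1) : (Ix C → F) × F) ∈ Kp P ∅ := mem_Kp0.2 fun g _ => by simp
      rw [← heq] at h01
      exact one_ne_zero (h01.2 u (Finset.mem_singleton_self u)).1
    have h1 := Submodule.finrank_lt_finrank_of_lt hlt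
    have h2 := hpos _ hy1
    have h3 := Finset.card_erase_add_one hu
    omega
  have hyu' := h' hy1
  have hne : u ≠ u' := (Finset.ne_of_mem_erase hu').symm
  obtain ⟨i, j, hij, s, hs⟩ := two_span hne hyu hyu' hy0
  have hs0 : s ≠ 0 := by
    rintro rfl
    exact hy0 (by rw [hs, zero_smul])
  refine ⟨i, j, ?_, fun g hg => ?_⟩
  · have hsub : ({u, u'} : Finset (Vx C)) ⊆ S := by
      intro w hw
      rcases Finset.mem_insert.1 hw with rfl | hw
      · exact hu
      · rw [Finset.mem_singleton.1 hw]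
        exact Finset.mem_of_mem_erase hu'
    have hy2 : y ∈ Zs L (S \ {u, u'}) (Kp P {u, u'}) := by
      refine ⟨⟨hy.1.1, fun z hz => ?_⟩, fun w hw => hy.2 w (Finset.mem_sdiff.1 hw).1⟩
      rcases Finset.mem_insert.1 hz with rfl | hz
      · exact hyu
      · rw [Finset.mem_singleton.1 hz]
        exact hyu'
    rcases hL.2 P {u, u'} (S \ {u, u'}) with h'' | ⟨w, hw, h''⟩
    · have hle : finrank F (Kp P {u, u'} : Submodule F ((Ix C → F) × F)) ≤ 1 := by
        have : (Kp P {u, u'} : Submodule F ((Ix C → F) × F))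
            ≤ Submodule.span F {((nv i j, 0) : (Ix C → F) × F)} := by
          intro z hz
          rw [hij] at hz
          obtain ⟨t, ht⟩ := row_col (hz.2 (Sum.inl i) (by simp)) (hz.2 (Sum.inr j) (by simp))
          rw [Submodule.mem_span_singleton]
          exact ⟨t, ht.symm⟩
        refine (Submodule.finrank_mono this).trans ?_
        exact (finrank_span_le_card _).trans (by simp)
      have h2 := hpos _ hy2
      have h3 : (S \ {u, u'}).card = 0 := by omega
      rw [Finset.card_eq_zero, Finset.sdiff_eq_empty_iff_subset] at h3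
      rw [← hij]
      exact Finset.Subset.antisymm h3 hsub
    · exfalso
      have hw' := (Finset.mem_sdiff.1 hw).2
      simp only [Finset.mem_insert, Finset.mem_singleton, not_or] at hw'
      exact hy0 (three_zero hne (Ne.symm hw'.1) (Ne.symm hw'.2) hyu hyu' (h'' hy2))
  · have := hy.1.1 g hg
    rw [hs, Prod.smul_fst, dotProduct_smul, smul_eq_mul] at this
    exact (mul_eq_zero.1 this).resolve_left hs0

/-- The cyclic system attached to `(S, P)` has only the trivial solution. -/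
def Brk {κ : ℕ} (L : Vx C → Ix C → F) (Bc : ZMod κ → Vx C → (Ix C → F) → F) : Prop :=
  ∀ (S : Finset (Vx C)) (P : Finset (Finset (Ix C))), Zs L S (Kp P ∅) = ⊥ →
    ∀ (x v : ZMod κ → Ix C → F) (δ : ZMod κ → F), (∀ c, ∀ g ∈ P, vec g ⬝ᵥ x c = 0) →
      (∀ c, ∀ u ∈ S, δ c + L u ⬝ᵥ x (c + 1) + (Bc c u (v c + x c) - Bc c u (v c)) = 0) →
      ∀ c, x c = 0 ∧ δ c = 0

lemma exists_pieces (hC : 23 ≤ Fintype.card C) {L : Vx C → Ix C → F}
    (hL : ∀ u, L u ∈ (Yv u : Submodule F (Ix C → F))) :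
    ∃ (κ : ℕ) (_ : NeZero κ) (Bc : ZMod κ → Vx C → (Ix C → F) → F),
      (∀ c, Piece (Bc c)) ∧ Brk L Bc := by
  have : Nontrivial C := Fintype.one_lt_card_iff_nontrivial.1 (by omega)
  obtain ⟨c0, c1, hc⟩ := exists_pair_ne C
  obtain ⟨BA, EA, hBA, hEA, hA⟩ := pieceA (F := F) c0 c1 hc
  let W : Finset (Vx C) → Finset (Vx C) × Finset (Finset (Ix C)) → Submodule F (Ix C → F) :=
    fun E t => (Zs L (t.1 \ E) (Kp t.2 ∅)).map (LinearMap.fst F _ _)
  have hW : ∀ E t, Zs L t.1 (Kp t.2 ∅) = ⊥ → finrank F (W E t) ≤ E.card := fun E t h =>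
    (Submodule.finrank_map_le _ _).trans (finrank_Zs_sdiff L t.1 E _ h)
  have hB : ∀ t : Finset (Vx C) × Finset (Finset (Ix C)), ∃ B : Vx C → (Ix C → F) → F, Piece B ∧
      (Zs L t.1 (Kp t.2 ∅) = ⊥ → ∀ u, u ≠ Sum.inl none → ∀ x ∈ W EA t, ∀ v,
        B u (v + x) = B u v) := by
    intro t
    by_cases h : Zs L t.1 (Kp t.2 ∅) = ⊥
    · obtain ⟨j0, hj0⟩ := pieceB hC (W EA t) ((hW EA t h).trans hEA)
      obtain ⟨B, h1, h2, -⟩ := hj0 0 (Submodule.zero_mem _)
      exact ⟨B, h1, fun _ => h2⟩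
    · exact ⟨BA, hBA, fun h' => absurd h' h⟩
  have hC' : ∀ t : Finset (Vx C) × Finset (Finset (Ix C)), ∃ B : Vx C → (Ix C → F) → F, Piece B ∧
      (Zs L t.1 (Kp t.2 ∅) = ⊥ → ∀ u ∈ t.1, ∀ x ∈ W {Sum.inl none} t, ∀ v,
        B u (v + x) = B u v) := by
    intro t
    by_cases h : Zs L t.1 (Kp t.2 ∅) = ⊥
    · obtain ⟨B, h1, h2⟩ := pieceC hC (W {Sum.inl none} t) (by simpa using hW {Sum.inl none} t h)
      refine ⟨B, h1, fun _ u hu => h2 u fun hu' hn => ?_⟩
      subst hu'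
      obtain ⟨y, hy, hyn⟩ := Submodule.mem_map.1 hn
      have hy1 : y.1 = nv none none := hyn
      have h3 := hy.2 (Sum.inr none) (Finset.mem_sdiff.2 ⟨hu, by simp⟩)
      rw [lhat_apply, hy1, hL _ none none (Or.inr rfl), zero_add] at h3
      have h4 : y ∈ Zs L t.1 (Kp t.2 ∅) := by
        refine ⟨hy.1, fun w hw => ?_⟩
        by_cases hw' : w = Sum.inl none
        · subst hw'
          rw [lhat_apply, hy1, hL _ none none (Or.inl rfl), h3, add_zero]
        · exact hy.2 w (Finset.mem_sdiff.2 ⟨hw, by simpa using hw'⟩)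
      rw [h, Submodule.mem_bot] at h4
      rw [h4] at hy1
      exact nv_ne_zero none none hy1.symm
    · exact ⟨BA, hBA, fun h' => absurd h' h⟩
  choose BB hBB hBB' using hB
  choose BC hBC hBC' using hC'
  obtain ⟨m, ⟨ε⟩⟩ := Finite.exists_equiv_fin (Finset (Vx C) × Finset (Finset (Ix C)))
  let en : ℕ → Finset (Vx C) × Finset (Finset (Ix C)) := fun k =>
    if h : k < m then ε.symm ⟨k, h⟩ else (∅, ∅)
  let pc : ℕ → Vx C → (Ix C → F) → F := fun n =>
    if n % 3 = 0 then BA else if n % 3 = 1 then BB (en (n / 3)) else BC (en (n / 3))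
  have hm : 0 < m := (ε (∅, ∅)).pos
  have hκ : NeZero (3 * m) := ⟨by omega⟩
  refine ⟨3 * m, hκ, fun c => pc c.val, fun c => ?_, ?_⟩
  · simp only [pc]
    split_ifs
    · exact hBA
    · exact hBB _
    · exact hBC _
  intro S P hZ x v δ hx heq
  have step : ∀ (c : ZMod (3 * m)) (E : Finset (Vx C)),
      (∀ u ∈ S, u ∉ E → pc c.val u (v c + x c) = pc c.val u (v c)) →
      ((x (c + 1), δ c) : (Ix C → F) × F) ∈ Zs L (S \ E) (Kp P ∅) := by
    intro c E h
    refine ⟨mem_Kp0.2 (hx (c + 1)), fun u hu => ?_⟩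
    have h1 := heq c u (Finset.mem_sdiff.1 hu).1
    simp only at h1
    rw [h u (Finset.mem_sdiff.1 hu).1 (Finset.mem_sdiff.1 hu).2, sub_self, add_zero] at h1
    rw [lhat_apply, add_comm]
    exact h1
  have step0 : ∀ c : ZMod (3 * m), (∀ u ∈ S, pc c.val u (v c + x c) = pc c.val u (v c)) →
      x (c + 1) = 0 ∧ δ c = 0 := by
    intro c h
    have := step c ∅ fun u hu _ => h u hu
    rw [Finset.sdiff_empty, hZ, Submodule.mem_bot, Prod.mk_eq_zero] at this
    exact this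
  let k : ℕ := (ε (S, P)).val
  have hk : k < m := (ε (S, P)).2
  have hen : en k = (S, P) := by
    simp only [en, hk, dif_pos]
    exact ε.symm_apply_apply (S, P)
  have hv : ∀ r : ℕ, r < 3 → ((3 * k + r : ℕ) : ZMod (3 * m)).val = 3 * k + r := fun r hr =>
    ZMod.val_cast_of_lt (by omega)
  have p0 : pc (3 * k + 0) = BA := by
    have : (3 * k + 0) % 3 = 0 := by omega
    simp only [pc, this, if_true]
  have p1 : pc (3 * k + 1) = BB (S, P) := by
    have e1 : (3 * k + 1) % 3 = 1 := by omega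
    have e2 : (3 * k + 1) / 3 = k := by omega
    simp only [pc, e1, e2, hen, if_true, one_ne_zero, if_false]
  have p2 : pc (3 * k + 2) = BC (S, P) := by
    have e1 : (3 * k + 2) % 3 = 2 := by omega
    have e2 : (3 * k + 2) / 3 = k := by omega
    simp only [pc, e1, e2, hen]
    rw [if_neg (by omega), if_neg (by omega)]
  have a1 : x ((3 * k + 1 : ℕ) : ZMod (3 * m)) ∈ W EA (S, P) := by
    have := step ((3 * k + 0 : ℕ) : ZMod (3 * m)) EA fun u _ hu => by
      rw [hv 0 (by omega), p0, hA u hu, hA u hu]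
    refine Submodule.mem_map.2 ⟨_, this, ?_⟩
    simp
  have a2 : x ((3 * k + 2 : ℕ) : ZMod (3 * m)) ∈ W {Sum.inl none} (S, P) := by
    have := step ((3 * k + 1 : ℕ) : ZMod (3 * m)) {Sum.inl none} fun u _ hu => by
      rw [hv 1 (by omega), p1]
      exact hBB' (S, P) hZ u (by simpa using hu) _ a1 _
    refine Submodule.mem_map.2 ⟨_, this, ?_⟩
    simp only [LinearMap.fst_apply]
    congr 1
    push_cast
    ring
  have a3 : x (((3 * k + 2 : ℕ) : ZMod (3 * m)) + 1) = 0 := by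
    refine (step0 _ fun u hu => ?_).1
    rw [hv 2 (by omega), p2]
    exact hBC' (S, P) hZ u hu _ a2 _
  have prop : ∀ c, x c = 0 → x (c + 1) = 0 ∧ δ c = 0 := fun c hc =>
    step0 c fun u _ => by rw [hc, add_zero]
  have all : ∀ n : ℕ, x (((3 * k + 2 : ℕ) : ZMod (3 * m)) + 1 + n) = 0 := by
    intro n
    induction n with
    | zero => simpa using a3
    | succ n ih =>
      have := (prop _ ih).1
      rwa [Nat.cast_succ n, ← add_assoc]
  have hall : ∀ c, x c = 0 := by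
    intro c
    have := all (c - (((3 * k + 2 : ℕ) : ZMod (3 * m)) + 1)).val
    rwa [ZMod.natCast_zmod_val, add_sub_cancel] at this
  exact fun c => ⟨hall c, (prop c (hall c)).2⟩

end Model

end Pool.Agent.Lib.MP_e850aa_co
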