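import Pool.Agent.Lib.MP_e850aa_co.Model
import Pool.Agent.Lib.MP_e850aa_co.Abstract

set_option autoImplicit false
set_option linter.unusedSectionVars false

namespace Pool.Agent.Lib.MP_e850aa_co

open Finset Module

/-- The ground set: points at infinity and one affine point for each row and column. -/
abbrev Qx (C : Type) : Type := Finset (Ix C) ⊕ Vx C

section Model

variable {F C : Type} [Field F] [CharP F 2] [DecidableEq C] [Fintype C]

/-- The shares. -/
def valx {κ : ℕ} (L : Vx C → Ix C → F) (Bc : ZMod κ → Vx C → (Ix C → F) → F) :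
    Qx C → (ZMod κ → (Ix C → F) × F) → ZMod κ → F
  | Sum.inl g, ω => fun c => vec g ⬝ᵥ (ω c).1
  | Sum.inr u, ω => fun c => (ω c).2 + L u ⬝ᵥ (ω (c + 1)).1 + Bc c u (ω c).1

variable (F) in
/-- The dimension of the kernel of a set of points at infinity. -/
noncomputable def rk (P : Finset (Finset (Ix C))) : ℕ :=
  finrank F (Kp P ∅ : Submodule F ((Ix C → F) × F))

variable (F) in
/-- The independent sets. -/
def Indx (A : Finset (Qx C)) : Prop :=
  rk F A.toLeft + A.toLeft.card = Fintype.card (Ix C) + 1 ∧ A.card ≤ Fintype.card (Ix C) + 1 ∧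
  ¬ ∃ i j, ¬ (i = none ∧ j = none) ∧ A.card = Fintype.card (Ix C) + 1 ∧
    A.toRight = {Sum.inl i, Sum.inr j} ∧ ∀ g ∈ A.toLeft, (vec g : Ix C → F) ⬝ᵥ nv i j = 0

lemma rk_empty : rk F (∅ : Finset (Finset (Ix C))) = Fintype.card (Ix C) + 1 := by
  have : (Kp ∅ ∅ : Submodule F ((Ix C → F) × F)) = ⊤ := by
    rw [eq_top_iff]
    intro y _
    exact mem_Kp0.2 fun g hg => absurd hg (Finset.notMem_empty g)
  rw [rk, this, finrank_top, Module.finrank_prod, Module.finrank_self,
    Module.finrank_fintype_fun_eq_card]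

lemma Kp_insert (g : Finset (Ix C)) (P : Finset (Finset (Ix C))) :
    (Kp (insert g P) ∅ : Submodule F ((Ix C → F) × F))
      = Kp P ∅ ⊓ LinearMap.ker (ghat (vec g)) := by
  ext y
  simp only [mem_Kp0, Submodule.mem_inf, LinearMap.mem_ker, ghat_apply, Finset.forall_mem_insert]
  exact and_comm

lemma rk_le_insert (g : Finset (Ix C)) (P : Finset (Finset (Ix C))) :
    rk F P ≤ rk F (insert g P) + 1 := by
  rw [rk, rk, Kp_insert]
  exact finrank_inf_ker_le _ _

lemma rk_insert_le (g : Finset (Ix C)) (P : Finset (Finset (Ix C))) :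
    rk F (insert g P) ≤ rk F P := by
  rw [rk, rk, Kp_insert]
  exact Submodule.finrank_mono inf_le_left

lemma rk_le_union (D P : Finset (Finset (Ix C))) : rk F P ≤ rk F (D ∪ P) + D.card := by
  induction D using Finset.induction_on with
  | empty => simp
  | insert g D hg ih =>
    have := rk_le_insert (F := F) g (D ∪ P)
    rw [Finset.insert_union, Finset.card_insert_of_notMem hg]
    omega

lemma rk_down {P P' : Finset (Finset (Ix C))} (h : P' ⊆ P)
    (hP : rk F P + P.card = Fintype.card (Ix C) + 1) :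
    rk F P' + P'.card = Fintype.card (Ix C) + 1 := by
  have h1 := rk_le_union (F := F) P' ∅
  have h2 := rk_le_union (F := F) (P \ P') P'
  rw [Finset.union_empty, rk_empty] at h1
  rw [Finset.sdiff_union_of_subset h] at h2
  have h3 := Finset.card_sdiff_add_card_eq_card h
  omega

lemma vec_single_dot (q : Ix C) (x : Ix C → F) : vec {q} ⬝ᵥ x = x q := by
  simp [vec, dotProduct]

lemma exists_ext_left {P : Finset (Finset (Ix C))} (h : 2 ≤ rk F P) :
    ∃ g, g ∉ P ∧ rk F (insert g P) + 1 = rk F P := by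
  have hex : ∃ y ∈ (Kp P ∅ : Submodule F ((Ix C → F) × F)), y.1 ≠ 0 := by
    by_contra hcon
    push Not at hcon
    have : (Kp P ∅ : Submodule F ((Ix C → F) × F))
        ≤ Submodule.span F {((0, 1) : (Ix C → F) × F)} := by
      intro y hy
      rw [Submodule.mem_span_singleton]
      exact ⟨y.2, Prod.ext (by simp [hcon y hy]) (by simp)⟩
    have h1 : rk F P ≤ 1 :=
      (Submodule.finrank_mono this).trans ((finrank_span_le_card _).trans (by simp))
    omega
  obtain ⟨y, hy, hy0⟩ := hex
  obtain ⟨q, hq⟩ := Function.ne_iff.1 hy0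
  have hq' : vec {q} ⬝ᵥ y.1 ≠ 0 := by rwa [vec_single_dot]
  refine ⟨{q}, fun hP => hq' (mem_Kp0.1 hy _ hP), ?_⟩
  have hlt : (Kp (insert {q} P) ∅ : Submodule F ((Ix C → F) × F)) < Kp P ∅ := by
    rw [Kp_insert]
    refine lt_of_le_of_ne inf_le_left fun heq => hq' ?_
    rw [← heq] at hy
    exact hy.2
  have h1 : rk F (insert {q} P) < rk F P := Submodule.finrank_lt_finrank_of_lt hlt
  have h2 := rk_le_insert (F := F) {q} P
  omega

lemma line_of_rk {P : Finset (Finset (Ix C))} (h : rk F P = 2) {n x : Ix C → F} (hn0 : n ≠ 0)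
    (hn : ∀ g ∈ P, vec g ⬝ᵥ n = 0) (hx : ∀ g ∈ P, vec g ⬝ᵥ x = 0) : ∃ s : F, x = s • n := by
  let H : Submodule F ((Ix C → F) × F) := Kp P ∅ ⊓ LinearMap.ker (LinearMap.snd F _ _)
  have hlt : H < Kp P ∅ := by
    refine lt_of_le_of_ne inf_le_left fun heq => ?_
    have h01 : ((0, 1) : (Ix C → F) × F) ∈ Kp P ∅ := mem_Kp0.2 fun g _ => by simp
    rw [← heq] at h01
    exact one_ne_zero (LinearMap.mem_ker.1 h01.2)
  have h1 : finrank F H < rk F P := Submodule.finrank_lt_finrank_of_lt hlt
  have hnH : ((n, 0) : (Ix C → F) × F) ∈ H := ⟨mem_Kp0.2 hn, rfl⟩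
  have hxH : ((x, 0) : (Ix C → F) × F) ∈ H := ⟨mem_Kp0.2 hx, rfl⟩
  have hne : (⟨(n, 0), hnH⟩ : H) ≠ 0 := fun h0 => hn0 (congrArg (fun z : H => z.1.1) h0)
  have h2 : 0 < finrank F H := Module.finrank_pos_iff_exists_ne_zero.2 ⟨_, hne⟩
  have h3 : finrank F H = 1 := by omega
  obtain ⟨c, hc⟩ := exists_smul_eq_of_finrank_eq_one h3 hne ⟨(x, 0), hxH⟩
  exact ⟨c, (congrArg (fun z : H => z.1.1) hc).symm⟩

lemma indx_empty : Indx F (∅ : Finset (Qx C)) := by
  have h0 : (∅ : Finset (Qx C)).toLeft = ∅ := by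
    ext g
    simp
  refine ⟨by rw [h0, rk_empty, Finset.card_empty, add_zero], by simp, ?_⟩
  rintro ⟨i, j, -, h, -⟩
  simp at h

lemma indx_subset ⦃I J : Finset (Qx C)⦄ (hJ : Indx F J) (h : I ⊆ J) : Indx F I := by
  have hc := Finset.card_le_card h
  refine ⟨rk_down (Finset.toLeft_subset_toLeft h) hJ.1, hc.trans hJ.2.1, ?_⟩
  rintro ⟨i, j, h1, h2, h3, h4⟩
  have : I = J := Finset.eq_of_subset_of_card_le h (by have := hJ.2.1; omega)
  subst this
  exact hJ.2.2 ⟨i, j, h1, h2, h3, h4⟩

lemma card_pair_vx (i : Option (Fin 3)) (j : Option C) :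
    ({Sum.inl i, Sum.inr j} : Finset (Vx C)).card = 2 := Finset.card_pair Sum.inl_ne_inr

lemma indx_ext (I : Finset (Qx C)) (hI : Indx F I) (hlt : I.card < Fintype.card (Ix C) + 1) :
    ∃ e, e ∉ I ∧ Indx F (insert e I) := by
  by_cases h : I.toRight.card ≠ 1 ∧ ∃ u, u ∉ I.toRight
  · obtain ⟨h1, u, hu⟩ := h
    have hu' : Sum.inr u ∉ I := fun h' => hu (Finset.mem_toRight.2 h')
    refine ⟨Sum.inr u, hu', ?_, ?_, ?_⟩
    · rw [Finset.toLeft_insert_inr]
      exact hI.1
    · rw [Finset.card_insert_of_notMem hu']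
      omega
    · rintro ⟨i, j, -, -, h3, -⟩
      have := congrArg Finset.card h3
      rw [card_pair_vx, Finset.toRight_insert_inr, Finset.card_insert_of_notMem hu] at this
      omega
  · have hS : 1 ≤ I.toRight.card ∧ I.toRight.card ≠ 2 := by
      by_cases h1 : I.toRight.card = 1
      · omega
      · have h2 : I.toRight = Finset.univ := by
          rw [Finset.eq_univ_iff_forall]
          intro u
          by_contra hu
          exact h ⟨h1, u, hu⟩
        rw [h2, Finset.card_univ, Fintype.card_sum, Fintype.card_option, Fintype.card_fin]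
        omega
    have hc := Finset.card_toLeft_add_card_toRight (u := I)
    have hI1 := hI.1
    obtain ⟨g, hg, hrk⟩ := exists_ext_left (F := F) (P := I.toLeft) (by omega)
    have hg' : Sum.inl g ∉ I := fun h' => hg (Finset.mem_toLeft.2 h')
    refine ⟨Sum.inl g, hg', ?_, ?_, ?_⟩
    · rw [Finset.toLeft_insert_inl, Finset.card_insert_of_notMem hg]
      omega
    · rw [Finset.card_insert_of_notMem hg']
      omega
    · rintro ⟨i, j, -, -, h3, -⟩
      have := congrArg Finset.card h3
      rw [card_pair_vx, Finset.toRight_insert_inl] at this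
      exact hS.2 this

variable {κ : ℕ} {L : Vx C → Ix C → F} {Bc : ZMod κ → Vx C → (Ix C → F) → F}

lemma agree_left {A : Finset (Qx C)} {ω ω' : ZMod κ → (Ix C → F) × F}
    (h : Agree (valx L Bc) A ω ω') (c : ZMod κ) (g : Finset (Ix C)) (hg : g ∈ A.toLeft) :
    vec g ⬝ᵥ ((ω' c).1 - (ω c).1) = 0 := by
  have := congrFun (h _ (Finset.mem_toLeft.1 hg)) c
  rw [dotProduct_sub, sub_eq_zero]
  exact this

lemma agree_right {A : Finset (Qx C)} {ω ω' : ZMod κ → (Ix C → F) × F}
    (h : Agree (valx L Bc) A ω ω') (c : ZMod κ) (u : Vx C) (hu : u ∈ A.toRight) :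
    ((ω' c).2 - (ω c).2) + L u ⬝ᵥ ((ω' (c + 1)).1 - (ω (c + 1)).1)
      + (Bc c u ((ω c).1 + ((ω' c).1 - (ω c).1)) - Bc c u (ω c).1) = 0 := by
  have := congrFun (h _ (Finset.mem_toRight.1 hu)) c
  simp only [valx] at this
  rw [dotProduct_sub, add_sub_cancel]
  linear_combination this

lemma indx_inj [Nontrivial C] (hL : Gen L) (hB : ∀ c, Piece (Bc c)) (hbrk : Brk L Bc)
    (I : Finset (Qx C)) (hI : Indx F I) (hcard : I.card = Fintype.card (Ix C) + 1)
    (ω ω' : ZMod κ → (Ix C → F) × F) (h : Agree (valx L Bc) I ω ω') : ω' = ω := by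
  have ht : (2 : F) = 0 := CharTwo.two_eq_zero
  have hc := Finset.card_toLeft_add_card_toRight (u := I)
  have hI1 := hI.1
  have hr : rk F I.toLeft = I.toRight.card := by omega
  suffices H : ∀ c, (ω' c).1 - (ω c).1 = 0 ∧ (ω' c).2 - (ω c).2 = 0 by
    funext c
    exact Prod.ext (sub_eq_zero.1 (H c).1) (sub_eq_zero.1 (H c).2)
  rcases Zs_bot hL I.toLeft I.toRight hr with hZ | ⟨i, j, hS, hP⟩
  · exact hbrk _ _ hZ (fun c => (ω' c).1 - (ω c).1) (fun c => (ω c).1)
      (fun c => (ω' c).2 - (ω c).2) (agree_left h) (agree_right h)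
  · obtain ⟨rfl, rfl⟩ : i = none ∧ j = none := by
      by_contra hij
      exact hI.2.2 ⟨i, j, hij, hcard, hS, hP⟩
    rw [hS, card_pair_vx] at hr
    have hs : ∀ c, ∃ s : F, (ω' c).1 - (ω c).1 = s • nv none none := fun c =>
      line_of_rk hr (nv_ne_zero none none) hP (agree_left h c)
    choose s hs using hs
    have e1 := fun c => agree_right h c (Sum.inl none) (by rw [hS]; simp)
    have e2 := fun c => agree_right h c (Sum.inr none) (by rw [hS]; simp)
    simp only [hs, dotProduct_smul, hL.1 _ none none (Or.inl rfl), hL.1 _ none none (Or.inr rfl),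
      smul_zero, add_zero] at e1 e2
    have hs0 : ∀ c, s c = 0 := by
      intro c
      have e3 := hB c none none (ω c).1 (s c)
      simp only [and_self, if_true] at e3
      have : s c ^ 2 = 0 := by
        linear_combination e1 c + e2 c - e3 - ((ω' c).2 - (ω c).2) * ht
      exact pow_eq_zero_iff (by norm_num) |>.1 this
    intro c
    refine ⟨by rw [hs, hs0, zero_smul], ?_⟩
    have := e1 c
    rwa [hs0, zero_smul, add_zero, sub_self, add_zero] at this

lemma sys_model [Fintype F] [NeZero κ] [Nontrivial C] (hL : Gen L) (hB : ∀ c, Piece (Bc c))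
    (hbrk : Brk L Bc) : Sys (valx L Bc) (Indx F) (Fintype.card (Ix C) + 1) where
  card := by
    classical
    simp only [Fintype.card_fun, Fintype.card_prod (Ix C → F) F]
    rw [← pow_succ, ← pow_mul, ← pow_mul, mul_comm]
  ext := indx_ext
  le := fun _ hI => hI.2.1
  inj := indx_inj hL hB hbrk

lemma indx_det [Fintype F] [NeZero κ] [Nontrivial C] (hL : Gen L) (hB : ∀ c, Piece (Bc c))
    (hbrk : Brk L Bc) (I : Finset (Qx C)) (e : Qx C) (hI : Indx F I) (he : e ∉ I)
    (hne : ¬ Indx F (insert e I)) : Det (valx L Bc) I e := by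
  classical
  have ht : (2 : F) = 0 := CharTwo.two_eq_zero
  by_cases hcard : I.card = Fintype.card (Ix C) + 1
  · intro ω ω' h
    rw [indx_inj hL hB hbrk I hI hcard ω ω' h]
  have hle := hI.2.1
  have hins := Finset.card_insert_of_notMem he
  by_cases h1 : rk F (insert e I).toLeft + (insert e I).toLeft.card = Fintype.card (Ix C) + 1
  · have hex : ∃ i j, ¬ (i = none ∧ j = none) ∧ (insert e I).card = Fintype.card (Ix C) + 1 ∧
        (insert e I).toRight = {Sum.inl i, Sum.inr j} ∧
        ∀ g ∈ (insert e I).toLeft, (vec g : Ix C → F) ⬝ᵥ nv i j = 0 := by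
      by_contra hcon
      exact hne ⟨h1, by omega, hcon⟩
    obtain ⟨i, j, hij, hN, hS, hP⟩ := hex
    intro ω ω' h
    let T : (ZMod κ → F) → ZMod κ → (Ix C → F) × F := fun s c =>
      ((ω c).1 + s c • nv i j,
        (ω c).2 - (Bc c (Sum.inl i) ((ω c).1 + s c • nv i j) - Bc c (Sum.inl i) (ω c).1))
    have hTinj : Function.Injective T := by
      intro s s' hss
      funext c
      obtain ⟨q, hq⟩ := nv_exists_one (F := F) i j
      have := congrFun (congrArg Prod.fst (congrFun hss c)) q
      simpa [T, hq] using this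
    have hT : ∀ s, T s ∈ fib (valx L Bc) (insert e I) ω := by
      intro s
      rw [mem_fib]
      rintro (g | u) ha
      · funext c
        simp only [valx, T, dotProduct_add, dotProduct_smul, hP g (Finset.mem_toLeft.2 ha),
          smul_zero, add_zero]
      · have hu := Finset.mem_toRight.2 ha
        rw [hS, Finset.mem_insert, Finset.mem_singleton] at hu
        funext c
        simp only [valx, T, dotProduct_add, dotProduct_smul, hL.1 u i j hu, smul_zero, add_zero]
        rcases hu with rfl | rfl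
        · ring
        · have e3 := hB c i j (ω c).1 (s c)
          rw [if_neg hij] at e3
          linear_combination e3 - (Bc c (Sum.inl i) ((ω c).1 + s c • nv i j)
            - Bc c (Sum.inl i) (ω c).1) * ht
    have hc1 : Fintype.card (ZMod κ → F) ≤ (fib (valx L Bc) (insert e I) ω).card := by
      rw [← Finset.card_univ]
      exact Finset.card_le_card_of_injOn T (fun s _ => hT s) hTinj.injOn
    have hsys := sys_model hL hB hbrk
    have hc2 := hsys.fib_card hI ω
    have hIc : I.card = Fintype.card (Ix C) := by omega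
    rw [hsys.card, hIc, pow_succ, mul_comm] at hc2
    have hc3 := Nat.eq_of_mul_eq_mul_left (by positivity) hc2
    have hfe : fib (valx L Bc) (insert e I) ω = fib (valx L Bc) I ω :=
      Finset.eq_of_subset_of_card_le (fib_anti (Finset.subset_insert e I) ω) (by omega)
    have := mem_fib.2 h
    rw [← hfe, mem_fib] at this
    exact this e (Finset.mem_insert_self e I)
  · rcases e with g | u
    · have hg : g ∉ I.toLeft := fun h' => he (Finset.mem_toLeft.1 h')
      rw [Finset.toLeft_insert_inl, Finset.card_insert_of_notMem hg] at h1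
      have h2 := rk_le_insert (F := F) g I.toLeft
      have h3 := rk_insert_le (F := F) g I.toLeft
      have h4 := hI.1
      have h5 : rk F (insert g I.toLeft) = rk F I.toLeft := by omega
      have h6 : (Kp (insert g I.toLeft) ∅ : Submodule F ((Ix C → F) × F)) = Kp I.toLeft ∅ := by
        refine Submodule.eq_of_le_of_finrank_eq ?_ h5
        rw [Kp_insert]
        exact inf_le_left
      intro ω ω' h
      funext c
      have h7 : (((ω' c).1 - (ω c).1, 0) : (Ix C → F) × F) ∈ Kp I.toLeft ∅ :=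
        mem_Kp0.2 (agree_left h c)
      rw [← h6] at h7
      have h8 := mem_Kp0.1 h7 g (Finset.mem_insert_self _ _)
      rw [dotProduct_sub, sub_eq_zero] at h8
      exact h8
    · rw [Finset.toLeft_insert_inr] at h1
      exact absurd hI.1 h1

end Model

end Pool.Agent.Lib.MP_e850aa_co
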