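import Pool.Agent.Lib.MP_e850aa_co.Gap

set_option autoImplicit false
set_option linter.unusedSectionVars false

namespace Pool.Agent.Lib.MP_e850aa_co

open Finset Filter Topology

section Grp

variable {G : Type} [Group G] [Finite G]

lemma rel_ne (B A : Subgroup G) : B.relIndex A ≠ 0 := Subgroup.index_ne_zero_of_finite

lemma idx_ne (B : Subgroup G) : B.index ≠ 0 := Subgroup.index_ne_zero_of_finite

/-- Logarithm of the relative index. -/
noncomputable def lr (B A : Subgroup G) : ℝ := Real.log (B.relIndex A)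

/-- Logarithm of the index. -/
noncomputable def li (B : Subgroup G) : ℝ := Real.log B.index

lemma log_nat_le {a b : ℕ} (ha : a ≠ 0) (h : a ≤ b) : Real.log a ≤ Real.log b :=
  Real.log_le_log (by exact_mod_cast Nat.pos_of_ne_zero ha) (by exact_mod_cast h)

lemma log_nat_mul {a b : ℕ} (ha : a ≠ 0) (hb : b ≠ 0) :
    Real.log ((a * b : ℕ) : ℝ) = Real.log a + Real.log b := by
  rw [Nat.cast_mul, Real.log_mul (by exact_mod_cast ha) (by exact_mod_cast hb)]

lemma lr_nonneg (B A : Subgroup G) : 0 ≤ lr B A := Real.log_natCast_nonneg _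

lemma li_nonneg (B : Subgroup G) : 0 ≤ li B := Real.log_natCast_nonneg _

lemma lr_eq (B Z : Subgroup G) : lr B Z = li (B ⊓ Z) - li Z := by
  rw [li, ← Subgroup.relIndex_mul_index (inf_le_right : B ⊓ Z ≤ Z), Subgroup.inf_relIndex_right,
    log_nat_mul (rel_ne _ _) (idx_ne _), lr, li]
  ring

lemma lr_mono (B : Subgroup G) {A A' : Subgroup G} (h : A ≤ A') : lr B A ≤ lr B A' :=
  log_nat_le (rel_ne _ _) (Subgroup.relIndex_le_of_le_right h (rel_ne _ _))

lemma li_anti {A A' : Subgroup G} (h : A ≤ A') : li A' ≤ li A :=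
  log_nat_le (idx_ne _) (Subgroup.index_antitone h)

lemma lr_sup (B Z : Subgroup G) [B.Normal] : lr B (Z ⊔ B) = lr B Z := by
  rw [lr, Subgroup.relIndex_sup_right, lr]

lemma li_sup (B Z : Subgroup G) [B.Normal] : li (Z ⊔ B) = li B - lr B Z := by
  rw [← lr_sup, lr_eq, inf_eq_left.2 le_sup_right]
  ring

lemma lr_inf_le (B C A : Subgroup G) : lr (B ⊓ C) A ≤ lr B A + lr C A := by
  rw [lr, lr, lr, ← log_nat_mul (rel_ne _ _) (rel_ne _ _)]
  exact log_nat_le (rel_ne _ _) Subgroup.relIndex_inf_le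

lemma lr_top (B : Subgroup G) : lr B ⊤ = li B := by rw [lr, Subgroup.relIndex_top_right, li]

lemma lr_iInf_le {Q : Type} [DecidableEq Q] (N : Q → Subgroup G) (A : Subgroup G) (X : Finset Q) :
    lr (⨅ a ∈ X, N a) A ≤ ∑ a ∈ X, lr (N a) A := by
  induction X using Finset.induction_on with
  | empty => simp [lr]
  | insert e X he ih =>
    rw [Finset.iInf_insert, Finset.sum_insert he]
    linarith [lr_inf_le (N e) (⨅ a ∈ X, N a) A]

omit [Finite G] in
lemma commutator_sup_le (B C N : Subgroup G) [B.Normal] [C.Normal] [N.Normal] :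
    ⁅B ⊔ N, C ⊔ N⁆ ≤ (B ⊓ C) ⊔ N := by
  have e1 : ∀ X : Subgroup G, (X ⊔ N).map (QuotientGroup.mk' N) = X.map (QuotientGroup.mk' N) := by
    intro X
    rw [Subgroup.map_sup, QuotientGroup.map_mk'_self, sup_bot_eq]
  refine (Subgroup.le_comap_map (QuotientGroup.mk' N) _).trans ?_
  rw [Subgroup.map_commutator, e1, e1, ← Subgroup.map_commutator, Subgroup.comap_map_eq,
    QuotientGroup.ker_mk']
  exact sup_le_sup_right (Subgroup.commutator_le_inf B C) N

omit [Finite G] in
lemma normal_biInf {Q : Type} (N : Q → Subgroup G) [∀ a, (N a).Normal] (X : Finset Q) :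
    (⨅ a ∈ X, N a).Normal :=
  Subgroup.normal_iInf_normal fun _ => Subgroup.normal_iInf_normal fun _ => inferInstance

end Grp

section Red

variable {Q : Type} [DecidableEq Q]

/-- `h` is the logarithmic index function of an arrangement of normal subgroups of a finite
group. -/
def HomFun (h : Finset Q → ℝ) : Prop :=
  ∃ (G : Type) (_ : Group G) (_ : Finite G) (N : Q → Subgroup G), (∀ a, (N a).Normal) ∧
    ∀ X : Finset Q, h X = li (⨅ a ∈ X, N a)

lemma HomFun.pol {h : Finset Q → ℝ} (hh : HomFun h) : Pol h := by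
  obtain ⟨G, _, _, N, -, hN⟩ := hh
  have e1 : ∀ X e, h (insert e X) - h X = lr (N e) (⨅ a ∈ X, N a) := by
    intro X e
    rw [hN, hN, Finset.iInf_insert, lr_eq]
  refine ⟨by simp [hN, li], fun X e => ?_, fun X Y e hXY => ?_⟩
  · linarith [e1 X e, lr_nonneg (N e) (⨅ a ∈ X, N a)]
  · rw [e1, e1]
    exact lr_mono _ (biInf_mono fun i hi => hXY hi)

lemma abFun_of_comm (W : Type) [CommGroup W] [Finite W] (U : Q → Subgroup W) :
    AbFun fun X : Finset Q => li (⨅ a ∈ X, U a) := by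
  refine ⟨Additive W, inferInstance, inferInstance, fun a => Subgroup.toAddSubgroup (U a),
    fun X => ?_⟩
  have : (⨅ a ∈ X, Subgroup.toAddSubgroup (U a)) = Subgroup.toAddSubgroup (⨅ a ∈ X, U a) := by
    simp only [OrderIso.map_iInf]
  rw [this, Subgroup.index_toAddSubgroup]
  rfl

/-- The defect of `h` at `e` with respect to the sets `Y`, `Y'`. -/
def dfc (h : Finset Q → ℝ) (Y Y' : Finset Q) (e : Q) : ℝ :=
  (h {e} - (h (insert e Y) - h Y)) + (h {e} - (h (insert e Y') - h Y'))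
    + (h (insert e (Y ∪ Y')) - h (Y ∪ Y'))

/-- Normal arrangements are close to abelian arrangements. -/
lemma HomFun.approx [Fintype Q] {h : Finset Q → ℝ} (hh : HomFun h) (Y Y' : Q → Finset Q) :
    ∃ h', AbFun h' ∧ ∀ X, h' X ≤ h X ∧ h X ≤ h' X + ∑ e, dfc h (Y e) (Y' e) e := by
  obtain ⟨G, _, _, N, hn, hN⟩ := hh
  let Z : Finset Q → Subgroup G := fun X => ⨅ a ∈ X, N a
  have hZ : ∀ X, (Z X).Normal := fun X => normal_biInf N X
  have e1 : ∀ X e, h (insert e X) - h X = lr (N e) (Z X) := by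
    intro X e
    rw [hN, hN, Finset.iInf_insert, lr_eq]
  have e2 : ∀ e, h {e} = li (N e) := fun e => by simp [hN]
  let Kk : Q → Subgroup G := fun e => (Z (Y e) ⊔ N e) ⊓ (Z (Y' e) ⊔ N e)
  have hK : ∀ e, (Kk e).Normal := fun e => inferInstance
  let G' : Subgroup G := ⨅ e ∈ (Finset.univ : Finset Q), Kk e
  have hG' : G'.Normal := normal_biInf Kk _
  let Dm : Subgroup G := ⁅G', G'⁆
  have hle : ∀ e, G' ≤ Kk e := fun e => iInf₂_le e (Finset.mem_univ e)
  have hD : ∀ e, lr (N e) Dm ≤ h (insert e (Y e ∪ Y' e)) - h (Y e ∪ Y' e) := by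
    intro e
    have e3 : Z (Y e ∪ Y' e) = Z (Y e) ⊓ Z (Y' e) := Finset.iInf_union
    rw [e1, e3, ← lr_sup (N e) (Z (Y e) ⊓ Z (Y' e))]
    exact lr_mono _ ((Subgroup.commutator_mono ((hle e).trans inf_le_left)
      ((hle e).trans inf_le_right)).trans (commutator_sup_le _ _ _))
  have hI : li G' ≤ ∑ e, ((h {e} - (h (insert e (Y e)) - h (Y e)))
      + (h {e} - (h (insert e (Y' e)) - h (Y' e)))) := by
    rw [← lr_top]
    refine (lr_iInf_le Kk ⊤ _).trans (Finset.sum_le_sum fun e _ => ?_)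
    refine (lr_inf_le _ _ _).trans (le_of_eq ?_)
    rw [lr_top, lr_top, li_sup, li_sup, e1, e1, e2]
  let E : Q → Subgroup G := fun e => Dm ⊔ N e
  let π : G' →* Abelianization G' := Abelianization.of
  have hπ : Function.Surjective π := fun x => QuotientGroup.mk_surjective x
  have hker : ∀ e, π.ker ≤ (E e).subgroupOf G' := by
    intro e x hx
    rw [Abelianization.ker_of] at hx
    refine (le_sup_left : Dm ≤ E e) ?_
    have := Subgroup.mem_map_of_mem G'.subtype hx
    rwa [Subgroup.map_subtype_commutator] at this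
  have : Finite (Abelianization G') := Finite.of_surjective π hπ
  refine ⟨_, abFun_of_comm (Abelianization G') fun e => ((E e).subgroupOf G').map π, fun X => ?_⟩
  have e4 : li (⨅ a ∈ X, ((E a).subgroupOf G').map π) = lr (⨅ a ∈ X, E a) G' := by
    rw [li, ← Subgroup.index_comap_of_surjective _ hπ, lr, Subgroup.relIndex]
    simp only [Subgroup.comap_iInf, Subgroup.comap_map_eq_self (hker _)]
    simp only [Subgroup.comap_iInf, Subgroup.subgroupOf]
  have e5 : Z X ≤ ⨅ a ∈ X, E a := iInf₂_mono fun a _ => le_sup_right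
  rw [e4, hN]
  constructor
  · exact (lr_mono _ le_top).trans ((lr_top _).trans_le (li_anti e5))
  · have k1 := lr_eq (Z X) (⨅ a ∈ X, E a)
    rw [inf_eq_left.2 e5] at k1
    have k2 := lr_eq (⨅ a ∈ X, E a) G'
    have k3 : li (⨅ a ∈ X, E a) ≤ li ((⨅ a ∈ X, E a) ⊓ G') := li_anti inf_le_left
    have k4 : lr (Z X) (⨅ a ∈ X, E a) ≤ ∑ e, (h (insert e (Y e ∪ Y' e)) - h (Y e ∪ Y' e)) := by
      refine (lr_iInf_le N _ X).trans ((Finset.sum_le_sum_of_subset_of_nonneg
        (Finset.subset_univ X) fun e _ _ => lr_nonneg _ _).trans' ?_ |>.trans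
          (Finset.sum_le_sum fun e _ => hD e))
      refine Finset.sum_le_sum fun a ha => (lr_mono _ (iInf₂_le a ha)).trans (le_of_eq ?_)
      exact lr_sup (N a) Dm
    have k5 : ∑ e, dfc h (Y e) (Y' e) e = ∑ e, ((h {e} - (h (insert e (Y e)) - h (Y e)))
        + (h {e} - (h (insert e (Y' e)) - h (Y' e))))
        + ∑ e, (h (insert e (Y e ∪ Y' e)) - h (Y e ∪ Y' e)) := by
      rw [← Finset.sum_add_distrib]
      rfl
    change li (Z X) ≤ _
    linarith

variable {Ω A : Type} {val : Q → Ω → A} {ρ : Finset Q → ℝ}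

lemma not_tendsto_hom [Fintype Q] (hdd : ∀ X e, Det val X e → ρ (insert e X) = ρ X)
    (hnd : ∀ X e, ¬ Det val X e → ρ (insert e X) = ρ X + 1 ∧ ρ {e} = 1)
    (hab : ∀ (W : Type) [AddCommGroup W] (U : Q → AddSubgroup W), ¬ AbLike val U)
    (hY : ∀ e, ∃ Y Y', ¬ Det val Y e ∧ ¬ Det val Y' e ∧ Det val (Y ∪ Y') e)
    (h : ℕ → Finset Q → ℝ) (hh : ∀ n, HomFun (h n)) (lam : ℕ → ℝ) (hlam : ∀ n, 0 < lam n) :
    ¬ ∀ X, Tendsto (fun n => h n X / lam n) atTop (𝓝 (ρ X)) := by
  intro hT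
  choose Y Y' h1 h2 h3 using hY
  choose h' k1 k2 using fun n => (hh n).approx Y Y'
  refine not_tendsto hdd hnd hab h' k1 lam hlam fun X => ?_
  have e1 : ∀ e, Tendsto (fun n => dfc (h n) (Y e) (Y' e) e / lam n) atTop (𝓝 0) := by
    intro e
    have := (((hT {e}).sub ((hT (insert e (Y e))).sub (hT (Y e)))).add
      ((hT {e}).sub ((hT (insert e (Y' e))).sub (hT (Y' e))))).add
      ((hT (insert e (Y e ∪ Y' e))).sub (hT (Y e ∪ Y' e)))
    rw [(hnd _ _ (h1 e)).1, (hnd _ _ (h1 e)).2, (hnd _ _ (h2 e)).1, hdd _ _ (h3 e)] at this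
    simp only [add_sub_cancel_left, sub_self, add_zero] at this
    refine this.congr fun n => ?_
    rw [dfc]
    ring
  have e2 := tendsto_finsetSum Finset.univ fun e _ => e1 e
  rw [Finset.sum_const_zero] at e2
  have e3 := (hT X).sub e2
  rw [sub_zero] at e3
  refine tendsto_of_tendsto_of_tendsto_of_le_of_le e3 (hT X) (fun n => ?_) fun n =>
    div_le_div_of_nonneg_right (k2 n X).1 (hlam n).le
  beta_reduce
  rw [← Finset.sum_div, ← sub_div]
  exact div_le_div_of_nonneg_right (by linarith [(k2 n X).2]) (hlam n).le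

end Red

end Pool.Agent.Lib.MP_e850aa_co
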