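import Pool.Agent.Lib.MP_e850aa_co.Final2

set_option autoImplicit false

namespace Pool.Agent.Lib.MP_e850aa_co.OldConnectedIdeal

open Pool.Agent.Lib.MP_e850aa_co

/-- A connected ideal access structure whose matroid is not the matroid of any ideal linear
scheme, and which no ideal linear scheme realizes. -/
theorem result : ∃ (Q : Type) (_ : Fintype Q) (_ : DecidableEq Q) (D : Q) (M : Matroid Q)
    (G : Set (Finset Q)) (s : Scheme Q),
      ConnectedAccess D G ∧ s.Realizes D G ∧ s.IsMatroidOf D M ∧
      ∀ (K : Type) [Field K] [Finite K] (t : Scheme Q), t.IsLinear K →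
        (∀ D' : Q, ¬ t.IsMatroidOf D' M) ∧ ¬ (t.Realizes D G ∧ t.Ideal D) :=
  main_conn

end Pool.Agent.Lib.MP_e850aa_co.OldConnectedIdeal
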