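import Pool.Agent.Lib.MP_e850aa_co.Grid

set_option autoImplicit false
set_option linter.unusedSectionVars false

namespace Pool.Agent.Lib.MP_e850aa_co

open Finset Module

section Piece

variable {F : Type} [Field F] [CharP F 2]

/-- The quadratic form of a row of the magic square. -/
def Rq (a1 a2 y11 y12 y21 y22 : F) : F := a1 * (y11 * y22 + y12 * y21) + a1 * a2 * (y11 * y12)

open Classical in
/-- The quadratic form of a column of the magic square. -/
noncomputable def Cq (b1 b2 y11 y12 y21 y22 : F) : F :=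
  if b1 = 0 ∧ b2 = 0 then 0 else if b2 = 0 then y11 * y22 else if b1 = 0 then y12 * y21
  else y11 * (y22 + y21)

lemma core (a1 a2 b1 b2 y11 y12 y21 y22 s : F) (h1 : a1 = 0 ∨ a1 = 1) (h2 : a2 = 0 ∨ a2 = 1)
    (hb : b1 = 0 ∨ b2 = 0 ∨ (b1 = 1 ∧ b2 = 1)) :
    Rq a1 a2 (y11 + s * (a1 * b1)) (y12 + s * (a1 * b2)) (y21 + s * (a2 * b1)) (y22 + s * (a2 * b2))
      + Cq b1 b2 (y11 + s * (a1 * b1)) (y12 + s * (a1 * b2)) (y21 + s * (a2 * b1))
        (y22 + s * (a2 * b2))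
      = Rq a1 a2 y11 y12 y21 y22 + Cq b1 b2 y11 y12 y21 y22 + a1 * a2 * b1 * b2 * s ^ 2 := by
  have ht : (2 : F) = 0 := CharTwo.two_eq_zero
  by_cases hb1 : b1 = 0
  · by_cases hb2 : b2 = 0
    · subst hb1 hb2
      simp [Cq]
    · subst hb1
      simp only [Cq, Rq, hb2, and_false, if_false, if_true]
      rcases h1 with rfl | rfl <;> rcases h2 with rfl | rfl
      · ring
      · ring
      · linear_combination (s * b2 * y21) * ht
      · linear_combination (s * b2 * y21 + s * b2 * y11) * ht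
  · by_cases hb2 : b2 = 0
    · subst hb2
      simp only [Cq, Rq, hb1, false_and, if_false, if_true]
      rcases h1 with rfl | rfl <;> rcases h2 with rfl | rfl
      · ring
      · ring
      · linear_combination (s * b1 * y22) * ht
      · linear_combination (s * b1 * y22 + s * b1 * y12) * ht
    · obtain ⟨rfl, rfl⟩ : b1 = 1 ∧ b2 = 1 := by tauto
      simp only [Cq, Rq, hb1, false_and, if_false]
      rcases h1 with rfl | rfl <;> rcases h2 with rfl | rfl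
      · ring
      · linear_combination (s * y11) * ht
      · linear_combination (s * y22 + s * y21) * ht
      · linear_combination (2 * s * y11 + s * y22 + s * y21 + s * y12 + 2 * s ^ 2) * ht

variable {R C : Type} [DecidableEq R] [DecidableEq C] [Fintype R] [Fintype C]

/-- The product functional `o ⊗ p`. -/
def yv (o : R → F) (p : C → F) (x : R × C → F) : F := (fun q : R × C => o q.1 * p q.2) ⬝ᵥ x

lemma yv_add (o : R → F) (p : C → F) (x x' : R × C → F) :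
    yv o p (x + x') = yv o p x + yv o p x' := dotProduct_add _ _ _

lemma yv_nv (o : R → F) (p : C → F) (i : Option R) (j : Option C) (s : F) :
    yv o p (s • nv i j) = s * ((o ⬝ᵥ av i) * (p ⬝ᵥ av j)) := by
  unfold yv
  rw [dotProduct_smul, smul_eq_mul]
  congr 1
  simp only [dotProduct, nv, Fintype.sum_prod_type, Finset.sum_mul_sum]
  refine Finset.sum_congr rfl fun k _ => Finset.sum_congr rfl fun l _ => ?_
  ring

/-- A system of functions, one for each row and column, whose row-column sums are invariant along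
the cells, except for the last cell. -/
def Piece (B : Option R ⊕ Option C → (R × C → F) → F) : Prop :=
  ∀ (i : Option R) (j : Option C) (v : R × C → F) (s : F),
    B (Sum.inl i) (v + s • nv i j) + B (Sum.inr j) (v + s • nv i j)
      = B (Sum.inl i) v + B (Sum.inr j) v + (if i = none ∧ j = none then s ^ 2 else 0)

lemma piece_gen (o1 o2 : R → F) (p1 p2 : C → F) (l : Option R ⊕ Option C → R × C → F)
    (h1 : ∀ i, o1 ⬝ᵥ av i = 0 ∨ o1 ⬝ᵥ av i = 1) (h2 : ∀ i, o2 ⬝ᵥ av i = 0 ∨ o2 ⬝ᵥ av i = 1)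
    (hb : ∀ j, p1 ⬝ᵥ av j = 0 ∨ p2 ⬝ᵥ av j = 0 ∨ (p1 ⬝ᵥ av j = 1 ∧ p2 ⬝ᵥ av j = 1))
    (hd : ∀ i j, (o1 ⬝ᵥ av i) * (o2 ⬝ᵥ av i) * (p1 ⬝ᵥ av j) * (p2 ⬝ᵥ av j)
      + (l (Sum.inl i) ⬝ᵥ nv i j) ^ 2 + (l (Sum.inr j) ⬝ᵥ nv i j) ^ 2
        = if i = none ∧ j = none then 1 else 0) :
    ∃ B : Option R ⊕ Option C → (R × C → F) → F, Piece B ∧
      (∀ u x, yv o1 p1 x = 0 → yv o1 p2 x = 0 → yv o2 p1 x = 0 → yv o2 p2 x = 0 →
        l u ⬝ᵥ x = 0 → ∀ v, B u (v + x) = B u v) ∧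
      (∀ i, o1 ⬝ᵥ av i = 0 → l (Sum.inl i) = 0 → ∀ v, B (Sum.inl i) v = 0) ∧
      (∀ j, p1 ⬝ᵥ av j = 0 → p2 ⬝ᵥ av j = 0 → l (Sum.inr j) = 0 → ∀ v, B (Sum.inr j) v = 0) := by
  have ht : (2 : F) = 0 := CharTwo.two_eq_zero
  let B : Option R ⊕ Option C → (R × C → F) → F := fun u v =>
    (match u with
      | Sum.inl i => Rq (o1 ⬝ᵥ av i) (o2 ⬝ᵥ av i) (yv o1 p1 v) (yv o1 p2 v) (yv o2 p1 v) (yv o2 p2 v)
      | Sum.inr j => Cq (p1 ⬝ᵥ av j) (p2 ⬝ᵥ av j) (yv o1 p1 v) (yv o1 p2 v) (yv o2 p1 v) (yv o2 p2 v))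
      + (l u ⬝ᵥ v) ^ 2
  refine ⟨B, ?_, ?_, ?_, ?_⟩
  · intro i j v s
    simp only [B, yv_add, yv_nv, dotProduct_add, dotProduct_smul, smul_eq_mul]
    have hc := core (o1 ⬝ᵥ av i) (o2 ⬝ᵥ av i) (p1 ⬝ᵥ av j) (p2 ⬝ᵥ av j) (yv o1 p1 v) (yv o1 p2 v)
      (yv o2 p1 v) (yv o2 p2 v) s (h1 i) (h2 i) (hb j)
    have hd' := hd i j
    have hi : (if i = none ∧ j = none then s ^ 2 else 0)
        = s ^ 2 * (if i = none ∧ j = none then 1 else 0) := by
      split_ifs <;> simp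
    rw [hi, ← hd']
    linear_combination hc + (s * (l (Sum.inl i) ⬝ᵥ v) * (l (Sum.inl i) ⬝ᵥ nv i j)
      + s * (l (Sum.inr j) ⬝ᵥ v) * (l (Sum.inr j) ⬝ᵥ nv i j)) * ht
  · intro u x e1 e2 e3 e4 e5 v
    simp only [B, yv_add, dotProduct_add, e1, e2, e3, e4, e5, add_zero]
  · intro i e1 e2 v
    simp [B, e1, e2, Rq]
  · intro j e1 e2 e3 v
    simp [B, e1, e2, e3, Cq]

end Piece

end Pool.Agent.Lib.MP_e850aa_co
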