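import Pool.Agent.Lib.MP_e850aa_co.Piece

set_option autoImplicit false
set_option linter.unusedSectionVars false

namespace Pool.Agent.Lib.MP_e850aa_co

open Finset Module

section Dep

variable {F C E : Type} [Field F] [DecidableEq C] [Fintype C] [AddCommGroup E] [Module F E]
  [FiniteDimensional F E]

lemma span_sub (d : C → E) (s : Finset C) : ∃ T : Finset C, T ⊆ s ∧ T.card ≤ finrank F E ∧
    ∀ j ∈ s, j ∉ T → ∃ p : C → F, p j = 1 ∧ (∀ l, l ≠ j → l ∉ T → p l = 0) ∧ ∑ l, p l • d l = 0 := by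
  obtain ⟨f, hf, hspan, -⟩ := Submodule.exists_fun_fin_finrank_span_eq F (d '' (s : Set C))
  choose g hg hgf using hf
  refine ⟨Finset.univ.image g, ?_, ?_, ?_⟩
  · intro l hl
    obtain ⟨i, -, rfl⟩ := Finset.mem_image.1 hl
    exact hg i
  · refine Finset.card_image_le.trans ?_
    rw [Finset.card_univ, Fintype.card_fin]
    exact Submodule.finrank_le _
  · intro j hj hjT
    have hmem : d j ∈ Submodule.span F (Set.range f) := by
      rw [hspan]
      exact Submodule.subset_span ⟨j, hj, rfl⟩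
    obtain ⟨c, hc⟩ := (Submodule.mem_span_range_iff_exists_fun F).1 hmem
    have hz : ∀ l, l ∉ Finset.univ.image g → (∑ i, (Pi.single (g i) (c i) : C → F)) l = 0 := by
      intro l hl
      rw [Finset.sum_apply]
      refine Finset.sum_eq_zero fun i _ => ?_
      refine Pi.single_eq_of_ne ?_ _
      rintro rfl
      exact hl (Finset.mem_image_of_mem g (Finset.mem_univ i))
    refine ⟨Pi.single j 1 - ∑ i, Pi.single (g i) (c i), ?_, ?_, ?_⟩
    · rw [Pi.sub_apply, hz j hjT]
      simp
    · intro l hl hlT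
      rw [Pi.sub_apply, hz l hlT, Pi.single_eq_of_ne hl]
      simp
    · rw [← Fintype.linearCombination_apply, map_sub, map_sum]
      simp only [Fintype.linearCombination_apply_single, one_smul, hgf]
      rw [hc, sub_self]

lemma two_dep (d : C → E) (hC : 2 * finrank F E < Fintype.card C) :
    ∃ (j : C) (p1 p2 : C → F), p1 j = 1 ∧ p2 j = 1 ∧ (∀ l, l ≠ j → p1 l = 0 ∨ p2 l = 0) ∧
      ∑ l, p1 l • d l = 0 ∧ ∑ l, p2 l • d l = 0 := by
  obtain ⟨T1, -, hT1, h1⟩ := span_sub (F := F) d Finset.univ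
  obtain ⟨T2, hs2, hT2, h2⟩ := span_sub (F := F) d (Finset.univ \ T1)
  have hlt : (T1 ∪ T2).card < (Finset.univ : Finset C).card := by
    have := Finset.card_union_le T1 T2
    rw [Finset.card_univ]
    omega
  obtain ⟨j, -, hj⟩ := Finset.exists_mem_notMem_of_card_lt_card hlt
  rw [Finset.mem_union, not_or] at hj
  obtain ⟨p1, a1, b1, c1⟩ := h1 j (Finset.mem_univ j) hj.1
  obtain ⟨p2, a2, b2, c2⟩ := h2 j (Finset.mem_sdiff.2 ⟨Finset.mem_univ j, hj.1⟩) hj.2
  refine ⟨j, p1, p2, a1, a2, fun l hl => ?_, c1, c2⟩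
  by_cases h : l ∈ T1
  · exact Or.inr (b2 l hl fun h' => (Finset.mem_sdiff.1 (hs2 h')).2 h)
  · exact Or.inl (b1 l hl h)

end Dep

section Pieces

variable {F C : Type} [Field F] [CharP F 2] [DecidableEq C] [Fintype C]

lemma dot_av_none (p : C → F) : p ⬝ᵥ av none = ∑ l, p l := by simp [dotProduct]

lemma dot_av_some (p : C → F) (l : C) : p ⬝ᵥ av (some l) = p l := by simp [dotProduct]

lemma yv_single (k : Fin 3) (p : C → F) (x : Fin 3 × C → F) :
    yv (Pi.single k 1) p x = ∑ l, p l * x (k, l) := by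
  simp only [yv, dotProduct, Fintype.sum_prod_type]
  rw [Finset.sum_eq_single k]
  · simp
  · intro b _ hb
    simp [Pi.single_eq_of_ne hb]
  · simp

lemma yv_add_left (o o' : Fin 3 → F) (p : C → F) (x : Fin 3 × C → F) :
    yv (o + o') p x = yv o p x + yv o' p x := by
  simp only [yv, dotProduct, Pi.add_apply, add_mul, Finset.sum_add_distrib]

lemma pieceA (c0 c1 : C) (h : c0 ≠ c1) :
    ∃ (B : Option (Fin 3) ⊕ Option C → (Fin 3 × C → F) → F) (E : Finset (Option (Fin 3) ⊕ Option C)),
      Piece B ∧ E.card ≤ 5 ∧ ∀ u, u ∉ E → ∀ v, B u v = 0 := by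
  obtain ⟨B, hB, -, hr, hc⟩ := piece_gen (F := F) (R := Fin 3) (C := C) (Pi.single 0 1)
    (Pi.single 1 1) (Pi.single c0 1) (Pi.single c1 1) (fun _ => 0)
    (fun i => by simpa using av_mul_self i 0) (fun i => by simpa using av_mul_self i 1)
    (fun j => by
      simp only [single_dotProduct, one_mul]
      rcases av_mul_self (F := F) j c0 with h1 | h1
      · exact Or.inl h1
      · rcases av_mul_self (F := F) j c1 with h2 | h2
        · exact Or.inr (Or.inl h2)
        · exact Or.inr (Or.inr ⟨h1, h2⟩))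
    (fun i j => by
      simp only [single_dotProduct, one_mul, zero_dotProduct]
      rcases i with _ | i
      · rcases j with _ | j
        · simp
        · by_cases h0 : c0 = j
          · subst h0
            simp [h.symm]
          · simp [h0]
      · fin_cases i <;> simp)
  refine ⟨B, {Sum.inl (some 0), Sum.inl none, Sum.inr (some c0), Sum.inr (some c1), Sum.inr none},
    hB, Finset.card_le_five, fun u hu => ?_⟩
  simp only [Finset.mem_insert, Finset.mem_singleton, not_or] at hu
  obtain ⟨h1, h2, h3, h4, h5⟩ := hu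
  rcases u with i | j
  · refine hr i ?_ rfl
    rcases i with _ | i
    · exact absurd rfl h2
    · have : (0 : Fin 3) ≠ i := by rintro rfl; exact h1 rfl
      simp [this]
  · rcases j with _ | j
    · exact absurd rfl h5
    · have e0 : c0 ≠ j := by rintro rfl; exact h3 rfl
      have e1 : c1 ≠ j := by rintro rfl; exact h4 rfl
      exact hc (some j) (by simp [e0]) (by simp [e1]) rfl

lemma pieceB (hC : 23 ≤ Fintype.card C) (W : Submodule F (Fin 3 × C → F)) (hW : finrank F W ≤ 5) :
    ∃ j0 : C, ∀ lam ∈ (Yv (Sum.inl none) : Submodule F (Fin 3 × C → F)),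
      ∃ B : Option (Fin 3) ⊕ Option C → (Fin 3 × C → F) → F, Piece B ∧
        (∀ u, u ≠ Sum.inl none → ∀ x ∈ W, ∀ v, B u (v + x) = B u v) ∧
        (∀ x ∈ W, x (0, j0) + lam ⬝ᵥ x = 0 → ∀ v, B (Sum.inl none) (v + x) = B (Sum.inl none) v) := by
  have ht : (2 : F) = 0 := CharTwo.two_eq_zero
  let d : C → F × Module.Dual F W × Module.Dual F W := fun l =>
    (1, (LinearMap.proj (0, l)).comp W.subtype, (LinearMap.proj (1, l)).comp W.subtype)
  obtain ⟨j0, p1, p2, a1, a2, hsupp, c1, c2⟩ := two_dep (F := F) d (by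
    simp only [Module.finrank_prod, Module.finrank_self, Subspace.dual_finrank_eq]
    omega)
  have key : ∀ p : C → F, ∑ l, p l • d l = 0 →
      ∑ l, p l = 0 ∧ ∀ x ∈ W, ∑ l, p l * x (0, l) = 0 ∧ ∑ l, p l * x (1, l) = 0 := by
    intro p hp
    refine ⟨?_, fun x hx => ⟨?_, ?_⟩⟩
    · have := congrArg Prod.fst hp
      simpa [d, Prod.fst_sum] using this
    · have := congrArg (fun z : F × Module.Dual F W × Module.Dual F W => z.2.1 ⟨x, hx⟩) hp
      simpa [d, Prod.fst_sum, Prod.snd_sum] using this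
    · have := congrArg (fun z : F × Module.Dual F W × Module.Dual F W => z.2.2 ⟨x, hx⟩) hp
      simpa [d, Prod.fst_sum, Prod.snd_sum] using this
  obtain ⟨s1, k1⟩ := key p1 c1
  obtain ⟨s2, k2⟩ := key p2 c2
  refine ⟨j0, fun lam hlam => ?_⟩
  obtain ⟨B, hB, hinv, -, -⟩ := piece_gen (F := F) (R := Fin 3) (C := C) (Pi.single 0 1)
    (Pi.single 1 1) p1 p2
    (fun u => if u = Sum.inl none then Pi.single (0, j0) 1 + lam else 0)
    (fun i => by simpa using av_mul_self i 0) (fun i => by simpa using av_mul_self i 1)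
    (fun j => by
      rcases j with _ | j
      · exact Or.inl (by rw [dot_av_none, s1])
      · rw [dot_av_some, dot_av_some]
        by_cases hj : j = j0
        · subst hj
          exact Or.inr (Or.inr ⟨a1, a2⟩)
        · rcases hsupp j hj with h | h
          · exact Or.inl h
          · exact Or.inr (Or.inl h))
    (fun i j => by
      rcases i with _ | i
      · have hl := hlam none j (Or.inl rfl)
        simp only [if_true, add_dotProduct, hl, single_dotProduct, one_mul, add_zero, nv, av_none,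
          reduceCtorEq, if_false, zero_dotProduct, true_and]
        rcases j with _ | j
        · simp [dot_av_none, s1]
        · rw [dot_av_some, dot_av_some]
          by_cases hj : j = j0
          · subst hj
            simp only [a1, a2, av_some, if_true, reduceCtorEq, if_false]
            linear_combination ht
          · rcases hsupp j hj with h | h <;> simp [h, Ne.symm hj]
      · fin_cases i <;> simp)
  refine ⟨B, hB, fun u hu x hx v => ?_, fun x hx h0 v => ?_⟩
  · refine hinv u x ?_ ?_ ?_ ?_ ?_ v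
    · rw [yv_single, (k1 x hx).1]
    · rw [yv_single, (k2 x hx).1]
    · rw [yv_single, (k1 x hx).2]
    · rw [yv_single, (k2 x hx).2]
    · simp [hu]
  · refine hinv _ x ?_ ?_ ?_ ?_ ?_ v
    · rw [yv_single, (k1 x hx).1]
    · rw [yv_single, (k2 x hx).1]
    · rw [yv_single, (k1 x hx).2]
    · rw [yv_single, (k2 x hx).2]
    · simpa [add_dotProduct] using h0

lemma pieceC2 (c0 c1 : C) (h : c0 ≠ c1) (lam : Fin 3 × C → F)
    (hlam : lam ∈ (Yv (Sum.inr none) : Submodule F (Fin 3 × C → F))) :
    ∃ B : Option (Fin 3) ⊕ Option C → (Fin 3 × C → F) → F, Piece B ∧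
      ∀ x, (∀ l ∈ (Yv (Sum.inl none) : Submodule F (Fin 3 × C → F)), l ⬝ᵥ x = 0) → ∀ u,
        (u = Sum.inr none → x (2, c0) + lam ⬝ᵥ x = 0) → ∀ v, B u (v + x) = B u v := by
  have ht : (2 : F) = 0 := CharTwo.two_eq_zero
  have h11 : (1 : F) + 1 = 0 := by linear_combination ht
  obtain ⟨B, hB, hinv, -, -⟩ := piece_gen (F := F) (R := Fin 3) (C := C)
    (Pi.single 0 1 + Pi.single 2 1) (Pi.single 1 1 + Pi.single 2 1) (Pi.single c0 1)
    (Pi.single c1 1) (fun u => if u = Sum.inr none then Pi.single (2, c0) 1 + lam else 0)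
    (fun i => by
      simp only [add_dotProduct, single_dotProduct, one_mul]
      rcases i with _ | i
      · simp [h11]
      · fin_cases i <;> simp)
    (fun i => by
      simp only [add_dotProduct, single_dotProduct, one_mul]
      rcases i with _ | i
      · simp [h11]
      · fin_cases i <;> simp)
    (fun j => by
      simp only [single_dotProduct, one_mul]
      rcases av_mul_self (F := F) j c0 with h1 | h1
      · exact Or.inl h1
      · rcases av_mul_self (F := F) j c1 with h2 | h2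
        · exact Or.inr (Or.inl h2)
        · exact Or.inr (Or.inr ⟨h1, h2⟩))
    (fun i j => by
      rcases j with _ | j
      · have hl := hlam i none (Or.inr rfl)
        simp only [if_true, add_dotProduct, hl, single_dotProduct, one_mul, add_zero, nv, av_none,
          reduceCtorEq, if_false, zero_dotProduct, and_true]
        rcases i with _ | i
        · simp [h11]
        · fin_cases i <;> simp [h11]
      · simp only [add_dotProduct, single_dotProduct, one_mul, reduceCtorEq, if_false,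
          zero_dotProduct, and_false, Sum.inr.injEq]
        by_cases h0 : c0 = j
        · subst h0
          simp [h.symm]
        · simp [h0])
  refine ⟨B, hB, fun x hx u hu v => ?_⟩
  have hrow : ∀ k l, x (k, l) = x (2, l) := by
    intro k l
    simpa using row_rel hx k 2 l
  have hy : ∀ (k : Fin 3) (p : C → F), yv (Pi.single k 1 + Pi.single 2 1) p x = 0 := by
    intro k p
    rw [yv_add_left, yv_single, yv_single]
    simp only [hrow k]
    linear_combination (∑ l, p l * x (2, l)) * ht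
  refine hinv u x (hy _ _) (hy _ _) (hy _ _) (hy _ _) ?_ v
  by_cases hu' : u = Sum.inr none
  · simpa [hu', add_dotProduct] using hu hu'
  · simp [hu']

lemma pieceC (hC : 23 ≤ Fintype.card C) (W : Submodule F (Fin 3 × C → F)) (hW : finrank F W ≤ 1) :
    ∃ B : Option (Fin 3) ⊕ Option C → (Fin 3 × C → F) → F, Piece B ∧
      ∀ u, (u = Sum.inr none → nv none none ∉ W) → ∀ x ∈ W, ∀ v, B u (v + x) = B u v := by
  have : Nontrivial C := Fintype.one_lt_card_iff_nontrivial.1 (by omega)
  obtain ⟨x0, hx0⟩ := finrank_le_one_iff.1 hW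
  have hx : ∀ x ∈ W, ∃ c : F, x = c • (x0 : Fin 3 × C → F) := by
    intro x hx
    obtain ⟨c, hc⟩ := hx0 ⟨x, hx⟩
    exact ⟨c, (congrArg Subtype.val hc).symm⟩
  have kill : ∀ (Y : Submodule F (Fin 3 × C → F)) (q : Fin 3 × C),
      ¬ (∀ l ∈ Y, l ⬝ᵥ (x0 : Fin 3 × C → F) = 0) → ∃ lam ∈ Y, ∀ x ∈ W, x q + lam ⬝ᵥ x = 0 := by
    intro Y q hY
    push Not at hY
    obtain ⟨l, hl, hl'⟩ := hY
    refine ⟨(-(x0 : Fin 3 × C → F) q / (l ⬝ᵥ (x0 : Fin 3 × C → F))) • l, Y.smul_mem _ hl,
      fun x hxW => ?_⟩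
    obtain ⟨c, rfl⟩ := hx x hxW
    simp only [Pi.smul_apply, smul_dotProduct, dotProduct_smul, smul_eq_mul]
    field_simp
    ring
  by_cases h1 : ∀ l ∈ (Yv (Sum.inl none) : Submodule F (Fin 3 × C → F)),
      l ⬝ᵥ (x0 : Fin 3 × C → F) = 0
  · obtain ⟨c0, c1, hc⟩ := exists_pair_ne C
    have h1' : ∀ x ∈ W, ∀ l ∈ (Yv (Sum.inl none) : Submodule F (Fin 3 × C → F)), l ⬝ᵥ x = 0 := by
      intro x hxW l hl
      obtain ⟨c, rfl⟩ := hx x hxW
      rw [dotProduct_smul, h1 l hl, smul_zero]
    by_cases h2 : ∀ l ∈ (Yv (Sum.inr none) : Submodule F (Fin 3 × C → F)),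
        l ⬝ᵥ (x0 : Fin 3 × C → F) = 0
    · obtain ⟨B, hB, hinv⟩ := pieceC2 (F := F) c0 c1 hc 0 (Submodule.zero_mem _)
      refine ⟨B, hB, fun u hu x hxW v => hinv x (h1' x hxW) u (fun hu' => ?_) v⟩
      obtain ⟨s, hs⟩ := row_col (y := ((x0 : Fin 3 × C → F), (0 : F))) (i := none) (j := none)
        ⟨rfl, h1⟩ ⟨rfl, h2⟩
      have hs' : (x0 : Fin 3 × C → F) = s • nv none none := congrArg Prod.fst hs
      by_cases hs0 : s = 0
      · obtain ⟨c, rfl⟩ := hx x hxW
        simp [hs', hs0]
      · exfalso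
        apply hu hu'
        have : (nv none none : Fin 3 × C → F) = s⁻¹ • (x0 : Fin 3 × C → F) := by
          rw [hs', smul_smul, inv_mul_cancel₀ hs0, one_smul]
        rw [this]
        exact W.smul_mem _ x0.2
    · obtain ⟨lam, hlam, hk⟩ := kill _ (2, c0) h2
      obtain ⟨B, hB, hinv⟩ := pieceC2 (F := F) c0 c1 hc lam hlam
      exact ⟨B, hB, fun u _ x hxW v => hinv x (h1' x hxW) u (fun _ => hk x hxW) v⟩
  · obtain ⟨j0, hj0⟩ := pieceB hC W (by omega)
    obtain ⟨lam, hlam, hk⟩ := kill _ (0, j0) h1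
    obtain ⟨B, hB, hinv, hinv'⟩ := hj0 lam hlam
    refine ⟨B, hB, fun u _ x hxW v => ?_⟩
    by_cases hu : u = Sum.inl none
    · subst hu
      exact hinv' x hxW (hk x hxW) v
    · exact hinv u hu x hxW v

end Pieces

end Pool.Agent.Lib.MP_e850aa_co
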