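import Mathlib

set_option autoImplicit false

namespace Pool.Agent.Lib.MP_e850aa_co

open Classical in
/-- Shannon entropy of the random variable `f` on the finite probability space `(E, p)`. -/
noncomputable def entropy {E V : Type} [Fintype E] (p : E → ℝ) (f : E → V) : ℝ :=
  ∑ v ∈ Finset.univ.image f, Real.negMulLog (∑ x ∈ Finset.univ.filter (fun x => f x = v), p x)

/-- A secret sharing scheme on `Q`: a finite probability space with surjections onto finite
sets of shares. -/
structure Scheme (Q : Type) where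
  E : Type
  finE : Fintype E
  p : E → ℝ
  nonneg : ∀ x, 0 ≤ p x
  total : ∑ x, p x = 1
  S : Q → Type
  finS : ∀ i, Finite (S i)
  sh : ∀ i, E → S i
  surj : ∀ i, Function.Surjective (sh i)

namespace Scheme

variable {Q : Type}

/-- The joint entropy of the shares indexed by `A`. -/
noncomputable def H (s : Scheme Q) (A : Finset Q) : ℝ :=
  @entropy s.E ((i : A) → s.S i) s.finE s.p (fun x i => s.sh i x)

/-- The scheme with dealer `D` realizes the access structure `G`. -/
def Realizes [DecidableEq Q] (s : Scheme Q) (D : Q) (G : Set (Finset Q)) : Prop :=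
  0 < s.H {D} ∧ ∀ A : Finset Q, D ∉ A →
    (A ∈ G → s.H (insert D A) - s.H A = 0) ∧ (A ∉ G → s.H (insert D A) - s.H A = s.H {D})

/-- The information rate is one. -/
def Ideal (s : Scheme Q) (D : Q) : Prop :=
  s.H {D} / (⨆ i : {i : Q // i ≠ D}, s.H {i.1}) = 1

/-- `M` is the matroid of the ideal scheme `s` with dealer `D`. -/
def IsMatroidOf (s : Scheme Q) (D : Q) (M : Matroid Q) : Prop :=
  s.Ideal D ∧ M.E = Set.univ ∧
    ∀ X : Finset Q, ∃ n : ℕ, M.eRk (X : Set Q) = n ∧ s.H X / s.H {D} = n

/-- The scheme is `K`-linear. -/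
def IsLinear (s : Scheme Q) (K : Type) [Field K] : Prop :=
  ∃ (_ : AddCommGroup s.E) (_ : Module K s.E) (_ : ∀ i, AddCommGroup (s.S i))
    (_ : ∀ i, Module K (s.S i)), (∀ i, IsLinearMap K (s.sh i)) ∧ ∀ x y, s.p x = s.p y

end Scheme

/-- `G` is a family of subsets of the participants in which no participant is redundant. -/
def ConnectedAccess {Q : Type} (D : Q) (G : Set (Finset Q)) : Prop :=
  (∀ A ∈ G, D ∉ A) ∧ ∀ i : Q, i ≠ D → ∃ A : Finset Q, Minimal (fun B => B ∈ G) A ∧ i ∈ A

end Pool.Agent.Lib.MP_e850aa_co
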